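import Pool.Agent.Lib.MP_84d915_co.Defs

/-!
Partial colourings: proper edge colourings of a graph with `N` colours in which every vertex
misses exactly two colours. `nb c v` is the neighbour of `v` along the edge of colour `c`.
-/

namespace Pool.Agent.Lib.MP_84d915_co

/-- `nb` describes a proper edge colouring of `G` with the colours `c < N` such that exactly two
colours are missing at every vertex. -/
structure IsCol {V : Type} (G : SimpleGraph V) (N : ℕ) (nb : ℕ → V → Option V) : Prop where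
  symm : ∀ c, c < N → ∀ v w, nb c v = some w → nb c w = some v
  adj : ∀ v w, G.Adj v w ↔ ∃ c, c < N ∧ nb c v = some w
  uniq : ∀ c c', c < N → c' < N → ∀ v w, nb c v = some w → nb c' v = some w → c = c'
  mis : ∀ v, ∃ a b, a < b ∧ b < N ∧ ∀ c, c < N → (nb c v = none ↔ c = a ∨ c = b)

/-- One step along an edge with colour in `T` avoiding the vertices in `S`. -/
def Step {V : Type} (nb : ℕ → V → Option V) (T : ℕ → Prop) (S : V → Prop) (u v : V) : Prop :=
  (∃ c, T c ∧ nb c u = some v) ∧ ¬ S u ∧ ¬ S v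

/-- The subgraph of the edges with colours in `T` without the vertices of `S` is connected. -/
def Conn {V : Type} (nb : ℕ → V → Option V) (T : ℕ → Prop) (S : V → Prop) : Prop :=
  ∀ u v, ¬ S u → ¬ S v → Relation.ReflTransGen (Step nb T S) u v

/-- Every three colour classes have connected union. -/
def P1 {V : Type} (N : ℕ) (nb : ℕ → V → Option V) : Prop :=
  ∀ c₁ c₂ c₃, c₁ < N → c₂ < N → c₃ < N → c₁ ≠ c₂ → c₁ ≠ c₃ → c₂ ≠ c₃ →
    Conn nb (fun c => c = c₁ ∨ c = c₂ ∨ c = c₃) (fun _ => False)

/-- The union of two pairs of cyclically consecutive colours is connected outside `S`. -/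
def P2 {V : Type} (N : ℕ) (nb : ℕ → V → Option V) (S : V → Prop) : Prop :=
  ∀ i j, i < N → j < N → i ≠ j →
    Conn nb (fun c => c = i ∨ c = (i + 1) % N ∨ c = j ∨ c = (j + 1) % N) S

/-- For all three colours, one of them is the smaller missing colour of some vertex, and one of
them is the larger missing colour of some vertex. -/
def Avail {V : Type} (N : ℕ) (nb : ℕ → V → Option V) : Prop :=
  ∀ c₁ c₂ c₃, c₁ < N → c₂ < N → c₃ < N → c₁ ≠ c₂ → c₁ ≠ c₃ → c₂ ≠ c₃ →
    (∃ v x y, x < y ∧ y < N ∧ nb x v = none ∧ nb y v = none ∧ (x = c₁ ∨ x = c₂ ∨ x = c₃)) ∧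
    (∃ v x y, x < y ∧ y < N ∧ nb x v = none ∧ nb y v = none ∧ (y = c₁ ∨ y = c₂ ∨ y = c₃))

/-- Labels of vertices used in the induction: no label, a single reserved vertex `A r j` missing
the colours `j - 1`, `j`, or one of the two vertices of a reserved edge. -/
inductive Lab : Type
  | none : Lab
  | A (r j : ℕ) : Lab
  | Bz (r j : ℕ) : Lab
  | Bw (r j : ℕ) : Lab
deriving DecidableEq

/-- The 47 labels needed at the start of the induction (`N = 12`), as pairs `(r, j)`. -/
def startLabels : List (ℕ × ℕ) :=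
  [(1, 2), (2, 2), (3, 2), (4, 2), (5, 2), (6, 2), (7, 2),
   (1, 3), (2, 3), (3, 3), (4, 3), (5, 3), (6, 3), (7, 3),
   (1, 4), (2, 4), (3, 4), (8, 4), (7, 4),
   (1, 5), (2, 5), (3, 5), (8, 5), (7, 5),
   (11, 6), (12, 6), (8, 6), (7, 6),
   (11, 7), (12, 7), (8, 7), (7, 7),
   (10, 8), (8, 8), (7, 8),
   (10, 9), (8, 9), (7, 9),
   (9, 10), (8, 10), (7, 10),
   (1, 11), (2, 11), (3, 11), (4, 11), (5, 11), (6, 11)]

end Pool.Agent.Lib.MP_84d915_co
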