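import Mathlib

/-!
Hypercubes, their 1-factorizations and the parameter `r`.
-/

namespace Pool.Agent.Lib.MP_84d915_co

/-- The hypercube `Q_d`: the vertices are the 0/1 vectors of length `d`, and two of them are
adjacent when they differ in exactly one coordinate. -/
def cube (d : ℕ) : SimpleGraph (Fin d → Bool) where
  Adj x y := ∃! i, x i ≠ y i
  symm := ⟨by
    rintro x y ⟨i, hi, hu⟩
    exact ⟨i, fun h => hi h.symm, fun j hj => hu j (fun h => hj h.symm)⟩⟩
  loopless := ⟨by
    rintro x ⟨i, hi, _⟩
    exact hi rfl⟩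

/-- A 1-factor (perfect matching) of `Q_d`, given by its set of edges. -/
def IsOneFactor (d : ℕ) (M : Set (Sym2 (Fin d → Bool))) : Prop :=
  M ⊆ (cube d).edgeSet ∧ ∀ v, ∃! e, e ∈ M ∧ v ∈ e

/-- A 1-factorization of `Q_d`: a partition of the edge set into 1-factors. -/
def IsOneFactorization (d : ℕ) (F : Set (Set (Sym2 (Fin d → Bool)))) : Prop :=
  (∀ M ∈ F, IsOneFactor d M) ∧ F.PairwiseDisjoint id ∧ ⋃₀ F = (cube d).edgeSet

/-- The union of every `k` distinct members of `F` is a connected spanning subgraph. -/
def UnionsConnected (d k : ℕ) (F : Set (Set (Sym2 (Fin d → Bool)))) : Prop :=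
  ∀ S ⊆ F, S.ncard = k → (SimpleGraph.fromEdgeSet (⋃₀ S)).Connected

/-- The least positive `k` such that some 1-factorization of `Q_d` has the property that the
union of every `k` distinct members is connected. -/
noncomputable def r (d : ℕ) : ℕ :=
  sInf {k | 0 < k ∧ ∃ F, IsOneFactorization d F ∧ UnionsConnected d k F}

end Pool.Agent.Lib.MP_84d915_co
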