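import Pool.Agent.Lib.MP_84d915_co.Defs
import Pool.Agent.Lib.MP_84d915_co.Col

section

/-!
The product of a graph with an edge, and hypercubes.
-/

namespace Pool.Agent.Lib.MP_84d915_co

/-- The product of `G` with an edge. -/
def prodG {V : Type} (G : SimpleGraph V) : SimpleGraph (V × Bool) where
  Adj p q := (G.Adj p.1 q.1 ∧ p.2 = q.2) ∨ (p.1 = q.1 ∧ p.2 ≠ q.2)
  symm := ⟨by
    rintro p q (⟨h1, h2⟩ | ⟨h1, h2⟩)
    · exact Or.inl ⟨h1.symm, h2.symm⟩
    · exact Or.inr ⟨h1.symm, h2.symm⟩⟩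
  loopless := ⟨by
    rintro p (⟨h1, _⟩ | ⟨_, h2⟩)
    · exact G.loopless.irrefl _ h1
    · exact h2 rfl⟩

theorem prodG_adj {V : Type} (G : SimpleGraph V) (p q : V × Bool) :
    (prodG G).Adj p q ↔ (G.Adj p.1 q.1 ∧ p.2 = q.2) ∨ (p.1 = q.1 ∧ p.2 ≠ q.2) := Iff.rfl

theorem cube_adj {d : ℕ} (x y : Fin d → Bool) : (cube d).Adj x y ↔ ∃! i, x i ≠ y i := Iff.rfl

theorem cube_succ_adj {b : ℕ} (p q : (Fin b → Bool) × Bool) :
    (cube (b + 1)).Adj (Fin.cons p.2 p.1 : Fin (b + 1) → Bool) (Fin.cons q.2 q.1) ↔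
      ((cube b).Adj p.1 q.1 ∧ p.2 = q.2) ∨ (p.1 = q.1 ∧ p.2 ≠ q.2) := by
  rw [cube_adj, cube_adj]
  constructor
  · rintro ⟨i, hi, hu⟩
    refine Fin.cases (motive := fun i => (Fin.cons p.2 p.1 : Fin (b + 1) → Bool) i ≠
        (Fin.cons q.2 q.1 : Fin (b + 1) → Bool) i →
        (∀ j, (Fin.cons p.2 p.1 : Fin (b + 1) → Bool) j ≠
          (Fin.cons q.2 q.1 : Fin (b + 1) → Bool) j → j = i) →
        ((∃! i, p.1 i ≠ q.1 i) ∧ p.2 = q.2) ∨ (p.1 = q.1 ∧ p.2 ≠ q.2)) ?_ ?_ i hi hu
    · intro hi hu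
      right
      refine ⟨?_, by simpa using hi⟩
      funext j
      by_contra hne
      have := hu j.succ (by simpa using hne)
      exact Fin.succ_ne_zero j this
    · intro i hi hu
      left
      refine ⟨⟨i, by simpa using hi, fun j hj => ?_⟩, ?_⟩
      · have := hu j.succ (by simpa using hj)
        exact Fin.succ_injective _ this
      · by_contra hne
        have := hu 0 (by simpa using hne)
        exact Fin.succ_ne_zero i this.symm
  · rintro (⟨⟨i, hi, hu⟩, h2⟩ | ⟨h1, h2⟩)
    · refine ⟨i.succ, by simpa using hi, fun j => ?_⟩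
      refine Fin.cases ?_ ?_ j
      · intro h
        exact absurd h2 (by simpa using h)
      · intro j hj
        rw [hu j (by simpa using hj)]
    · refine ⟨0, by simpa using h2, fun j => ?_⟩
      refine Fin.cases ?_ ?_ j
      · intro _
        rfl
      · intro j hj
        exact absurd (congrFun h1 j) (by simpa using hj)

theorem prod_iso {V : Type} {b : ℕ} (G : SimpleGraph V) (e : G ≃g cube b) :
    Nonempty (prodG G ≃g cube (b + 1)) := by
  refine ⟨⟨⟨fun p => Fin.cons p.2 (e p.1), fun x => (e.symm (Fin.tail x), x 0), ?_, ?_⟩, ?_⟩⟩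
  · intro p
    simp
  · intro x
    simp
  · intro p q
    have h := cube_succ_adj (e p.1, p.2) (e q.1, q.2)
    refine h.trans ?_
    rw [prodG_adj]
    simp only [e.map_adj_iff]
    constructor
    · rintro (h | ⟨h1, h2⟩)
      · exact Or.inl h
      · exact Or.inr ⟨e.injective h1, h2⟩
    · rintro (h | ⟨h1, h2⟩)
      · exact Or.inl h
      · exact Or.inr ⟨by rw [h1], h2⟩

end Pool.Agent.Lib.MP_84d915_co
end

section

section

/-!
The step from `N` to `N + 1` colours.
-/

namespace Pool.Agent.Lib.MP_84d915_co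

open Relation

variable {V : Type}

/-- old colour of the horizontal bottom edges of new colour `c` -/
def bet (N c : ℕ) : ℕ := if c = N then 0 else c + 1

/-- old colour of the horizontal top edges of new colour `c` -/
def tau (N c : ℕ) : ℕ := if c = N then 1 else if c + 2 = N then 0 else c + 2

/-- the new colouring; `vc v` is the colour of the vertical edge at `v` -/
def nbS (N : ℕ) (nb : ℕ → V → Option V) (vc : V → ℕ) (c : ℕ) (p : V × Bool) : Option (V × Bool) :=
  if c = vc p.1 then some (p.1, !p.2)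
  else if c + 1 = N then none
  else if p.2 then (nb (tau N c) p.1).map (fun w => (w, true))
  else (nb (bet N c) p.1).map (fun w => (w, false))

/-- admissible vertical colours -/
def VcOk (N : ℕ) (nb : ℕ → V → Option V) (vc : V → ℕ) : Prop :=
  ∀ v, vc v + 1 = N ∨ (vc v + 3 ≤ N ∧ nb (vc v + 1) v = none ∧ nb (vc v + 2) v = none)

theorem bet_lt {N c : ℕ} (h : c ≤ N) (h1 : c + 1 ≠ N) (hN : 4 ≤ N) : bet N c < N := by
  unfold bet; split_ifs <;> omega

theorem tau_lt {N c : ℕ} (h : c ≤ N) (h1 : c + 1 ≠ N) (hN : 4 ≤ N) : tau N c < N := by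
  unfold tau; split_ifs <;> omega

theorem bet_succ {N c : ℕ} (h : c ≤ N) (h1 : c + 1 ≠ N) (hN : 4 ≤ N) :
    (bet N c + 1) % N = tau N c := by
  unfold bet tau
  by_cases h2 : c = N
  · rw [if_pos h2, if_pos h2, Nat.mod_eq_of_lt (by omega)]
  · by_cases h3 : c + 2 = N
    · rw [if_neg h2, if_neg h2, if_pos h3]
      have : c + 1 + 1 = N := by omega
      rw [this, Nat.mod_self]
    · rw [if_neg h2, if_neg h2, if_neg h3, Nat.mod_eq_of_lt (by omega)]

theorem bet_inj {N c c' : ℕ} (h : c ≤ N) (h' : c' ≤ N) (h2 : bet N c = bet N c') : c = c' := by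
  unfold bet at h2; split_ifs at h2 <;> omega

theorem tau_inj {N c c' : ℕ} (h : c ≤ N) (h' : c' ≤ N) (h1 : c + 1 ≠ N) (h1' : c' + 1 ≠ N)
    (h2 : tau N c = tau N c') : c = c' := by
  unfold tau at h2; split_ifs at h2 <;> omega

theorem bet_surj {N c : ℕ} (h : c < N) (hN : 4 ≤ N) :
    ∃ c', c' ≤ N ∧ c' + 1 ≠ N ∧ bet N c' = c := by
  by_cases h0 : c = 0
  · exact ⟨N, le_rfl, by omega, by simp [bet, h0]⟩
  · refine ⟨c - 1, by omega, by omega, ?_⟩
    unfold bet
    rw [if_neg (by omega)]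
    omega

theorem tau_surj {N c : ℕ} (h : c < N) (hN : 4 ≤ N) :
    ∃ c', c' ≤ N ∧ c' + 1 ≠ N ∧ tau N c' = c := by
  by_cases h0 : c = 0
  · refine ⟨N - 2, by omega, by omega, ?_⟩
    unfold tau
    rw [if_neg (by omega), if_pos (by omega), h0]
  · by_cases h1 : c = 1
    · exact ⟨N, le_rfl, by omega, by simp [tau, h1]⟩
    · refine ⟨c - 2, by omega, by omega, ?_⟩
      unfold tau
      rw [if_neg (by omega), if_neg (by omega)]
      omega

section step

variable {N : ℕ} {nb : ℕ → V → Option V} {vc : V → ℕ} {G : SimpleGraph V}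

theorem nbS_vert (v : V) (ε : Bool) : nbS N nb vc (vc v) (v, ε) = some (v, !ε) := by
  simp [nbS]

theorem ne_vc_bet (hv : VcOk N nb vc) {c : ℕ} {v : V} (h1 : c + 1 ≠ N)
    (h : nb (bet N c) v ≠ none) : c ≠ vc v := by
  rintro rfl
  rcases hv v with h2 | ⟨h2, h3, h4⟩
  · exact h1 h2
  · apply h
    unfold bet
    rw [if_neg (by omega)]
    exact h3

theorem ne_vc_tau (hv : VcOk N nb vc) {c : ℕ} {v : V} (h1 : c + 1 ≠ N)
    (h : nb (tau N c) v ≠ none) : c ≠ vc v := by
  rintro rfl
  rcases hv v with h2 | ⟨h2, h3, h4⟩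
  · exact h1 h2
  · apply h
    unfold tau
    rw [if_neg (by omega), if_neg (by omega)]
    exact h4

theorem nbS_bot (hv : VcOk N nb vc) {c : ℕ} {v w : V} (h1 : c + 1 ≠ N)
    (h : nb (bet N c) v = some w) : nbS N nb vc c (v, false) = some (w, false) := by
  have h2 := ne_vc_bet hv h1 (by rw [h]; simp)
  simp [nbS, h2, h1, h]

theorem nbS_top (hv : VcOk N nb vc) {c : ℕ} {v w : V} (h1 : c + 1 ≠ N)
    (h : nb (tau N c) v = some w) : nbS N nb vc c (v, true) = some (w, true) := by
  have h2 := ne_vc_tau hv h1 (by rw [h]; simp)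
  simp [nbS, h2, h1, h]

/-- case analysis for an edge of the new colouring -/
theorem nbS_cases {c : ℕ} {v w : V} {ε δ : Bool} (h : nbS N nb vc c (v, ε) = some (w, δ)) :
    (c = vc v ∧ w = v ∧ δ = !ε) ∨
    (c ≠ vc v ∧ c + 1 ≠ N ∧ ε = true ∧ δ = true ∧ nb (tau N c) v = some w) ∨
    (c ≠ vc v ∧ c + 1 ≠ N ∧ ε = false ∧ δ = false ∧ nb (bet N c) v = some w) := by
  unfold nbS at h
  simp only at h
  split_ifs at h with h1 h2 h3
  · left
    simp only [Option.some.injEq, Prod.mk.injEq] at h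
    exact ⟨h1, h.1.symm, h.2.symm⟩
  · right; left
    simp only [Option.map_eq_some_iff, Prod.mk.injEq] at h
    obtain ⟨a, ha, rfl, rfl⟩ := h
    exact ⟨h1, h2, h3, rfl, ha⟩
  · right; right
    simp only [Option.map_eq_some_iff, Prod.mk.injEq] at h
    obtain ⟨a, ha, rfl, rfl⟩ := h
    exact ⟨h1, h2, by simpa using h3, rfl, ha⟩

theorem nbS_symm (hN : 4 ≤ N) (hc : IsCol G N nb) (hv : VcOk N nb vc) {c : ℕ} (hcN : c ≤ N)
    {p q : V × Bool} (h : nbS N nb vc c p = some q) : nbS N nb vc c q = some p := by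
  obtain ⟨v, ε⟩ := p
  obtain ⟨w, δ⟩ := q
  rcases nbS_cases h with ⟨h1, rfl, rfl⟩ | ⟨h1, h2, rfl, rfl, h3⟩ | ⟨h1, h2, rfl, rfl, h3⟩
  · subst h1
    rw [nbS_vert]
    simp
  · exact nbS_top hv h2 (hc.symm _ (tau_lt hcN h2 hN) _ _ h3)
  · exact nbS_bot hv h2 (hc.symm _ (bet_lt hcN h2 hN) _ _ h3)

theorem nbS_none_false (c : ℕ) (v : V) : nbS N nb vc c (v, false) = none ↔
    (c ≠ vc v ∧ (c + 1 = N ∨ nb (bet N c) v = none)) := by
  by_cases h1 : c = vc v
  · simp [nbS, h1]
  · by_cases h2 : c + 1 = N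
    · simp [nbS, h1, h2]
    · simp [nbS, h1, h2]

theorem nbS_none_true (c : ℕ) (v : V) : nbS N nb vc c (v, true) = none ↔
    (c ≠ vc v ∧ (c + 1 = N ∨ nb (tau N c) v = none)) := by
  by_cases h1 : c = vc v
  · simp [nbS, h1]
  · by_cases h2 : c + 1 = N
    · simp [nbS, h1, h2]
    · simp [nbS, h1, h2]

theorem isCol_step (hN : 4 ≤ N) (hc : IsCol G N nb) (hv : VcOk N nb vc) :
    IsCol (prodG G) (N + 1) (nbS N nb vc) := by
  refine ⟨fun c hcN p q h => nbS_symm hN hc hv (by omega) h, ?_, ?_, ?_⟩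
  · rintro ⟨v, ε⟩ ⟨w, δ⟩
    constructor
    · rintro (⟨h1, h2⟩ | ⟨h1, h2⟩)
      · simp only at h1 h2
        subst h2
        obtain ⟨c, hc1, hc2⟩ := (hc.adj v w).1 h1
        cases ε
        · obtain ⟨c', h3, h4, h5⟩ := bet_surj hc1 hN
          exact ⟨c', by omega, nbS_bot hv h4 (by rw [h5]; exact hc2)⟩
        · obtain ⟨c', h3, h4, h5⟩ := tau_surj hc1 hN
          exact ⟨c', by omega, nbS_top hv h4 (by rw [h5]; exact hc2)⟩
      · simp only at h1 h2
        subst h1
        refine ⟨vc v, ?_, ?_⟩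
        · rcases hv v with h | ⟨h, _, _⟩ <;> omega
        · rw [nbS_vert]
          cases ε <;> cases δ <;> simp at h2 ⊢
    · rintro ⟨c, hcN, h⟩
      rcases nbS_cases h with ⟨h1, rfl, rfl⟩ | ⟨h1, h2, rfl, rfl, h3⟩ | ⟨h1, h2, rfl, rfl, h3⟩
      · right
        cases ε <;> simp
      · left
        exact ⟨(hc.adj v w).2 ⟨_, tau_lt (by omega) h2 hN, h3⟩, rfl⟩
      · left
        exact ⟨(hc.adj v w).2 ⟨_, bet_lt (by omega) h2 hN, h3⟩, rfl⟩
  · rintro c c' hcN hcN' ⟨v, ε⟩ ⟨w, δ⟩ h h'
    rcases nbS_cases h with ⟨h1, h2, h3⟩ | ⟨h1, h2, h3, h4, h5⟩ | ⟨h1, h2, h3, h4, h5⟩ <;>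
    rcases nbS_cases h' with ⟨h1', h2', h3'⟩ | ⟨h1', h2', h3', h4', h5'⟩ |
      ⟨h1', h2', h3', h4', h5'⟩
    · rw [h1, h1']
    · exfalso; subst h3' h4'; simp at h3
    · exfalso; subst h3' h4'; simp at h3
    · exfalso; subst h3 h4; simp at h3'
    · exact tau_inj (by omega) (by omega) h2 h2'
        (hc.uniq _ _ (tau_lt (by omega) h2 hN) (tau_lt (by omega) h2' hN) _ _ h5 h5')
    · exfalso; subst h3; simp at h3'
    · exfalso; subst h3 h4; simp at h3'
    · exfalso; subst h3; simp at h3'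
    · exact bet_inj (by omega) (by omega)
        (hc.uniq _ _ (bet_lt (by omega) h2 hN) (bet_lt (by omega) h2' hN) _ _ h5 h5')
  · rintro ⟨v, ε⟩
    obtain ⟨a, b, hab, hbN, hmis⟩ := hc.mis v
    suffices h : ∃ a' b', a' ≠ b' ∧ a' ≤ N ∧ b' ≤ N ∧
        ∀ c, c < N + 1 → (nbS N nb vc c (v, ε) = none ↔ c = a' ∨ c = b') by
      obtain ⟨a', b', h1, h2, h3, h4⟩ := h
      rcases lt_or_gt_of_ne h1 with h5 | h5
      · exact ⟨a', b', h5, by omega, h4⟩
      · refine ⟨b', a', h5, by omega, fun c hc' => ?_⟩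
        rw [h4 c hc']
        exact or_comm
    -- the two maps
    have key : ∀ (f : ℕ → ℕ), (∀ c, c ≤ N → c + 1 ≠ N → f c < N) →
        (∀ c, c < N → ∃ c', c' ≤ N ∧ c' + 1 ≠ N ∧ f c' = c) →
        (∀ c c', c ≤ N → c' ≤ N → c + 1 ≠ N → c' + 1 ≠ N → f c = f c' → c = c') →
        (∀ c, nbS N nb vc c (v, ε) = none ↔ (c ≠ vc v ∧ (c + 1 = N ∨ nb (f c) v = none))) →
        (vc v + 1 = N ∨ (vc v + 3 ≤ N ∧ nb (f (vc v)) v = none)) →
        ∃ a' b', a' ≠ b' ∧ a' ≤ N ∧ b' ≤ N ∧
          ∀ c, c < N + 1 → (nbS N nb vc c (v, ε) = none ↔ c = a' ∨ c = b') := by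
      intro f hf hs hi hn hvc
      obtain ⟨a', ha1, ha2, ha3⟩ := hs a (by omega)
      obtain ⟨b', hb1, hb2, hb3⟩ := hs b (by omega)
      have hab' : a' ≠ b' := by rintro rfl; omega
      rcases hvc with hvc | ⟨hvc, hvc2⟩
      · refine ⟨a', b', hab', ha1, hb1, fun c hcN => ?_⟩
        rw [hn c]
        constructor
        · rintro ⟨h1, h2⟩
          rcases h2 with h2 | h2
          · omega
          · by_cases h3 : c + 1 = N
            · omega
            · rcases (hmis _ (hf c (by omega) h3)).1 h2 with h4 | h4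
              · left; exact hi _ _ (by omega) ha1 h3 ha2 (by rw [h4, ha3])
              · right; exact hi _ _ (by omega) hb1 h3 hb2 (by rw [h4, hb3])
        · rintro (rfl | rfl)
          · exact ⟨by omega, Or.inr ((hmis _ (hf _ ha1 ha2)).2 (Or.inl ha3))⟩
          · exact ⟨by omega, Or.inr ((hmis _ (hf _ hb1 hb2)).2 (Or.inr hb3))⟩
      · rcases (hmis _ (hf _ (by omega) (by omega))).1 hvc2 with h4 | h4
        · -- `a' = vc v`
          have h5 : a' = vc v := hi _ _ ha1 (by omega) ha2 (by omega) (by rw [h4, ha3])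
          refine ⟨b', N - 1, by omega, hb1, by omega, fun c hcN => ?_⟩
          rw [hn c]
          constructor
          · rintro ⟨h1, h2⟩
            by_cases h3 : c + 1 = N
            · omega
            · rcases h2 with h2 | h2
              · omega
              · rcases (hmis _ (hf c (by omega) h3)).1 h2 with h6 | h6
                · exfalso
                  apply h1
                  rw [← h5]
                  exact hi _ _ (by omega) ha1 h3 ha2 (by rw [h6, ha3])
                · left; exact hi _ _ (by omega) hb1 h3 hb2 (by rw [h6, hb3])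
          · rintro (rfl | rfl)
            · exact ⟨by rw [← h5]; exact fun h => hab' h.symm,
                Or.inr ((hmis _ (hf _ hb1 hb2)).2 (Or.inr hb3))⟩
            · exact ⟨by omega, Or.inl (by omega)⟩
        · have h5 : b' = vc v := hi _ _ hb1 (by omega) hb2 (by omega) (by rw [h4, hb3])
          refine ⟨a', N - 1, by omega, ha1, by omega, fun c hcN => ?_⟩
          rw [hn c]
          constructor
          · rintro ⟨h1, h2⟩
            by_cases h3 : c + 1 = N
            · omega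
            · rcases h2 with h2 | h2
              · omega
              · rcases (hmis _ (hf c (by omega) h3)).1 h2 with h6 | h6
                · left; exact hi _ _ (by omega) ha1 h3 ha2 (by rw [h6, ha3])
                · exfalso
                  apply h1
                  rw [← h5]
                  exact hi _ _ (by omega) hb1 h3 hb2 (by rw [h6, hb3])
          · rintro (rfl | rfl)
            · exact ⟨by rw [← h5]; exact hab',
                Or.inr ((hmis _ (hf _ ha1 ha2)).2 (Or.inl ha3))⟩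
            · exact ⟨by omega, Or.inl (by omega)⟩
    cases ε
    · refine key (bet N) (fun c h1 h2 => bet_lt h1 h2 hN) (fun c h => bet_surj h hN)
        (fun c c' h1 h2 _ _ h3 => bet_inj h1 h2 h3)
        (fun c => nbS_none_false c v) ?_
      · rcases hv v with h | ⟨h, h1, h2⟩
        · exact Or.inl h
        · right
          refine ⟨h, ?_⟩
          unfold bet
          rw [if_neg (by omega)]
          exact h1
    · refine key (tau N) (fun c h1 h2 => tau_lt h1 h2 hN) (fun c h => tau_surj h hN)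
        (fun c c' h1 h2 h4 h5 h3 => tau_inj h1 h2 h4 h5 h3)
        (fun c => nbS_none_true c v) ?_
      · rcases hv v with h | ⟨h, h1, h2⟩
        · exact Or.inl h
        · right
          refine ⟨h, ?_⟩
          unfold tau
          rw [if_neg (by omega), if_neg (by omega)]
          exact h2

end step

end Pool.Agent.Lib.MP_84d915_co
end

section

/-!
Connectivity in the new colouring.
-/

namespace Pool.Agent.Lib.MP_84d915_co

open Relation

variable {V : Type}

/-- reachability along edges with colours in `T` outside `S` -/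
abbrev Reach (nb : ℕ → V → Option V) (T : ℕ → Prop) (S : V → Prop) : V → V → Prop :=
  ReflTransGen (Step nb T S)

/-- cyclic successor -/
def sc (M i : ℕ) : ℕ := if i + 1 = M then 0 else i + 1

theorem mod_sc {M i : ℕ} (h : i < M) : (i + 1) % M = sc M i := by
  unfold sc
  split_ifs with h1
  · rw [h1, Nat.mod_self]
  · exact Nat.mod_eq_of_lt (by omega)

/-- `T` is a set of colours containing two different cyclically consecutive pairs. -/
def WF (M : ℕ) (T : ℕ → Prop) : Prop :=
  (∀ c, T c → c < M) ∧ ∃ i j, i < M ∧ j < M ∧ i ≠ j ∧ T i ∧ T (sc M i) ∧ T j ∧ T (sc M j)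

theorem reach_symm {nb : ℕ → V → Option V} {T : ℕ → Prop} {S : V → Prop}
    (h : ∀ c, T c → ∀ v w, nb c v = some w → nb c w = some v) {u v : V}
    (huv : Reach nb T S u v) : Reach nb T S v u := by
  induction huv with
  | refl => exact ReflTransGen.refl
  | tail _ hbc ih =>
    obtain ⟨⟨c, hc, hc2⟩, h1, h2⟩ := hbc
    exact ReflTransGen.head ⟨⟨c, hc, h c hc _ _ hc2⟩, h2, h1⟩ ih

theorem reach_mono {nb : ℕ → V → Option V} {T T' : ℕ → Prop} {S : V → Prop}
    (h : ∀ c, T c → T' c) {u v : V} (huv : Reach nb T S u v) : Reach nb T' S u v := by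
  induction huv with
  | refl => exact ReflTransGen.refl
  | tail _ hbc ih =>
    obtain ⟨⟨c, hc, hc2⟩, h1, h2⟩ := hbc
    exact ih.tail ⟨⟨c, h c hc, hc2⟩, h1, h2⟩

section lift

variable {N : ℕ} {nb : ℕ → V → Option V} {vc : V → ℕ} {G : SimpleGraph V}
  {S : V → Prop} {S' : V × Bool → Prop} {T : ℕ → Prop}

theorem vert_step {v : V} {ε : Bool} (h : T (vc v)) (h1 : ¬ S' (v, ε)) (h2 : ¬ S' (v, !ε)) :
    Step (nbS N nb vc) T S' (v, ε) (v, !ε) :=
  ⟨⟨vc v, h, nbS_vert v ε⟩, h1, h2⟩

theorem bot_step (hv : VcOk N nb vc) {v w : V} {c : ℕ} (h : T c) (h1 : c + 1 ≠ N)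
    (h2 : nb (bet N c) v = some w) (h3 : ¬ S' (v, false)) (h4 : ¬ S' (w, false)) :
    Step (nbS N nb vc) T S' (v, false) (w, false) :=
  ⟨⟨c, h, nbS_bot hv h1 h2⟩, h3, h4⟩

theorem top_step (hv : VcOk N nb vc) {v w : V} {c : ℕ} (h : T c) (h1 : c + 1 ≠ N)
    (h2 : nb (tau N c) v = some w) (h3 : ¬ S' (v, true)) (h4 : ¬ S' (w, true)) :
    Step (nbS N nb vc) T S' (v, true) (w, true) :=
  ⟨⟨c, h, nbS_top hv h1 h2⟩, h3, h4⟩

theorem reachS_symm (hN : 4 ≤ N) (hc : IsCol G N nb) (hv : VcOk N nb vc)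
    (hT : ∀ c, T c → c ≤ N) {p q : V × Bool} (h : Reach (nbS N nb vc) T S' p q) :
    Reach (nbS N nb vc) T S' q p :=
  reach_symm (fun c hc' _ _ h => nbS_symm hN hc hv (hT c hc') h) h

theorem lift_bot (hv : VcOk N nb vc) (hS' : ∀ v, ¬ S v → ¬ S' (v, false)) {T0 : ℕ → Prop}
    (hT : ∀ c, T0 c → ∃ c', T c' ∧ c' + 1 ≠ N ∧ bet N c' = c) {u v : V}
    (h : Reach nb T0 S u v) : Reach (nbS N nb vc) T S' (u, false) (v, false) := by
  induction h with
  | refl => exact ReflTransGen.refl
  | tail _ hbc ih =>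
    obtain ⟨⟨c, hc, hc2⟩, h1, h2⟩ := hbc
    obtain ⟨c', h3, h4, h5⟩ := hT c hc
    exact ih.tail (bot_step hv h3 h4 (by rw [h5]; exact hc2) (hS' _ h1) (hS' _ h2))

theorem lift_top (hv : VcOk N nb vc) (hS' : ∀ v, ¬ S v → ¬ S' (v, true)) {T0 : ℕ → Prop}
    (hT : ∀ c, T0 c → ∃ c', T c' ∧ c' + 1 ≠ N ∧ tau N c' = c) {u v : V}
    (h : Reach nb T0 S u v) : Reach (nbS N nb vc) T S' (u, true) (v, true) := by
  induction h with
  | refl => exact ReflTransGen.refl
  | tail _ hbc ih =>
    obtain ⟨⟨c, hc, hc2⟩, h1, h2⟩ := hbc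
    obtain ⟨c', h3, h4, h5⟩ := hT c hc
    exact ih.tail (top_step hv h3 h4 (by rw [h5]; exact hc2) (hS' _ h1) (hS' _ h2))

/-- If `T` contains the new colour and two more colours then the core is connected. -/
theorem lift_main (hN : 4 ≤ N) (hv : VcOk N nb vc) (hp2 : P2 N nb S)
    (hvS : ∀ v, ¬ S v → vc v + 1 = N) (hS' : ∀ v ε, ¬ S v → ¬ S' (v, ε))
    (hT : T (N - 1)) {c₁ c₂ : ℕ} (h1 : T c₁) (h2 : T c₂) (h12 : c₁ ≠ c₂) (hc1 : c₁ ≤ N)
    (hc2 : c₂ ≤ N) (hc1' : c₁ + 1 ≠ N) (hc2' : c₂ + 1 ≠ N) {u v : V} (hu : ¬ S u) (hw : ¬ S v)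
    (ε δ : Bool) : Reach (nbS N nb vc) T S' (u, ε) (v, δ) := by
  have hvert : ∀ v, ¬ S v → ∀ ε δ : Bool, Reach (nbS N nb vc) T S' (v, ε) (v, δ) := by
    intro v hv' ε δ
    by_cases h : ε = δ
    · subst h; exact ReflTransGen.refl
    · have h3 : δ = !ε := by cases ε <;> cases δ <;> simp at h ⊢
      subst h3
      refine ReflTransGen.single (vert_step ?_ (hS' _ _ hv') (hS' _ _ hv'))
      have := hvS v hv'
      have h4 : vc v = N - 1 := by omega
      rw [h4]; exact hT
  have hb1 := bet_lt hc1 hc1' hN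
  have hb2 := bet_lt hc2 hc2' hN
  have hne : bet N c₁ ≠ bet N c₂ := fun h => h12 (bet_inj hc1 hc2 h)
  have h3 := hp2 _ _ hb1 hb2 hne u v hu hw
  rw [bet_succ hc1 hc1' hN, bet_succ hc2 hc2' hN] at h3
  clear hw
  induction h3 generalizing δ with
  | refl => exact hvert u hu ε δ
  | @tail b c _ hbc ih =>
    obtain ⟨⟨k, hk, hk2⟩, hb, hc⟩ := hbc
    rcases hk with rfl | rfl | rfl | rfl
    · exact ((ih false).tail (bot_step hv h1 hc1' hk2 (hS' _ _ hb) (hS' _ _ hc))).trans
        (hvert c hc _ _)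
    · exact ((ih true).tail (top_step hv h1 hc1' hk2 (hS' _ _ hb) (hS' _ _ hc))).trans
        (hvert c hc _ _)
    · exact ((ih false).tail (bot_step hv h2 hc2' hk2 (hS' _ _ hb) (hS' _ _ hc))).trans
        (hvert c hc _ _)
    · exact ((ih true).tail (top_step hv h2 hc2' hk2 (hS' _ _ hb) (hS' _ _ hc))).trans
        (hvert c hc _ _)

theorem bet_sc {i : ℕ} (hN : 4 ≤ N) (hi : i < N + 1) (h1 : i + 1 ≠ N)
    (h2 : sc (N + 1) i + 1 ≠ N) : (bet N i + 1) % N = bet N (sc (N + 1) i) := by
  unfold sc at *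
  by_cases h3 : i = N
  · subst h3
    simp only [if_true] at *
    unfold bet
    rw [if_pos rfl, if_neg (by omega), Nat.mod_eq_of_lt (by omega)]
  · rw [if_neg (by omega)] at *
    unfold bet
    rw [if_neg h3, if_neg (by omega), Nat.mod_eq_of_lt (by omega)]

theorem tau_sc {i : ℕ} (hN : 4 ≤ N) (hi : i < N + 1) (h1 : i + 1 ≠ N)
    (h2 : sc (N + 1) i + 1 ≠ N) : (tau N i + 1) % N = tau N (sc (N + 1) i) := by
  unfold sc at *
  by_cases h3 : i = N
  · subst h3
    simp only [if_true] at *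
    unfold tau
    rw [if_pos rfl, if_neg (by omega), if_neg (by omega), Nat.mod_eq_of_lt (by omega)]
  · rw [if_neg (by omega)] at *
    by_cases h4 : i + 3 = N
    · unfold tau
      rw [if_neg h3, if_neg (by omega), if_neg (by omega), if_pos (by omega)]
      have : i + 2 + 1 = N := by omega
      rw [this, Nat.mod_self]
    · unfold tau
      rw [if_neg h3, if_neg (by omega), if_neg (by omega), if_neg (by omega),
        Nat.mod_eq_of_lt (by omega)]

theorem p2_step (hN : 4 ≤ N) (hc : IsCol G N nb) (hv : VcOk N nb vc) (hp2 : P2 N nb S)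
    (hvS : ∀ v, ¬ S v → vc v + 1 = N) (hS' : ∀ v ε, ¬ S v → ¬ S' (v, ε))
    (hlink : ∀ T, WF (N + 1) T → ¬ T (N - 1) →
      ∃ u v, ¬ S u ∧ ¬ S v ∧ Reach (nbS N nb vc) T S' (u, false) (v, true))
    (hatt : ∀ T, WF (N + 1) T → ∀ v ε, S v → ¬ S' (v, ε) →
      ∃ u δ, ¬ S u ∧ Reach (nbS N nb vc) T S' (v, ε) (u, δ)) :
    P2 (N + 1) (nbS N nb vc) S' := by
  intro i j hi hj hij
  rw [mod_sc hi, mod_sc hj]
  set T : ℕ → Prop := fun c => c = i ∨ c = sc (N + 1) i ∨ c = j ∨ c = sc (N + 1) j with hTdef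
  have hTle : ∀ c, T c → c < N + 1 := by
    intro c hc'
    simp only [hTdef, sc] at hc'
    split_ifs at hc' <;> omega
  have hWF : WF (N + 1) T :=
    ⟨hTle, i, j, hi, hj, hij, Or.inl rfl, Or.inr (Or.inl rfl), Or.inr (Or.inr (Or.inl rfl)),
      Or.inr (Or.inr (Or.inr rfl))⟩
  -- the core is connected
  have core : ∀ u v, ¬ S u → ¬ S v → ∀ ε δ, Reach (nbS N nb vc) T S' (u, ε) (v, δ) := by
    by_cases hTN : T (N - 1)
    · obtain ⟨c₁, c₂, h1, h2, h12, h3, h4⟩ : ∃ c₁ c₂, T c₁ ∧ T c₂ ∧ c₁ ≠ c₂ ∧ c₁ + 1 ≠ N ∧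
          c₂ + 1 ≠ N := by
        by_cases hi1 : i + 1 = N
        · by_cases hj1 : j = N
          · refine ⟨N, 0, ?_, ?_, by omega, by omega, by omega⟩
            · simp [hTdef, hj1]
            · simp [hTdef, hj1, sc]
          · refine ⟨j, N, ?_, ?_, hj1, by omega, by omega⟩
            · simp [hTdef]
            · right; left
              unfold sc
              rw [if_neg (by omega)]
              omega
        · by_cases hj1 : j + 1 = N
          · by_cases hi2 : i = N
            · refine ⟨N, 0, ?_, ?_, by omega, by omega, by omega⟩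
              · simp [hTdef, hi2]
              · simp [hTdef, hi2, sc]
            · refine ⟨i, N, ?_, ?_, hi2, by omega, by omega⟩
              · simp [hTdef]
              · right; right; right
                unfold sc
                rw [if_neg (by omega)]
                omega
          · exact ⟨i, j, Or.inl rfl, Or.inr (Or.inr (Or.inl rfl)), hij, hi1, hj1⟩
      have h5 := hTle _ h1
      have h6 := hTle _ h2
      intro u v hu hw ε δ
      exact lift_main hN hv hp2 hvS hS' hTN h1 h2 h12 (by omega) (by omega) h3 h4 hu hw ε δ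
    · have hne : ∀ c, T c → c + 1 ≠ N := by
        intro c hc' h
        apply hTN
        have : N - 1 = c := by omega
        rw [this]; exact hc'
      have hi1 := hne i (Or.inl rfl)
      have hi2 := hne (sc (N + 1) i) (Or.inr (Or.inl rfl))
      have hj1 := hne j (Or.inr (Or.inr (Or.inl rfl)))
      have hj2 := hne (sc (N + 1) j) (Or.inr (Or.inr (Or.inr rfl)))
      have hbot : ∀ u v, ¬ S u → ¬ S v →
          Reach (nbS N nb vc) T S' (u, false) (v, false) := by
        intro u v hu hw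
        have h3 := hp2 _ _ (bet_lt (by omega) hi1 hN) (bet_lt (by omega) hj1 hN)
          (fun h => hij (bet_inj (by omega) (by omega) h)) u v hu hw
        rw [bet_sc hN hi hi1 hi2, bet_sc hN hj hj1 hj2] at h3
        refine lift_bot hv (fun v => hS' v false) ?_ h3
        rintro c (rfl | rfl | rfl | rfl)
        · exact ⟨i, Or.inl rfl, hi1, rfl⟩
        · exact ⟨_, Or.inr (Or.inl rfl), hi2, rfl⟩
        · exact ⟨j, Or.inr (Or.inr (Or.inl rfl)), hj1, rfl⟩
        · exact ⟨_, Or.inr (Or.inr (Or.inr rfl)), hj2, rfl⟩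
      have htop : ∀ u v, ¬ S u → ¬ S v →
          Reach (nbS N nb vc) T S' (u, true) (v, true) := by
        intro u v hu hw
        have h3 := hp2 _ _ (tau_lt (by omega) hi1 hN) (tau_lt (by omega) hj1 hN)
          (fun h => hij (tau_inj (by omega) (by omega) hi1 hj1 h)) u v hu hw
        rw [tau_sc hN hi hi1 hi2, tau_sc hN hj hj1 hj2] at h3
        refine lift_top hv (fun v => hS' v true) ?_ h3
        rintro c (rfl | rfl | rfl | rfl)
        · exact ⟨i, Or.inl rfl, hi1, rfl⟩
        · exact ⟨_, Or.inr (Or.inl rfl), hi2, rfl⟩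
        · exact ⟨j, Or.inr (Or.inr (Or.inl rfl)), hj1, rfl⟩
        · exact ⟨_, Or.inr (Or.inr (Or.inr rfl)), hj2, rfl⟩
      obtain ⟨a, b, ha, hb, hab⟩ := hlink T hWF hTN
      have hab' := reachS_symm hN hc hv (fun c hc' => Nat.lt_succ_iff.1 (hTle c hc')) hab
      intro u v hu hw ε δ
      cases ε <;> cases δ
      · exact hbot u v hu hw
      · exact ((hbot u a hu ha).trans hab).trans (htop b v hb hw)
      · exact ((htop u b hu hb).trans hab').trans (hbot a v ha hw)
      · exact htop u v hu hw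
  rintro ⟨u, ε⟩ ⟨v, δ⟩ hu hw
  have att : ∀ v ε, ¬ S' (v, ε) → ∃ u δ, ¬ S u ∧ Reach (nbS N nb vc) T S' (v, ε) (u, δ) := by
    intro v ε h
    by_cases h1 : S v
    · exact hatt T hWF v ε h1 h
    · exact ⟨v, ε, h1, ReflTransGen.refl⟩
  obtain ⟨a, ε', ha, ha'⟩ := att u ε hu
  obtain ⟨b, δ', hb, hb'⟩ := att v δ hw
  exact (ha'.trans (core a b ha hb ε' δ')).trans
    (reachS_symm hN hc hv (fun c hc' => Nat.lt_succ_iff.1 (hTle c hc')) hb')

theorem p1_step (hN : 4 ≤ N) (hc : IsCol G N nb) (hv : VcOk N nb vc) (hp2 : P2 N nb S)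
    (hp1 : P1 N nb) (hvS : ∀ v, ¬ S v → vc v + 1 = N)
    (hlink : ∀ c, c + 3 ≤ N → ∃ v, vc v = c)
    (hatt : ∀ c₁ c₂, c₁ ≤ N → c₂ ≤ N → c₁ + 1 ≠ N → c₂ + 1 ≠ N → c₁ ≠ c₂ → ∀ v ε, S v →
      ∃ u δ, ¬ S u ∧ Reach (nbS N nb vc) (fun c => c = c₁ ∨ c = c₂ ∨ c + 1 = N)
        (fun _ => False) (v, ε) (u, δ)) :
    P1 (N + 1) (nbS N nb vc) := by
  -- the case with the new colour
  have hnew : ∀ c₁ c₂, c₁ ≤ N → c₂ ≤ N → c₁ + 1 ≠ N → c₂ + 1 ≠ N → c₁ ≠ c₂ →
      Conn (nbS N nb vc) (fun c => c = c₁ ∨ c = c₂ ∨ c + 1 = N) (fun _ => False) := by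
    rintro c₁ c₂ h1 h2 h3 h4 h5 ⟨u, ε⟩ ⟨v, δ⟩ _ _
    have att : ∀ v ε, ∃ u δ, ¬ S u ∧ Reach (nbS N nb vc) (fun c => c = c₁ ∨ c = c₂ ∨ c + 1 = N)
        (fun _ => False) (v, ε) (u, δ) := by
      intro v ε
      by_cases h6 : S v
      · exact hatt c₁ c₂ h1 h2 h3 h4 h5 v ε h6
      · exact ⟨v, ε, h6, ReflTransGen.refl⟩
    obtain ⟨a, ε', ha, ha'⟩ := att u ε
    obtain ⟨b, δ', hb, hb'⟩ := att v δ
    refine (ha'.trans ?_).trans (reachS_symm hN hc hv ?_ hb')
    · exact lift_main hN hv hp2 hvS (fun _ _ _ h => h) (Or.inr (Or.inr (by omega)))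
        (Or.inl rfl) (Or.inr (Or.inl rfl)) h5 h1 h2 h3 h4 ha hb ε' δ'
    · rintro c (rfl | rfl | h) <;> omega
  intro c₁ c₂ c₃ h1 h2 h3 h12 h13 h23
  by_cases e1 : c₁ + 1 = N
  · rintro u v hu hw
    refine reach_mono ?_ (hnew c₂ c₃ (by omega) (by omega) (by omega) (by omega) h23 u v hu hw)
    rintro c (rfl | rfl | h)
    · exact Or.inr (Or.inl rfl)
    · exact Or.inr (Or.inr rfl)
    · left; omega
  by_cases e2 : c₂ + 1 = N
  · rintro u v hu hw
    refine reach_mono ?_ (hnew c₁ c₃ (by omega) (by omega) (by omega) (by omega) h13 u v hu hw)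
    rintro c (rfl | rfl | h)
    · exact Or.inl rfl
    · exact Or.inr (Or.inr rfl)
    · right; left; omega
  by_cases e3 : c₃ + 1 = N
  · rintro u v hu hw
    refine reach_mono ?_ (hnew c₁ c₂ (by omega) (by omega) (by omega) (by omega) h12 u v hu hw)
    rintro c (rfl | rfl | h)
    · exact Or.inl rfl
    · exact Or.inr (Or.inl rfl)
    · right; right; omega
  -- the case without the new colour
  set T : ℕ → Prop := fun c => c = c₁ ∨ c = c₂ ∨ c = c₃ with hTdef
  have hbot : ∀ u v, Reach (nbS N nb vc) T (fun _ => False) (u, false) (v, false) := by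
    intro u v
    have h4 := hp1 _ _ _ (bet_lt (by omega) e1 hN) (bet_lt (by omega) e2 hN)
      (bet_lt (by omega) e3 hN) (fun h => h12 (bet_inj (by omega) (by omega) h))
      (fun h => h13 (bet_inj (by omega) (by omega) h))
      (fun h => h23 (bet_inj (by omega) (by omega) h)) u v (fun h => h) (fun h => h)
    refine lift_bot hv (fun _ _ h => h) ?_ h4
    rintro c (rfl | rfl | rfl)
    · exact ⟨c₁, Or.inl rfl, e1, rfl⟩
    · exact ⟨c₂, Or.inr (Or.inl rfl), e2, rfl⟩
    · exact ⟨c₃, Or.inr (Or.inr rfl), e3, rfl⟩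
  have htop : ∀ u v, Reach (nbS N nb vc) T (fun _ => False) (u, true) (v, true) := by
    intro u v
    have h4 := hp1 _ _ _ (tau_lt (by omega) e1 hN) (tau_lt (by omega) e2 hN)
      (tau_lt (by omega) e3 hN) (fun h => h12 (tau_inj (by omega) (by omega) e1 e2 h))
      (fun h => h13 (tau_inj (by omega) (by omega) e1 e3 h))
      (fun h => h23 (tau_inj (by omega) (by omega) e2 e3 h)) u v (fun h => h) (fun h => h)
    refine lift_top hv (fun _ _ h => h) ?_ h4
    rintro c (rfl | rfl | rfl)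
    · exact ⟨c₁, Or.inl rfl, e1, rfl⟩
    · exact ⟨c₂, Or.inr (Or.inl rfl), e2, rfl⟩
    · exact ⟨c₃, Or.inr (Or.inr rfl), e3, rfl⟩
  obtain ⟨x, hx⟩ : ∃ x, T (vc x) := by
    have h5 : ∃ c, T c ∧ c + 3 ≤ N := by
      by_cases g1 : c₁ + 3 ≤ N
      · exact ⟨c₁, Or.inl rfl, g1⟩
      by_cases g2 : c₂ + 3 ≤ N
      · exact ⟨c₂, Or.inr (Or.inl rfl), g2⟩
      by_cases g3 : c₃ + 3 ≤ N
      · exact ⟨c₃, Or.inr (Or.inr rfl), g3⟩
      exfalso
      omega
    obtain ⟨c, hc1, hc2⟩ := h5
    obtain ⟨x, hx⟩ := hlink c hc2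
    exact ⟨x, by rw [hx]; exact hc1⟩
  have hx1 : Reach (nbS N nb vc) T (fun _ => False) (x, false) (x, true) :=
    ReflTransGen.single (vert_step hx (fun h => h) (fun h => h))
  have hx2 : Reach (nbS N nb vc) T (fun _ => False) (x, true) (x, false) :=
    ReflTransGen.single (vert_step hx (fun h => h) (fun h => h))
  rintro ⟨u, ε⟩ ⟨v, δ⟩ _ _
  cases ε <;> cases δ
  · exact hbot u v
  · exact ((hbot u x).trans hx1).trans (htop x v)
  · exact ((htop u x).trans hx2).trans (hbot x v)
  · exact htop u v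

end lift

end Pool.Agent.Lib.MP_84d915_co
end

section

/-!
Labels of reserved vertices and their development in one step.
-/

namespace Pool.Agent.Lib.MP_84d915_co

open Relation

variable {V : Type}

/-- admissible labels of single vertices -/
def vA (N r j : ℕ) : Prop :=
  (1 ≤ r ∧ r ≤ 6 ∧ 2 ≤ j ∧ j + 1 ≤ N) ∨ (r = 7 ∧ 2 ≤ j ∧ j + 2 ≤ N) ∨
  (r = 8 ∧ 4 ≤ j ∧ j + 2 ≤ N) ∨ (r = 9 ∧ 10 ≤ j ∧ j + 2 ≤ N) ∨ (r = 10 ∧ 8 ≤ j ∧ j + 2 ≤ N) ∨
  (r = 11 ∧ 6 ≤ j ∧ j + 2 ≤ N) ∨ (r = 12 ∧ 6 ≤ j ∧ j + 2 ≤ N)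

/-- admissible labels of pairs -/
def vB (N r j : ℕ) : Prop :=
  (r = 13 ∧ 3 ≤ j ∧ j + 3 ≤ N) ∨ (r = 9 ∧ j = 9 ∧ 13 ≤ N) ∨ (r = 10 ∧ j = 7) ∨
  (r = 11 ∧ j = 5) ∨ (r = 12 ∧ j = 5)

/-- The invariant of the induction. -/
structure State (G : SimpleGraph V) (N : ℕ) (nb : ℕ → V → Option V) (lab : V → Lab) : Prop where
  hN : 12 ≤ N
  col : IsCol G N nb
  p1 : P1 N nb
  p2 : P2 N nb (fun v => lab v ≠ Lab.none)
  lA : ∀ v r j, lab v = Lab.A r j → vA N r j ∧ nb (j - 1) v = none ∧ nb j v = none ∧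
    ∀ c, c < N → ∀ w, nb c v = some w → lab w = Lab.none
  lZ : ∀ v r j, lab v = Lab.Bz r j → vB N r j ∧ nb (j - 1) v = none ∧ nb j v = none ∧
    (∃ w, nb (N - 2) v = some w ∧ lab w = Lab.Bw r j) ∧
    ∀ c, c < N → c + 2 ≠ N → ∀ w, nb c v = some w → lab w = Lab.none
  lW : ∀ v r j, lab v = Lab.Bw r j → vB N r j ∧ nb (j - 2) v = none ∧ nb (j - 1) v = none ∧
    (∃ w, nb (N - 2) v = some w ∧ lab w = Lab.Bz r j) ∧
    ∀ c, c < N → c + 2 ≠ N → ∀ w, nb c v = some w → lab w = Lab.none

/-- what happens with a single reserved vertex -/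
inductive Act : Type
  | keep (r : ℕ) : Act
  | spKeep (r : ℕ) : Act
  | spShift (r : ℕ) : Act
  | both (r : ℕ) : Act
  | link : Act

/-- the action for the label `A r j` -/
def actA (N r j : ℕ) : Act :=
  if r ≤ 6 then
    if j = 2 then Act.spShift r
    else if j + 1 = N then
      if r = 1 then Act.spKeep 7
      else if r = 2 then Act.keep 7
      else if r = 3 then Act.spKeep 8
      else if r = 4 then Act.both 13
      else if r = 5 then Act.spKeep 9
      else Act.keep 9
    else Act.keep r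
  else if r = 7 then Act.link
  else if r = 8 then Act.both 13
  else if r = 9 then (if j = 10 then Act.both 9 else Act.keep 9)
  else if r = 10 then (if j = 8 then Act.both 10 else Act.keep 10)
  else (if j = 6 then Act.both r else Act.keep r)

/-- new role of the first vertex of a pair when it is separated -/
def zr (r : ℕ) : ℕ := if r = 9 then 10 else if r = 10 then 11 else if r = 11 then 1 else 2

/-- new role of the second vertex of a pair when it is separated -/
def wr (r : ℕ) : ℕ := if r = 9 then 12 else if r = 10 then 3 else if r = 11 then 4 else 5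

/-- label of the bottom copy -/
def d0 (N : ℕ) : Lab → Lab
  | Lab.none => Lab.none
  | Lab.A r j =>
    match actA N r j with
    | Act.keep r' => Lab.A r' (j - 1)
    | Act.spKeep r' => Lab.A r' (N - 1)
    | Act.spShift _ => Lab.none
    | Act.both r' => Lab.Bz r' (j - 1)
    | Act.link => Lab.none
  | Lab.Bz r j =>
    if r = 13 then (if j = 3 then Lab.A 6 2 else Lab.Bz 13 (j - 1)) else Lab.A (zr r) (j - 1)
  | Lab.Bw _ _ => Lab.none

/-- label of the top copy -/
def d1 (N : ℕ) : Lab → Lab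
  | Lab.none => Lab.none
  | Lab.A r j =>
    match actA N r j with
    | Act.keep _ => Lab.none
    | Act.spKeep _ => Lab.none
    | Act.spShift r' => Lab.A r' N
    | Act.both r' => Lab.Bw r' (j - 1)
    | Act.link => Lab.none
  | Lab.Bz r j => if r = 13 ∧ j ≠ 3 then Lab.Bw 13 (j - 1) else Lab.none
  | Lab.Bw r j => if r = 13 then Lab.none else Lab.A (wr r) (j - 3)

/-- colour of the vertical edge -/
def vcl (N : ℕ) : Lab → ℕ
  | Lab.none => N - 1
  | Lab.A r j =>
    match actA N r j with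
    | Act.keep _ => N - 1
    | Act.spKeep _ => j - 2
    | Act.spShift _ => j - 2
    | Act.both _ => N - 1
    | Act.link => j - 2
  | Lab.Bz _ _ => N - 1
  | Lab.Bw r j => if r = 13 then j - 3 else N - 1

/-- new labels -/
def labS (N : ℕ) (lab : V → Lab) (p : V × Bool) : Lab :=
  if p.2 then d1 N (lab p.1) else d0 N (lab p.1)

/-- What the action can be, with all the arithmetic information needed later. -/
theorem actA_cases {N r j : ℕ} (hN : 12 ≤ N) (h : vA N r j) :
    (∃ r', actA N r j = Act.keep r' ∧ 3 ≤ j ∧ j + 1 ≤ N ∧ vA (N + 1) r' (j - 1)) ∨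
    (∃ r', actA N r j = Act.spKeep r' ∧ j + 1 = N ∧ vA (N + 1) r' (N - 1)) ∨
    (∃ r', actA N r j = Act.spShift r' ∧ j = 2 ∧ vA (N + 1) r' N) ∨
    (∃ r', actA N r j = Act.both r' ∧ 4 ≤ j ∧ j + 1 ≤ N ∧ vB (N + 1) r' (j - 1)) ∨
    (actA N r j = Act.link ∧ 2 ≤ j ∧ j + 2 ≤ N) := by
  unfold vA at h
  rcases h with ⟨h1, h2, h3, h4⟩ | ⟨rfl, h3, h4⟩ | ⟨rfl, h3, h4⟩ | ⟨rfl, h3, h4⟩ | ⟨rfl, h3, h4⟩ |
    ⟨rfl, h3, h4⟩ | ⟨rfl, h3, h4⟩
  · by_cases hj : j = 2
    · right; right; left
      exact ⟨r, by simp [actA, h2, hj], hj, by unfold vA; omega⟩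
    · by_cases hj2 : j + 1 = N
      · have e : r = 1 ∨ r = 2 ∨ r = 3 ∨ r = 4 ∨ r = 5 ∨ r = 6 := by omega
        rcases e with rfl | rfl | rfl | rfl | rfl | rfl
        · right; left
          exact ⟨7, by simp [actA, hj, hj2], hj2, by unfold vA; omega⟩
        · left
          exact ⟨7, by simp [actA, hj, hj2], by omega, by omega, by unfold vA; omega⟩
        · right; left
          exact ⟨8, by simp [actA, hj, hj2], hj2, by unfold vA; omega⟩
        · right; right; right; left
          exact ⟨13, by simp [actA, hj, hj2], by omega, by omega, by unfold vB; omega⟩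
        · right; left
          exact ⟨9, by simp [actA, hj, hj2], hj2, by unfold vA; omega⟩
        · left
          exact ⟨9, by simp [actA, hj, hj2], by omega, by omega, by unfold vA; omega⟩
      · left
        exact ⟨r, by simp [actA, h2, hj, hj2], by omega, by omega, by unfold vA; omega⟩
  · right; right; right; right
    exact ⟨by simp [actA], h3, h4⟩
  · right; right; right; left
    exact ⟨13, by simp [actA], by omega, by omega, by unfold vB; omega⟩
  · by_cases hj : j = 10
    · right; right; right; left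
      exact ⟨9, by simp [actA, hj], by omega, by omega, by unfold vB; omega⟩
    · left
      exact ⟨9, by simp [actA, hj], by omega, by omega, by unfold vA; omega⟩
  · by_cases hj : j = 8
    · right; right; right; left
      exact ⟨10, by simp [actA, hj], by omega, by omega, by unfold vB; omega⟩
    · left
      exact ⟨10, by simp [actA, hj], by omega, by omega, by unfold vA; omega⟩
  · by_cases hj : j = 6
    · right; right; right; left
      exact ⟨11, by simp [actA, hj], by omega, by omega, by unfold vB; omega⟩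
    · left
      exact ⟨11, by simp [actA, hj], by omega, by omega, by unfold vA; omega⟩
  · by_cases hj : j = 6
    · right; right; right; left
      exact ⟨12, by simp [actA, hj], by omega, by omega, by unfold vB; omega⟩
    · left
      exact ⟨12, by simp [actA, hj], by omega, by omega, by unfold vA; omega⟩

theorem present {G : SimpleGraph V} {N : ℕ} {nb : ℕ → V → Option V} (hc : IsCol G N nb)
    {v : V} {a b k : ℕ} (hab : a ≠ b) (ha : a < N) (hb : b < N) (hna : nb a v = none)
    (hnb : nb b v = none) (hk : k < N) (h1 : k ≠ a) (h2 : k ≠ b) : ∃ w, nb k v = some w := by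
  obtain ⟨x, y, hxy, hy, hm⟩ := hc.mis v
  have ea := (hm a ha).1 hna
  have eb := (hm b hb).1 hnb
  rcases h : nb k v with _ | w
  · exfalso
    have ek := (hm k hk).1 h
    omega
  · exact ⟨w, rfl⟩

section

variable {N : ℕ} {nb : ℕ → V → Option V} {lab : V → Lab} {G : SimpleGraph V}

theorem State.exitA (st : State G N nb lab) {v : V} {r j k : ℕ} (h : lab v = Lab.A r j)
    (hk : k < N) (h1 : k + 1 ≠ j) (h2 : k ≠ j) : ∃ w, nb k v = some w ∧ lab w = Lab.none := by
  obtain ⟨hv, hm1, hm2, hn⟩ := st.lA v r j h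
  have hj : 2 ≤ j ∧ j + 1 ≤ N := by unfold vA at hv; omega
  obtain ⟨w, hw⟩ := present st.col (a := j - 1) (b := j) (by omega) (by omega) (by omega) hm1 hm2
    hk (by omega) h2
  exact ⟨w, hw, hn k hk w hw⟩

theorem State.exitZ (st : State G N nb lab) {v : V} {r j k : ℕ} (h : lab v = Lab.Bz r j)
    (hk : k < N) (h1 : k + 1 ≠ j) (h2 : k ≠ j) (h3 : k + 2 ≠ N) :
    ∃ w, nb k v = some w ∧ lab w = Lab.none := by
  obtain ⟨hv, hm1, hm2, _, hn⟩ := st.lZ v r j h
  have hN := st.hN
  have hj : 3 ≤ j ∧ j + 3 ≤ N := by unfold vB at hv; omega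
  obtain ⟨w, hw⟩ := present st.col (a := j - 1) (b := j) (by omega) (by omega) (by omega) hm1 hm2
    hk (by omega) h2
  exact ⟨w, hw, hn k hk h3 w hw⟩

theorem State.exitW (st : State G N nb lab) {v : V} {r j k : ℕ} (h : lab v = Lab.Bw r j)
    (hk : k < N) (h1 : k + 2 ≠ j) (h2 : k + 1 ≠ j) (h3 : k + 2 ≠ N) :
    ∃ w, nb k v = some w ∧ lab w = Lab.none := by
  obtain ⟨hv, hm1, hm2, _, hn⟩ := st.lW v r j h
  have hN := st.hN
  have hj : 3 ≤ j ∧ j + 3 ≤ N := by unfold vB at hv; omega
  obtain ⟨w, hw⟩ := present st.col (a := j - 2) (b := j - 1) (by omega) (by omega) (by omega)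
    hm1 hm2 hk (by omega) (by omega)
  exact ⟨w, hw, hn k hk h3 w hw⟩

theorem State.vcOk (st : State G N nb lab) : VcOk N nb (fun v => vcl N (lab v)) := by
  intro v
  have hN := st.hN
  show vcl N (lab v) + 1 = N ∨ (vcl N (lab v) + 3 ≤ N ∧ nb (vcl N (lab v) + 1) v = none ∧
    nb (vcl N (lab v) + 2) v = none)
  rcases h : lab v with _ | ⟨r, j⟩ | ⟨r, j⟩ | ⟨r, j⟩
  · left
    simp only [vcl]
    omega
  · obtain ⟨hv, hm1, hm2, _⟩ := st.lA v r j h
    have hj : 2 ≤ j ∧ j + 1 ≤ N := by unfold vA at hv; omega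
    have key : j - 2 + 3 ≤ N ∧ nb (j - 2 + 1) v = none ∧ nb (j - 2 + 2) v = none := by
      refine ⟨by omega, ?_, ?_⟩
      · rw [show j - 2 + 1 = j - 1 by omega]; exact hm1
      · rw [show j - 2 + 2 = j by omega]; exact hm2
    rcases actA_cases hN hv with ⟨r', e, _⟩ | ⟨r', e, _⟩ | ⟨r', e, _⟩ | ⟨r', e, _⟩ | ⟨e, _⟩
    · left; simp only [vcl, e]; omega
    · right; simp only [vcl, e]; exact key
    · right; simp only [vcl, e]; exact key
    · left; simp only [vcl, e]; omega
    · right; simp only [vcl, e]; exact key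
  · left
    simp only [vcl]
    omega
  · obtain ⟨hv, hm1, hm2, _⟩ := st.lW v r j h
    have hj : 3 ≤ j ∧ j + 3 ≤ N := by unfold vB at hv; omega
    by_cases hr : r = 13
    · right
      simp only [vcl, hr, if_true]
      refine ⟨by omega, ?_, ?_⟩
      · rw [show j - 3 + 1 = j - 2 by omega]; exact hm1
      · rw [show j - 3 + 2 = j - 1 by omega]; exact hm2
    · left
      simp only [vcl, hr, if_false]
      omega

theorem State.vc_none (st : State G N nb lab) {v : V} (h : ¬ lab v ≠ Lab.none) :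
    vcl N (lab v) + 1 = N := by
  have hN := st.hN
  rw [not_not.1 h]
  simp only [vcl]
  omega

theorem labS_none {v : V} {ε : Bool} (h : lab v = Lab.none) : labS N lab (v, ε) = Lab.none := by
  cases ε <;> simp [labS, h, d0, d1]

end

end Pool.Agent.Lib.MP_84d915_co
end

section

/-!
The label invariants are preserved by the step.
-/

namespace Pool.Agent.Lib.MP_84d915_co

open Relation

variable {V : Type} {N : ℕ} {nb : ℕ → V → Option V} {lab : V → Lab} {G : SimpleGraph V}

/-- the new colouring -/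
abbrev newNb (N : ℕ) (nb : ℕ → V → Option V) (lab : V → Lab) : ℕ → V × Bool → Option (V × Bool) :=
  nbS N nb (fun v => vcl N (lab v))

theorem none_bot {v : V} {c k : ℕ} (h1 : vcl N (lab v) ≠ c) (h2 : bet N c = k)
    (h3 : nb k v = none) : newNb N nb lab c (v, false) = none :=
  (nbS_none_false c v).2 ⟨fun h => h1 h.symm, Or.inr (by rw [h2]; exact h3)⟩

theorem none_top {v : V} {c k : ℕ} (h1 : vcl N (lab v) ≠ c) (h2 : tau N c = k)
    (h3 : nb k v = none) : newNb N nb lab c (v, true) = none :=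
  (nbS_none_true c v).2 ⟨fun h => h1 h.symm, Or.inr (by rw [h2]; exact h3)⟩

theorem none_new {v : V} {c : ℕ} {ε : Bool} (h1 : vcl N (lab v) ≠ c) (h2 : c + 1 = N) :
    newNb N nb lab c (v, ε) = none := by
  cases ε
  · exact (nbS_none_false c v).2 ⟨fun h => h1 h.symm, Or.inl h2⟩
  · exact (nbS_none_true c v).2 ⟨fun h => h1 h.symm, Or.inl h2⟩

theorem bet_eq {N c : ℕ} (h : c < N) : bet N c = c + 1 := by
  unfold bet; rw [if_neg (by omega)]

theorem tau_eq {N c : ℕ} (h : c + 2 < N) : tau N c = c + 2 := by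
  unfold tau; rw [if_neg (by omega), if_neg (by omega)]

theorem State.nbA (st : State G N nb lab) {v w : V} {r j k : ℕ} (h : lab v = Lab.A r j)
    (hk : k < N) (hw : nb k v = some w) : lab w = Lab.none :=
  (st.lA v r j h).2.2.2 k hk w hw

theorem State.nbZ (st : State G N nb lab) {v w : V} {r j k : ℕ} (h : lab v = Lab.Bz r j)
    (hk : k < N) (hw : nb k v = some w) : lab w = Lab.none ∨ lab w = Lab.Bw r j := by
  obtain ⟨_, _, _, ⟨w', h1, h2⟩, h3⟩ := st.lZ v r j h
  by_cases h4 : k + 2 = N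
  · right
    have : N - 2 = k := by omega
    rw [this, hw] at h1
    rw [Option.some_inj.1 h1]
    exact h2
  · exact Or.inl (h3 k hk h4 w hw)

theorem State.nbW (st : State G N nb lab) {v w : V} {r j k : ℕ} (h : lab v = Lab.Bw r j)
    (hk : k < N) (hw : nb k v = some w) : lab w = Lab.none ∨ lab w = Lab.Bz r j := by
  obtain ⟨_, _, _, ⟨w', h1, h2⟩, h3⟩ := st.lW v r j h
  by_cases h4 : k + 2 = N
  · right
    have : N - 2 = k := by omega
    rw [this, hw] at h1
    rw [Option.some_inj.1 h1]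
    exact h2
  · exact Or.inl (h3 k hk h4 w hw)

/-- neighbours of the bottom copy of `v` are unlabelled -/
theorem nbrs_bot {v : V} (hN : 12 ≤ N) (htop : d1 N (lab v) = Lab.none)
    (h : ∀ k, k < N → ∀ w, nb k v = some w → d0 N (lab w) = Lab.none) :
    ∀ c, c < N + 1 → ∀ q, newNb N nb lab c (v, false) = some q → labS N lab q = Lab.none := by
  rintro c hc ⟨w, δ⟩ hq
  rcases nbS_cases hq with ⟨_, rfl, rfl⟩ | ⟨_, _, h2, _⟩ | ⟨_, h1, _, rfl, h3⟩
  · simpa [labS] using htop
  · simp at h2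
  · have := h _ (bet_lt (by omega) h1 (by omega)) w h3
    simpa [labS] using this

theorem nbrs_top {v : V} (hN : 12 ≤ N) (hbot : d0 N (lab v) = Lab.none)
    (h : ∀ k, k < N → ∀ w, nb k v = some w → d1 N (lab w) = Lab.none) :
    ∀ c, c < N + 1 → ∀ q, newNb N nb lab c (v, true) = some q → labS N lab q = Lab.none := by
  rintro c hc ⟨w, δ⟩ hq
  rcases nbS_cases hq with ⟨_, rfl, rfl⟩ | ⟨_, h1, _, rfl, h3⟩ | ⟨_, _, h2, _⟩
  · simpa [labS] using hbot
  · have := h _ (tau_lt (by omega) h1 (by omega)) w h3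
    simpa [labS] using this
  · simp at h2

/-- neighbours of the bottom copy of `v` other than the vertical one are unlabelled -/
theorem nbrs_bot' {v : V} (hN : 12 ≤ N) (hvc : vcl N (lab v) + 1 = N)
    (h : ∀ k, k < N → ∀ w, nb k v = some w → d0 N (lab w) = Lab.none) :
    ∀ c, c < N + 1 → c + 2 ≠ N + 1 → ∀ q, newNb N nb lab c (v, false) = some q →
      labS N lab q = Lab.none := by
  rintro c hc hc2 ⟨w, δ⟩ hq
  rcases nbS_cases hq with ⟨h1, rfl, rfl⟩ | ⟨_, _, h2, _⟩ | ⟨_, h1, _, rfl, h3⟩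
  · exfalso; omega
  · simp at h2
  · have := h _ (bet_lt (by omega) h1 (by omega)) w h3
    simpa [labS] using this

theorem nbrs_top' {v : V} (hN : 12 ≤ N) (hvc : vcl N (lab v) + 1 = N)
    (h : ∀ k, k < N → ∀ w, nb k v = some w → d1 N (lab w) = Lab.none) :
    ∀ c, c < N + 1 → c + 2 ≠ N + 1 → ∀ q, newNb N nb lab c (v, true) = some q →
      labS N lab q = Lab.none := by
  rintro c hc hc2 ⟨w, δ⟩ hq
  rcases nbS_cases hq with ⟨h1, rfl, rfl⟩ | ⟨_, h1, _, rfl, h3⟩ | ⟨_, _, h2, _⟩
  · exfalso; omega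
  · have := h _ (tau_lt (by omega) h1 (by omega)) w h3
    simpa [labS] using this
  · simp at h2

theorem vert_nb {v : V} (hN : 12 ≤ N) (hvc : vcl N (lab v) + 1 = N) (ε : Bool) :
    newNb N nb lab (N + 1 - 2) (v, ε) = some (v, !ε) := by
  have h : N + 1 - 2 = (fun v => vcl N (lab v)) v := by
    show N + 1 - 2 = vcl N (lab v)
    omega
  rw [newNb, h]
  exact nbS_vert v ε

theorem State.lA_step (st : State G N nb lab) : ∀ p r j, labS N lab p = Lab.A r j →
    vA (N + 1) r j ∧ newNb N nb lab (j - 1) p = none ∧ newNb N nb lab j p = none ∧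
    ∀ c, c < N + 1 → ∀ q, newNb N nb lab c p = some q → labS N lab q = Lab.none := by
  rintro ⟨v, ε⟩ r j h
  have hN := st.hN
  rcases hl : lab v with _ | ⟨r0, j0⟩ | ⟨r0, j0⟩ | ⟨r0, j0⟩
  · rw [labS_none hl] at h
    exact absurd h (by simp)
  · obtain ⟨hv, hm1, hm2, _⟩ := st.lA v r0 j0 hl
    have hj : 2 ≤ j0 ∧ j0 + 1 ≤ N := by unfold vA at hv; omega
    have hnb0 : ∀ k, k < N → ∀ w, nb k v = some w → d0 N (lab w) = Lab.none := by
      intro k hk w hw
      rw [st.nbA hl hk hw]; rfl
    have hnb1 : ∀ k, k < N → ∀ w, nb k v = some w → d1 N (lab w) = Lab.none := by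
      intro k hk w hw
      rw [st.nbA hl hk hw]; rfl
    rcases actA_cases hN hv with ⟨r', e, h3, h4, h5⟩ | ⟨r', e, h4, h5⟩ | ⟨r', e, h4, h5⟩ |
      ⟨r', e, h3, h4, h5⟩ | ⟨e, h3, h4⟩
    · cases ε
      · simp only [labS, hl, d0, e] at h
        simp only [Bool.false_eq_true, if_false, Lab.A.injEq] at h
        obtain ⟨rfl, rfl⟩ := h
        have hvc : vcl N (lab v) = N - 1 := by simp only [hl, vcl, e]
        refine ⟨h5, none_bot (k := j0 - 1) ?_ ?_ hm1, none_bot (k := j0) ?_ ?_ hm2,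
          nbrs_bot hN (by simp only [hl, d1, e]) hnb0⟩
        · rw [hvc]; omega
        · rw [bet_eq (by omega)]; omega
        · rw [hvc]; omega
        · rw [bet_eq (by omega)]; omega
      · simp only [labS, hl, d1, e] at h
        simp at h
    · cases ε
      · simp only [labS, hl, d0, e] at h
        simp only [Bool.false_eq_true, if_false, Lab.A.injEq] at h
        obtain ⟨rfl, rfl⟩ := h
        have hvc : vcl N (lab v) = j0 - 2 := by simp only [hl, vcl, e]
        refine ⟨h5, none_bot (k := j0) ?_ ?_ hm2, none_new ?_ ?_,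
          nbrs_bot hN (by simp only [hl, d1, e]) hnb0⟩
        · rw [hvc]; omega
        · rw [bet_eq (by omega)]; omega
        · rw [hvc]; omega
        · omega
      · simp only [labS, hl, d1, e] at h
        simp at h
    · cases ε
      · simp only [labS, hl, d0, e] at h
        simp at h
      · simp only [labS, hl, d1, e] at h
        simp only [if_true, Lab.A.injEq] at h
        obtain ⟨rfl, rfl⟩ := h
        have hvc : vcl N (lab v) = j0 - 2 := by simp only [hl, vcl, e]
        refine ⟨h5, none_new ?_ ?_, none_top (k := j0 - 1) ?_ ?_ hm1,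
          nbrs_top hN (by simp only [hl, d0, e]) hnb1⟩
        · rw [hvc]; omega
        · omega
        · rw [hvc]; omega
        · unfold tau; rw [if_pos rfl]; omega
    · cases ε
      · simp only [labS, hl, d0, e] at h
        simp at h
      · simp only [labS, hl, d1, e] at h
        simp at h
    · cases ε
      · simp only [labS, hl, d0, e] at h
        simp at h
      · simp only [labS, hl, d1, e] at h
        simp at h
  · obtain ⟨hv, hm1, hm2, _⟩ := st.lZ v r0 j0 hl
    have hj : 3 ≤ j0 ∧ j0 + 3 ≤ N := by unfold vB at hv; omega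
    have hvc : vcl N (lab v) = N - 1 := by simp only [hl, vcl]
    have hnb0 : ∀ k, k < N → ∀ w, nb k v = some w → d0 N (lab w) = Lab.none := by
      intro k hk w hw
      rcases st.nbZ hl hk hw with h1 | h1 <;> rw [h1] <;> rfl
    cases ε
    · by_cases hr : r0 = 13
      · by_cases hj3 : j0 = 3
        · subst hr hj3
          simp only [labS, hl, d0] at h
          simp only [Bool.false_eq_true, if_false, if_true, Lab.A.injEq] at h
          obtain ⟨rfl, rfl⟩ := h
          refine ⟨by unfold vA; omega, none_bot (k := 2) ?_ ?_ hm1, none_bot (k := 3) ?_ ?_ hm2,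
            nbrs_bot hN (by simp [hl, d1]) hnb0⟩
          · rw [hvc]; omega
          · rw [bet_eq (by omega)]
          · rw [hvc]; omega
          · rw [bet_eq (by omega)]
        · simp only [labS, hl, d0, hr, if_true, hj3, if_false] at h
          simp at h
      · simp only [labS, hl, d0, hr, if_false] at h
        simp only [Bool.false_eq_true, if_false, Lab.A.injEq] at h
        obtain ⟨rfl, rfl⟩ := h
        refine ⟨?_, none_bot (k := j0 - 1) ?_ ?_ hm1, none_bot (k := j0) ?_ ?_ hm2,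
          nbrs_bot hN (by simp [hl, d1, hr]) hnb0⟩
        · unfold vB at hv
          unfold vA zr
          split_ifs <;> omega
        · rw [hvc]; omega
        · rw [bet_eq (by omega)]; omega
        · rw [hvc]; omega
        · rw [bet_eq (by omega)]; omega
    · simp only [labS, hl, d1] at h
      split_ifs at h
  · obtain ⟨hv, hm1, hm2, _⟩ := st.lW v r0 j0 hl
    have hj : 3 ≤ j0 ∧ j0 + 3 ≤ N := by unfold vB at hv; omega
    cases ε
    · simp only [labS, hl, d0] at h
      simp at h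
    · by_cases hr : r0 = 13
      · simp only [labS, hl, d1, hr, if_true] at h
        simp at h
      · simp only [labS, hl, d1, hr, if_false] at h
        simp only [if_true, Lab.A.injEq] at h
        obtain ⟨rfl, rfl⟩ := h
        have hvc : vcl N (lab v) = N - 1 := by simp only [hl, vcl, hr, if_false]
        have hj' : 5 ≤ j0 := by unfold vB at hv; omega
        have hnb1 : ∀ k, k < N → ∀ w, nb k v = some w → d1 N (lab w) = Lab.none := by
          intro k hk w hw
          rcases st.nbW hl hk hw with h1 | h1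
          · rw [h1]; rfl
          · rw [h1]; simp [d1, hr]
        refine ⟨?_, none_top (k := j0 - 2) ?_ ?_ hm1, none_top (k := j0 - 1) ?_ ?_ hm2,
          nbrs_top hN (by simp [hl, d0]) hnb1⟩
        · unfold vB at hv
          unfold vA wr
          split_ifs <;> omega
        · rw [hvc]; omega
        · rw [tau_eq (by omega)]; omega
        · rw [hvc]; omega
        · rw [tau_eq (by omega)]; omega

theorem State.lZ_step (st : State G N nb lab) : ∀ p r j, labS N lab p = Lab.Bz r j →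
    vB (N + 1) r j ∧ newNb N nb lab (j - 1) p = none ∧ newNb N nb lab j p = none ∧
    (∃ q, newNb N nb lab (N + 1 - 2) p = some q ∧ labS N lab q = Lab.Bw r j) ∧
    ∀ c, c < N + 1 → c + 2 ≠ N + 1 → ∀ q, newNb N nb lab c p = some q →
      labS N lab q = Lab.none := by
  rintro ⟨v, ε⟩ r j h
  have hN := st.hN
  rcases hl : lab v with _ | ⟨r0, j0⟩ | ⟨r0, j0⟩ | ⟨r0, j0⟩
  · rw [labS_none hl] at h
    exact absurd h (by simp)
  · obtain ⟨hv, hm1, hm2, _⟩ := st.lA v r0 j0 hl
    have hnb0 : ∀ k, k < N → ∀ w, nb k v = some w → d0 N (lab w) = Lab.none := by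
      intro k hk w hw
      rw [st.nbA hl hk hw]; rfl
    rcases actA_cases hN hv with ⟨r', e, h3, h4, h5⟩ | ⟨r', e, h4, h5⟩ | ⟨r', e, h4, h5⟩ |
      ⟨r', e, h3, h4, h5⟩ | ⟨e, h3, h4⟩
    · cases ε
      · simp only [labS, hl, d0, e] at h
        simp at h
      · simp only [labS, hl, d1, e] at h
        simp at h
    · cases ε
      · simp only [labS, hl, d0, e] at h
        simp at h
      · simp only [labS, hl, d1, e] at h
        simp at h
    · cases ε
      · simp only [labS, hl, d0, e] at h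
        simp at h
      · simp only [labS, hl, d1, e] at h
        simp at h
    · cases ε
      · simp only [labS, hl, d0, e] at h
        simp only [Bool.false_eq_true, if_false, Lab.Bz.injEq] at h
        obtain ⟨rfl, rfl⟩ := h
        have hvc : vcl N (lab v) = N - 1 := by simp only [hl, vcl, e]
        refine ⟨h5, none_bot (k := j0 - 1) ?_ ?_ hm1, none_bot (k := j0) ?_ ?_ hm2,
          ⟨(v, true), ?_, ?_⟩, nbrs_bot' hN (by rw [hvc]; omega) hnb0⟩
        · rw [hvc]; omega
        · rw [bet_eq (by omega)]; omega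
        · rw [hvc]; omega
        · rw [bet_eq (by omega)]; omega
        · exact vert_nb hN (by rw [hvc]; omega) false
        · simp [labS, hl, d1, e]
      · simp only [labS, hl, d1, e] at h
        simp at h
    · cases ε
      · simp only [labS, hl, d0, e] at h
        simp at h
      · simp only [labS, hl, d1, e] at h
        simp at h
  · obtain ⟨hv, hm1, hm2, _⟩ := st.lZ v r0 j0 hl
    have hj : 3 ≤ j0 ∧ j0 + 3 ≤ N := by unfold vB at hv; omega
    have hvc : vcl N (lab v) = N - 1 := by simp only [hl, vcl]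
    have hnb0 : ∀ k, k < N → ∀ w, nb k v = some w → d0 N (lab w) = Lab.none := by
      intro k hk w hw
      rcases st.nbZ hl hk hw with h1 | h1 <;> rw [h1] <;> rfl
    cases ε
    · by_cases hr : r0 = 13
      · by_cases hj3 : j0 = 3
        · simp only [labS, hl, d0, hr, if_true, hj3] at h
          simp at h
        · simp only [labS, hl, d0, hr, if_true, hj3, if_false] at h
          simp only [Bool.false_eq_true, if_false, Lab.Bz.injEq] at h
          obtain ⟨rfl, rfl⟩ := h
          refine ⟨?_, none_bot (k := j0 - 1) ?_ ?_ hm1, none_bot (k := j0) ?_ ?_ hm2,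
            ⟨(v, true), ?_, ?_⟩, nbrs_bot' hN (by rw [hvc]; omega) hnb0⟩
          · unfold vB at hv ⊢
            omega
          · rw [hvc]; omega
          · rw [bet_eq (by omega)]; omega
          · rw [hvc]; omega
          · rw [bet_eq (by omega)]; omega
          · exact vert_nb hN (by rw [hvc]; omega) false
          · simp [labS, hl, d1, hr, hj3]
      · simp only [labS, hl, d0, hr, if_false] at h
        simp at h
    · simp only [labS, hl, d1] at h
      split_ifs at h
  · cases ε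
    · simp only [labS, hl, d0] at h
      simp at h
    · by_cases hr : r0 = 13
      · simp only [labS, hl, d1, hr, if_true] at h
        simp at h
      · simp only [labS, hl, d1, hr, if_false] at h
        simp at h

theorem State.lW_step (st : State G N nb lab) : ∀ p r j, labS N lab p = Lab.Bw r j →
    vB (N + 1) r j ∧ newNb N nb lab (j - 2) p = none ∧ newNb N nb lab (j - 1) p = none ∧
    (∃ q, newNb N nb lab (N + 1 - 2) p = some q ∧ labS N lab q = Lab.Bz r j) ∧
    ∀ c, c < N + 1 → c + 2 ≠ N + 1 → ∀ q, newNb N nb lab c p = some q →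
      labS N lab q = Lab.none := by
  rintro ⟨v, ε⟩ r j h
  have hN := st.hN
  rcases hl : lab v with _ | ⟨r0, j0⟩ | ⟨r0, j0⟩ | ⟨r0, j0⟩
  · rw [labS_none hl] at h
    exact absurd h (by simp)
  · obtain ⟨hv, hm1, hm2, _⟩ := st.lA v r0 j0 hl
    have hnb1 : ∀ k, k < N → ∀ w, nb k v = some w → d1 N (lab w) = Lab.none := by
      intro k hk w hw
      rw [st.nbA hl hk hw]; rfl
    rcases actA_cases hN hv with ⟨r', e, h3, h4, h5⟩ | ⟨r', e, h4, h5⟩ | ⟨r', e, h4, h5⟩ |
      ⟨r', e, h3, h4, h5⟩ | ⟨e, h3, h4⟩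
    · cases ε
      · simp only [labS, hl, d0, e] at h
        simp at h
      · simp only [labS, hl, d1, e] at h
        simp at h
    · cases ε
      · simp only [labS, hl, d0, e] at h
        simp at h
      · simp only [labS, hl, d1, e] at h
        simp at h
    · cases ε
      · simp only [labS, hl, d0, e] at h
        simp at h
      · simp only [labS, hl, d1, e] at h
        simp at h
    · cases ε
      · simp only [labS, hl, d0, e] at h
        simp at h
      · simp only [labS, hl, d1, e] at h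
        simp only [if_true, Lab.Bw.injEq] at h
        obtain ⟨rfl, rfl⟩ := h
        have hvc : vcl N (lab v) = N - 1 := by simp only [hl, vcl, e]
        refine ⟨h5, none_top (k := j0 - 1) ?_ ?_ hm1, none_top (k := j0) ?_ ?_ hm2,
          ⟨(v, false), ?_, ?_⟩, nbrs_top' hN (by rw [hvc]; omega) hnb1⟩
        · rw [hvc]; omega
        · rw [tau_eq (by omega)]; omega
        · rw [hvc]; omega
        · rw [tau_eq (by omega)]; omega
        · exact vert_nb hN (by rw [hvc]; omega) true
        · simp [labS, hl, d0, e]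
    · cases ε
      · simp only [labS, hl, d0, e] at h
        simp at h
      · simp only [labS, hl, d1, e] at h
        simp at h
  · obtain ⟨hv, hm1, hm2, _⟩ := st.lZ v r0 j0 hl
    have hj : 3 ≤ j0 ∧ j0 + 3 ≤ N := by unfold vB at hv; omega
    have hvc : vcl N (lab v) = N - 1 := by simp only [hl, vcl]
    cases ε
    · simp only [labS, hl, d0] at h
      simp only [Bool.false_eq_true, if_false] at h
      split_ifs at h
    · by_cases hr : r0 = 13 ∧ j0 ≠ 3
      · have hnb1 : ∀ k, k < N → ∀ w, nb k v = some w → d1 N (lab w) = Lab.none := by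
          intro k hk w hw
          rcases st.nbZ hl hk hw with h1 | h1
          · rw [h1]; rfl
          · rw [h1]; simp [d1, hr.1]
        simp only [labS, hl, d1] at h
        rw [if_pos hr] at h
        simp only [if_true, Lab.Bw.injEq] at h
        obtain ⟨rfl, rfl⟩ := h
        obtain ⟨hr1, hr2⟩ := hr
        refine ⟨?_, none_top (k := j0 - 1) ?_ ?_ hm1, none_top (k := j0) ?_ ?_ hm2,
          ⟨(v, false), ?_, ?_⟩, nbrs_top' hN (by rw [hvc]; omega) hnb1⟩
        · unfold vB at hv ⊢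
          omega
        · rw [hvc]; omega
        · rw [tau_eq (by omega)]; omega
        · rw [hvc]; omega
        · rw [tau_eq (by omega)]; omega
        · exact vert_nb hN (by rw [hvc]; omega) true
        · simp [labS, hl, d0, hr1, hr2]
      · simp only [labS, hl, d1] at h
        rw [if_neg hr] at h
        simp at h
  · cases ε
    · simp only [labS, hl, d0] at h
      simp at h
    · by_cases hr : r0 = 13
      · simp only [labS, hl, d1, hr, if_true] at h
        simp at h
      · simp only [labS, hl, d1, hr, if_false] at h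
        simp at h

end Pool.Agent.Lib.MP_84d915_co
end
end
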