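import Pool.Agent.Lib.MP_84d915_co.Col

section

/-!
Kernel-checked colour tables of hypercubes, given by bit masks.
The vertices of the `k`-cube are coded by `v < 2^k` (bit `i` of `v` is coordinate `i`).
`M c i` is the bit mask of the vertices `v` whose edge in direction `i` has colour `c`.
-/

namespace Pool.Agent.Lib.MP_84d915_co.Check

/-- `allB p n = true` iff `p j = true` for all `j < n`. -/
def allB (p : ℕ → Bool) : ℕ → Bool
  | 0 => true
  | n+1 => p n && allB p n

theorem allB_iff (p : ℕ → Bool) (n : ℕ) : allB p n = true ↔ ∀ j < n, p j = true := by
  induction n with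
  | zero => simp [allB]
  | succ n ih =>
    simp only [allB, Bool.and_eq_true, ih]
    constructor
    · rintro ⟨h1, h2⟩ j hj
      rcases Nat.lt_succ_iff_lt_or_eq.mp hj with h | h
      · exact h2 j h
      · subst h; exact h1
    · intro h
      exact ⟨h n (Nat.lt_succ_self n), fun j hj => h j (Nat.lt_succ_of_lt hj)⟩

/-- largest `i < n` with `p i` -/
def fnd (p : ℕ → Bool) : ℕ → Option ℕ
  | 0 => none
  | n+1 => if p n then some n else fnd p n

theorem fnd_some {p : ℕ → Bool} {n i : ℕ} (h : fnd p n = some i) : i < n ∧ p i = true := by
  induction n with
  | zero => simp [fnd] at h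
  | succ n ih =>
    simp only [fnd] at h
    split at h
    · next hp => simp only [Option.some.injEq] at h; subst h; exact ⟨Nat.lt_succ_self _, hp⟩
    · exact ⟨Nat.lt_succ_of_lt (ih h).1, (ih h).2⟩

theorem fnd_none {p : ℕ → Bool} {n : ℕ} (h : fnd p n = none) : ∀ i < n, p i = false := by
  induction n with
  | zero => intro i hi; omega
  | succ n ih =>
    simp only [fnd] at h
    split at h
    · simp at h
    · next hp =>
      intro i hi
      rcases Nat.lt_succ_iff_lt_or_eq.mp hi with h' | h'
      · exact ih h i h'
      · subst h'; simpa using hp

/-- mask of the vertices with bit `i` equal to 0, as data to be checked -/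
def lowOk (k : ℕ) (L : ℕ → ℕ) : Bool :=
  allB (fun i => allB (fun v => Nat.testBit (L i) v == !Nat.testBit v i) (2^k)) k

/-- flip of a mask along direction `i` -/
def flip (L : ℕ → ℕ) (i X : ℕ) : ℕ :=
  Nat.lor (Nat.shiftLeft (Nat.land X (L i)) (2^i)) (Nat.land (Nat.shiftRight X (2^i)) (L i))

theorem xor_two_pow_of_testBit_false {v i : ℕ} (h : v.testBit i = false) :
    v ^^^ 2^i = v + 2^i := by
  have hd : (v ^^^ 2^i) / 2^i = v / 2^i + 1 := by
    rw [Nat.xor_div_two_pow, Nat.div_self (Nat.two_pow_pos i)]
    apply Nat.xor_one_of_even
    rw [Nat.testBit_eq_decide_div_mod_eq] at h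
    rw [Nat.even_iff]
    simp only [decide_eq_false_iff_not] at h
    omega
  have hm : (v ^^^ 2^i) % 2^i = v % 2^i := by
    rw [Nat.xor_mod_two_pow, Nat.mod_self, Nat.xor_zero]
  have h1 := Nat.div_add_mod (v ^^^ 2^i) (2^i)
  have h2 := Nat.div_add_mod v (2^i)
  rw [hd, hm, Nat.mul_add] at h1
  omega

theorem xor_two_pow_of_testBit_true {v i : ℕ} (h : v.testBit i = true) :
    (v ^^^ 2^i) + 2^i = v := by
  have h1 : (v ^^^ 2^i).testBit i = false := by
    rw [Nat.testBit_xor, Nat.testBit_two_pow, h]; simp
  have h2 := xor_two_pow_of_testBit_false h1
  rw [Nat.xor_xor_cancel_right] at h2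
  omega

theorem xor_lt {k v i : ℕ} (hv : v < 2^k) (hi : i < k) : v ^^^ 2^i < 2^k :=
  Nat.xor_lt_two_pow hv (Nat.pow_lt_pow_right (by norm_num) hi)

theorem testBit_flip {k : ℕ} {L : ℕ → ℕ} (hL : lowOk k L = true) {i : ℕ} (hi : i < k) (X : ℕ)
    {v : ℕ} (hv : v < 2^k) : (flip L i X).testBit v = X.testBit (v ^^^ 2^i) := by
  have hLi : ∀ w < 2^k, (L i).testBit w = !w.testBit i := by
    intro w hw
    have := (allB_iff _ _).1 ((allB_iff _ _).1 hL i hi) w hw
    simpa using this
  have e : (flip L i X) = ((X &&& L i) <<< 2^i) ||| ((X >>> 2^i) &&& L i) := rfl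
  rw [e, Nat.testBit_or, Nat.testBit_shiftLeft, Nat.testBit_and, Nat.testBit_and,
    Nat.testBit_shiftRight]
  cases hb : v.testBit i with
  | false =>
    have h1 := xor_two_pow_of_testBit_false hb
    rw [h1, hLi v hv, hb, Nat.add_comm (2^i) v]
    by_cases hle : 2^i ≤ v
    · have hw : v - 2^i < 2^k := Nat.lt_of_le_of_lt (Nat.sub_le _ _) hv
      have : (v - 2^i).testBit i = true := by
        have h3 : v = 2^i + (v - 2^i) := by omega
        rw [h3, Nat.testBit_two_pow_add_eq] at hb
        simpa using hb
      rw [hLi _ hw, this]
      simp
    · simp [hle]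
  | true =>
    have h1 := xor_two_pow_of_testBit_true hb
    have hw := xor_lt hv hi
    have h4 : v - 2^i = v ^^^ 2^i := by omega
    have h5 : (v ^^^ 2^i).testBit i = false := by
      rw [Nat.testBit_xor, Nat.testBit_two_pow, hb]; simp
    rw [hLi v hv, hb, h4, hLi _ hw, h5]
    have : 2^i ≤ v := by omega
    simp [this]


/-! ### masks: definitions of the checks -/

def orB (g : ℕ → ℕ) : ℕ → ℕ
  | 0 => 0
  | n+1 => Nat.lor (g n) (orB g n)

theorem testBit_orB (g : ℕ → ℕ) (n v : ℕ) :
    (orB g n).testBit v = true ↔ ∃ c < n, (g c).testBit v = true := by
  induction n with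
  | zero => simp [orB]
  | succ n ih =>
    have e : orB g (n+1) = (g n) ||| (orB g n) := rfl
    rw [e, Nat.testBit_or, Bool.or_eq_true, ih]
    constructor
    · rintro (h | ⟨c, hc, h⟩)
      · exact ⟨n, Nat.lt_succ_self n, h⟩
      · exact ⟨c, Nat.lt_succ_of_lt hc, h⟩
    · rintro ⟨c, hc, h⟩
      rcases Nat.lt_succ_iff_lt_or_eq.mp hc with h' | h'
      · exact Or.inr ⟨c, h', h⟩
      · subst h'; exact Or.inl h

/-- all vertices -/
def full (k : ℕ) : ℕ := 2^(2^k) - 1

/-- symmetry of the table -/
def symOk (k n : ℕ) (M : ℕ → ℕ → ℕ) (L : ℕ → ℕ) : Bool :=
  allB (fun c => allB (fun i => Nat.beq (flip L i (M c i)) (M c i)) k) n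

/-- a vertex has at most one edge of each colour -/
def dirOk (k n : ℕ) (M : ℕ → ℕ → ℕ) : Bool :=
  allB (fun c => allB (fun i => allB (fun j => Nat.beq (Nat.land (M c i) (M c j)) 0) i) k) n

/-- an edge has at most one colour -/
def colOk (k n : ℕ) (M : ℕ → ℕ → ℕ) : Bool :=
  allB (fun i => allB (fun c => allB (fun c' => Nat.beq (Nat.land (M c i) (M c' i)) 0) c) n) k

/-- every edge has a colour -/
def covOk (k n : ℕ) (M : ℕ → ℕ → ℕ) : Bool :=
  allB (fun i => Nat.beq (orB (fun c => M c i) n) (full k)) k

/-- mask of the vertices missing the colour `c` -/
def mis (k : ℕ) (M : ℕ → ℕ → ℕ) (c : ℕ) : ℕ :=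
  Nat.land (Nat.xor (orB (M c) k) (full k)) (full k)

/-- structure check: proper colouring of all edges -/
def strOk (k n : ℕ) (M : ℕ → ℕ → ℕ) (L : ℕ → ℕ) : Bool :=
  lowOk k L && symOk k n M L && dirOk k n M && colOk k n M && covOk k n M

/-- every vertex misses at least two colours -/
def mis2Ok (k n : ℕ) (m : ℕ → ℕ) : Bool :=
  Nat.beq (orB (fun b => orB (fun a => Nat.land (m a) (m b)) b) n) (full k)

/-- no vertex misses three colours -/
def mis3Ok (n : ℕ) (m : ℕ → ℕ) : Bool :=
  allB (fun c => allB (fun b => allB (fun a =>
    Nat.beq (Nat.land (Nat.land (m a) (m b)) (m c)) 0) b) c) n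

/-! ### breadth first search on masks -/

def upd (L : ℕ → ℕ) (M : ℕ → ℕ → ℕ) (NP c i S : ℕ) : ℕ :=
  Nat.lor S (Nat.land (flip L i (Nat.land S (M c i))) NP)

def swD (L : ℕ → ℕ) (M : ℕ → ℕ → ℕ) (NP c : ℕ) : ℕ → ℕ → ℕ
  | 0, S => S
  | i+1, S => swD L M NP c i (upd L M NP c i S)

def swQ (k : ℕ) (L : ℕ → ℕ) (M : ℕ → ℕ → ℕ) (NP : ℕ) : List ℕ → ℕ → ℕ
  | [], S => S
  | c :: Q, S => swQ k L M NP Q (swD L M NP c k S)

/-- closure of the mask `S` under the edges with colours in `Q` inside `NP`, compared with `NP` -/
def bfs (k : ℕ) (L : ℕ → ℕ) (M : ℕ → ℕ → ℕ) (NP : ℕ) (Q : List ℕ) : ℕ → ℕ → Bool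
  | 0, S => Nat.beq S NP
  | m+1, S => match Nat.beq S NP with
    | true => true
    | false => bfs k L M NP Q m (swQ k L M NP Q S)

/-- all triples of colours are connected -/
def p1Ok (k n : ℕ) (L : ℕ → ℕ) (M : ℕ → ℕ → ℕ) (fuel : ℕ) : Bool :=
  allB (fun a => allB (fun b => allB (fun c => bfs k L M (full k) [a, b, c] fuel 1) b) a) n

/-- some vertex whose smaller missing colour is `x` -/
def loA (n : ℕ) (m : ℕ → ℕ) (x : ℕ) : Bool :=
  !allB (fun y => Nat.ble y x || Nat.beq (Nat.land (m x) (m y)) 0) n

/-- some vertex whose larger missing colour is `y` -/
def hiA (m : ℕ → ℕ) (y : ℕ) : Bool :=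
  !allB (fun x => Nat.beq (Nat.land (m x) (m y)) 0) y

def avOk (n : ℕ) (m : ℕ → ℕ) : Bool :=
  allB (fun a => allB (fun b => allB (fun c =>
    (loA n m a || loA n m b || loA n m c) && (hiA m a || hiA m b || hiA m c)) b) a) n

/-! ### the graph and the colouring -/

/-- the `k`-cube on `Fin (2^k)` -/
def maskG (k : ℕ) : SimpleGraph (Fin (2^k)) where
  Adj v w := ∃ i < k, w.1 = v.1 ^^^ 2^i
  symm := ⟨by
    rintro v w ⟨i, hi, h⟩
    exact ⟨i, hi, by rw [h, Nat.xor_xor_cancel_right]⟩⟩
  loopless := ⟨by
    rintro v ⟨i, hi, h⟩
    have h1 := congrArg (fun x => x.testBit i) h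
    simp only [Nat.testBit_xor, Nat.testBit_two_pow_self] at h1
    cases hb : v.1.testBit i <;> simp [hb] at h1⟩

/-- flipping a coordinate -/
def flp (k : ℕ) (v : Fin (2^k)) (i : ℕ) (hi : i < k) : Fin (2^k) :=
  ⟨v.1 ^^^ 2^i, xor_lt v.2 hi⟩

/-- the neighbour of `v` along colour `c` -/
def nbM (k n : ℕ) (M : ℕ → ℕ → ℕ) (c : ℕ) (v : Fin (2^k)) : Option (Fin (2^k)) :=
  if c < n then
    match h : fnd (fun i => (M c i).testBit v.1) k with
    | some i => some (flp k v i (fnd_some h).1)
    | none => none
  else none

theorem nbM_some {k n : ℕ} {M : ℕ → ℕ → ℕ} {c : ℕ} {v w : Fin (2^k)} (h : nbM k n M c v = some w) :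
    c < n ∧ ∃ i < k, (M c i).testBit v.1 = true ∧ w.1 = v.1 ^^^ 2^i := by
  unfold nbM at h
  split at h
  · next hc =>
    refine ⟨hc, ?_⟩
    split at h
    · next i hi =>
      simp only [Option.some.injEq] at h
      subst h
      exact ⟨i, (fnd_some hi).1, by simpa using (fnd_some hi).2, rfl⟩
    · simp at h
  · simp at h

theorem nbM_none {k n : ℕ} {M : ℕ → ℕ → ℕ} {c : ℕ} {v : Fin (2^k)} (hc : c < n)
    (h : nbM k n M c v = none) : ∀ i < k, (M c i).testBit v.1 = false := by
  unfold nbM at h
  rw [if_pos hc] at h
  split at h
  · simp at h
  · next hi =>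
    intro i hi'
    simpa using fnd_none hi i hi'

section
variable {k n : ℕ} {M : ℕ → ℕ → ℕ} {L : ℕ → ℕ}

theorem strOk_low (h : strOk k n M L = true) : lowOk k L = true := by
  unfold strOk at h; simp only [Bool.and_eq_true] at h; exact h.1.1.1.1

theorem strOk_sym (h : strOk k n M L = true) {c i : ℕ} (hc : c < n) (hi : i < k) {v : ℕ}
    (hv : v < 2^k) : (M c i).testBit (v ^^^ 2^i) = (M c i).testBit v := by
  have hL := strOk_low h
  unfold strOk at h; simp only [Bool.and_eq_true] at h
  have h1 := (allB_iff _ _).1 ((allB_iff _ _).1 h.1.1.1.2 c hc) i hi
  have h2 : flip L i (M c i) = M c i := Nat.eq_of_beq_eq_true h1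
  have h3 := testBit_flip hL hi (M c i) hv
  rw [h2] at h3
  exact h3.symm

theorem land_zero_testBit {a b v : ℕ} (h : Nat.beq (Nat.land a b) 0 = true)
    (ha : a.testBit v = true) (hb : b.testBit v = true) : False := by
  have h2 : a &&& b = 0 := Nat.eq_of_beq_eq_true h
  have h3 : (a &&& b).testBit v = true := by rw [Nat.testBit_and, ha, hb]; rfl
  rw [h2] at h3
  simp at h3

theorem strOk_dir (h : strOk k n M L = true) {c i j : ℕ} (hc : c < n) (hi : i < k) (hj : j < k)
    {v : ℕ} (h1 : (M c i).testBit v = true) (h2 : (M c j).testBit v = true) : i = j := by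
  unfold strOk at h; simp only [Bool.and_eq_true] at h
  have h3 := (allB_iff _ _).1 h.1.1.2 c hc
  rcases Nat.lt_trichotomy i j with hij | hij | hij
  · exact (land_zero_testBit ((allB_iff _ _).1 ((allB_iff _ _).1 h3 j hj) i hij) h2 h1).elim
  · exact hij
  · exact (land_zero_testBit ((allB_iff _ _).1 ((allB_iff _ _).1 h3 i hi) j hij) h1 h2).elim

theorem strOk_col (h : strOk k n M L = true) {c c' i : ℕ} (hc : c < n) (hc' : c' < n) (hi : i < k)
    {v : ℕ} (h1 : (M c i).testBit v = true) (h2 : (M c' i).testBit v = true) : c = c' := by
  unfold strOk at h; simp only [Bool.and_eq_true] at h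
  have h3 := (allB_iff _ _).1 h.1.2 i hi
  rcases Nat.lt_trichotomy c c' with hij | hij | hij
  · exact (land_zero_testBit ((allB_iff _ _).1 ((allB_iff _ _).1 h3 c' hc') c hij) h2 h1).elim
  · exact hij
  · exact (land_zero_testBit ((allB_iff _ _).1 ((allB_iff _ _).1 h3 c hc) c' hij) h1 h2).elim

theorem full_testBit {v : ℕ} : (full k).testBit v = decide (v < 2^k) := by
  unfold full; rw [Nat.testBit_two_pow_sub_one]

theorem strOk_cov (h : strOk k n M L = true) {i : ℕ} (hi : i < k) {v : ℕ} (hv : v < 2^k) :
    ∃ c < n, (M c i).testBit v = true := by
  unfold strOk at h; simp only [Bool.and_eq_true] at h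
  have h3 : orB (fun c => M c i) n = full k :=
    Nat.eq_of_beq_eq_true ((allB_iff _ _).1 h.2 i hi)
  have h4 : (orB (fun c => M c i) n).testBit v = true := by
    rw [h3, full_testBit]; simpa using hv
  exact (testBit_orB _ _ _).1 h4

theorem nbM_eq_some (h : strOk k n M L = true) {c i : ℕ} (hc : c < n) (hi : i < k)
    {v : Fin (2^k)} (h1 : (M c i).testBit v.1 = true) : nbM k n M c v = some (flp k v i hi) := by
  cases hx : nbM k n M c v with
  | none =>
    have := nbM_none hc hx i hi
    rw [this] at h1; simp at h1
  | some w =>
    obtain ⟨_, j, hj, h2, h3⟩ := nbM_some hx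
    have := strOk_dir h hc hi hj h1 h2
    subst this
    congr 1
    exact Fin.ext h3

theorem two_pow_xor_inj {v i j : ℕ} (h : v ^^^ 2^i = v ^^^ 2^j) : i = j := by
  have h1 : 2^i = 2^j := by
    have := congrArg (fun x => v ^^^ x) h
    simpa [← Nat.xor_assoc] using this
  exact Nat.pow_right_injective (le_refl 2) h1

theorem nbM_symm (h : strOk k n M L = true) {c : ℕ} {v w : Fin (2^k)}
    (hx : nbM k n M c v = some w) : nbM k n M c w = some v := by
  obtain ⟨hc, i, hi, h1, h2⟩ := nbM_some hx
  have h3 : (M c i).testBit w.1 = true := by
    rw [h2, strOk_sym h hc hi v.2]; exact h1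
  rw [nbM_eq_some h hc hi h3]
  congr 1
  apply Fin.ext
  simp only [flp]
  rw [h2, Nat.xor_xor_cancel_right]

/-- mask of missing colours -/
theorem mis_testBit {c v : ℕ} : (mis k M c).testBit v = true ↔
    (v < 2^k ∧ ∀ i < k, (M c i).testBit v = false) := by
  have e : mis k M c = ((orB (M c) k) ^^^ (full k)) &&& (full k) := rfl
  rw [e, Nat.testBit_and, Nat.testBit_xor, full_testBit]
  have h1 := testBit_orB (M c) k v
  by_cases hv : v < 2^k
  · simp only [hv, decide_true, Bool.xor_true, Bool.and_true, Bool.not_eq_true', true_and]
    rw [← Bool.not_eq_true, h1]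
    push Not
    simp
  · simp [hv]

theorem isCol_of_check (h : strOk k n M L = true) (h2 : mis2Ok k n (mis k M) = true)
    (h3 : mis3Ok n (mis k M) = true) : IsCol (maskG k) n (nbM k n M) where
  symm := fun c _ v w hx => nbM_symm h hx
  adj := by
    intro v w
    constructor
    · rintro ⟨i, hi, h1⟩
      obtain ⟨c, hc, hM⟩ := strOk_cov h hi v.2
      refine ⟨c, hc, ?_⟩
      rw [nbM_eq_some h hc hi hM]
      congr 1
      exact Fin.ext h1.symm
    · rintro ⟨c, hc, hx⟩
      obtain ⟨_, i, hi, _, h1⟩ := nbM_some hx
      exact ⟨i, hi, h1⟩
  uniq := by
    intro c c' hc hc' v w h1 h2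
    obtain ⟨_, i, hi, h3, h4⟩ := nbM_some h1
    obtain ⟨_, j, hj, h5, h6⟩ := nbM_some h2
    have := two_pow_xor_inj (h4.symm.trans h6)
    subst this
    exact strOk_col h hc hc' hi h3 h5
  mis := by
    intro v
    have hm : ∀ c, c < n → (nbM k n M c v = none ↔ (mis k M c).testBit v.1 = true) := by
      intro c hc
      rw [mis_testBit]
      simp only [v.2, true_and]
      constructor
      · intro h1; exact nbM_none hc h1
      · intro h1
        cases hx : nbM k n M c v with
        | none => rfl
        | some w =>
          obtain ⟨_, i, hi, h4, _⟩ := nbM_some hx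
          rw [h1 i hi] at h4; simp at h4
    have e2 : orB (fun b => orB (fun a => Nat.land (mis k M a) (mis k M b)) b) n = full k :=
      Nat.eq_of_beq_eq_true h2
    have h4 : (orB (fun b => orB (fun a => Nat.land (mis k M a) (mis k M b)) b) n).testBit v.1
        = true := by
      rw [e2, full_testBit]; simpa using v.2
    obtain ⟨b, hb, h5⟩ := (testBit_orB _ _ _).1 h4
    obtain ⟨a, ha, h6⟩ := (testBit_orB _ _ _).1 h5
    have h7 : ((mis k M a) &&& (mis k M b)).testBit v.1 = true := h6
    rw [Nat.testBit_and, Bool.and_eq_true] at h7
    refine ⟨a, b, ha, hb, ?_⟩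
    intro c hc
    rw [hm c hc]
    constructor
    · intro h8
      by_contra hne
      push Not at hne
      -- sort the three
      have key : ∀ x y z, x < y → y < z → z < n → (mis k M x).testBit v.1 = true →
          (mis k M y).testBit v.1 = true → (mis k M z).testBit v.1 = true → False := by
        intro x y z hxy hyz hz hx hy hz'
        have h9 := (allB_iff _ _).1 ((allB_iff _ _).1 ((allB_iff _ _).1 h3 z hz) y hyz) x hxy
        refine land_zero_testBit h9 (v := v.1) ?_ hz'
        have : ((mis k M x) &&& (mis k M y)).testBit v.1 = true := by
          rw [Nat.testBit_and, hx, hy]; rfl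
        exact this
      rcases Nat.lt_trichotomy c a with h9 | h9 | h9
      · exact key c a b h9 ha hb h8 h7.1 h7.2
      · exact hne.1 h9
      · rcases Nat.lt_trichotomy c b with h10 | h10 | h10
        · exact key a c b h9 h10 hb h7.1 h8 h7.2
        · exact hne.2 h10
        · exact key a b c ha h10 hc h7.1 h7.2 h8
    · rintro (rfl | rfl)
      · exact h7.1
      · exact h7.2

/-! ### soundness of the search -/

theorem Step.symm' (h : strOk k n M L = true) {T : ℕ → Prop} {S : Fin (2^k) → Prop}
    {u v : Fin (2^k)} (hs : Step (nbM k n M) T S u v) : Step (nbM k n M) T S v u := by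
  obtain ⟨⟨c, hc, hx⟩, h1, h2⟩ := hs
  exact ⟨⟨c, hc, nbM_symm h hx⟩, h2, h1⟩

theorem rtg_symm (h : strOk k n M L = true) {T : ℕ → Prop} {S : Fin (2^k) → Prop}
    {u v : Fin (2^k)} (hs : Relation.ReflTransGen (Step (nbM k n M) T S) u v) :
    Relation.ReflTransGen (Step (nbM k n M) T S) v u := by
  induction hs with
  | refl => exact Relation.ReflTransGen.refl
  | tail _ h2 ih => exact Relation.ReflTransGen.head (Step.symm' h h2) ih

/-- the vertices outside the mask `NP` -/
def Out (k NP : ℕ) (v : Fin (2^k)) : Prop := NP.testBit v.1 = false

/-- all the vertices in `S` are reachable from the root and unreserved -/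
def Good (k n : ℕ) (M : ℕ → ℕ → ℕ) (NP : ℕ) (Q : List ℕ) (r : Fin (2^k)) (S : ℕ) : Prop :=
  ∀ v : Fin (2^k), S.testBit v.1 = true →
    NP.testBit v.1 = true ∧ Relation.ReflTransGen (Step (nbM k n M) (fun c => c ∈ Q) (Out k NP)) r v

theorem upd_good (h : strOk k n M L = true) {NP : ℕ} {Q : List ℕ} {r : Fin (2^k)} {S : ℕ}
    (hS : Good k n M NP Q r S) {c i : ℕ} (hc : c ∈ Q) (hcn : c < n) (hi : i < k) :
    Good k n M NP Q r (upd L M NP c i S) := by
  intro v hv
  have e : upd L M NP c i S = S ||| ((flip L i (S &&& (M c i))) &&& NP) := rfl
  rw [e, Nat.testBit_or, Nat.testBit_and, Bool.or_eq_true, Bool.and_eq_true,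
    testBit_flip (strOk_low h) hi _ v.2, Nat.testBit_and, Bool.and_eq_true] at hv
  rcases hv with hv | ⟨⟨h1, h2⟩, h3⟩
  · exact hS v hv
  · have h4 := hS (flp k v i hi) h1
    refine ⟨h3, h4.2.tail ⟨⟨c, hc, ?_⟩, ?_, ?_⟩⟩
    · have h5 := nbM_eq_some h hcn hi (v := flp k v i hi) h2
      rw [h5]
      congr 1
      apply Fin.ext
      simp only [flp]
      rw [Nat.xor_xor_cancel_right]
    · unfold Out; rw [h4.1]; simp
    · unfold Out; rw [h3]; simp

theorem swD_good (h : strOk k n M L = true) {NP : ℕ} {Q : List ℕ} {r : Fin (2^k)} {c : ℕ}
    (hc : c ∈ Q) (hcn : c < n) (i : ℕ) (hi : i ≤ k) (S : ℕ) (hS : Good k n M NP Q r S) :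
    Good k n M NP Q r (swD L M NP c i S) := by
  induction i generalizing S with
  | zero => exact hS
  | succ i ih => exact ih (by omega) _ (upd_good h hS hc hcn (by omega))

theorem swQ_good (h : strOk k n M L = true) {NP : ℕ} {Q : List ℕ} {r : Fin (2^k)}
    (hQ : ∀ c ∈ Q, c < n) (Q' : List ℕ) (hQ' : ∀ c ∈ Q', c ∈ Q) (S : ℕ)
    (hS : Good k n M NP Q r S) : Good k n M NP Q r (swQ k L M NP Q' S) := by
  induction Q' generalizing S with
  | nil => exact hS
  | cons c Q' ih =>
    refine ih (fun x hx => hQ' x (List.mem_cons_of_mem _ hx)) _ ?_
    exact swD_good h (hQ' c (List.mem_cons_self ..)) (hQ c (hQ' c (List.mem_cons_self ..)))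
      k le_rfl S hS

theorem bfs_good (h : strOk k n M L = true) {NP : ℕ} {Q : List ℕ} {r : Fin (2^k)}
    (hQ : ∀ c ∈ Q, c < n) (fuel S : ℕ)
    (hS : Good k n M NP Q r S) (hb : bfs k L M NP Q fuel S = true) : Good k n M NP Q r NP := by
  induction fuel generalizing S with
  | zero =>
    have : S = NP := Nat.eq_of_beq_eq_true hb
    rw [← this]; rwa [this] at hS ⊢
  | succ m ih =>
    unfold bfs at hb
    split at hb
    · next h1 =>
      have : S = NP := Nat.eq_of_beq_eq_true h1
      rwa [this] at hS
    · exact ih _ (swQ_good h hQ Q (fun _ h => h) S hS) hb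

theorem conn_of_bfs (h : strOk k n M L = true) {NP : ℕ} {Q : List ℕ} {r : ℕ} (hr : r < 2^k)
    (hrN : NP.testBit r = true) (hQ : ∀ c ∈ Q, c < n) {fuel : ℕ}
    (hb : bfs k L M NP Q fuel (2^r) = true) :
    Conn (nbM k n M) (fun c => c ∈ Q) (Out k NP) := by
  have hS : Good k n M NP Q ⟨r, hr⟩ (2^r) := by
    intro v hv
    rw [Nat.testBit_two_pow] at hv
    have : v = ⟨r, hr⟩ := Fin.ext (by simpa using hv : r = v.1).symm
    subst this
    exact ⟨hrN, Relation.ReflTransGen.refl⟩
  have hG := bfs_good h hQ fuel _ hS hb
  intro u v hu hv
  have hu' : NP.testBit u.1 = true := by unfold Out at hu; simpa using hu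
  have hv' : NP.testBit v.1 = true := by unfold Out at hv; simpa using hv
  exact (rtg_symm h (hG u hu').2).trans (hG v hv').2

theorem Conn.congr' {V : Type} {nb : ℕ → V → Option V} {T T' : ℕ → Prop} {S S' : V → Prop}
    (hT : ∀ c, T c ↔ T' c) (hS : ∀ v, S v ↔ S' v) (hc : Conn nb T S) : Conn nb T' S' := by
  have h1 : T = T' := funext fun c => propext (hT c)
  have h2 : S = S' := funext fun v => propext (hS v)
  rwa [← h1, ← h2]

theorem p1_of_check (h : strOk k n M L = true) {fuel : ℕ} (hp : p1Ok k n L M fuel = true) :
    P1 n (nbM k n M) := by
  have key : ∀ a b c, a < n → b < a → c < b →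
      Conn (nbM k n M) (fun x => x = a ∨ x = b ∨ x = c) (fun _ => False) := by
    intro a b c ha hb hc
    have h1 := (allB_iff _ _).1 ((allB_iff _ _).1 ((allB_iff _ _).1 hp a ha) b hb) c hc
    have hr : 0 < 2^k := Nat.two_pow_pos k
    have h2 := conn_of_bfs h (NP := full k) (Q := [a, b, c]) hr
      (by rw [full_testBit]; simpa using hr) (by intro x hx; simp at hx; omega) (fuel := fuel)
      (by simpa using h1)
    refine Conn.congr' ?_ ?_ h2
    · intro x; simp
    · intro v
      simp only [Out, full_testBit, v.2, decide_true, iff_false]
      simp
  intro a b c ha hb hc hab hac hbc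
  rcases Nat.lt_trichotomy a b with h1 | h1 | h1
  · rcases Nat.lt_trichotomy a c with h2 | h2 | h2
    · rcases Nat.lt_trichotomy b c with h3 | h3 | h3
      · exact Conn.congr' (by intro x; tauto) (fun _ => Iff.rfl) (key c b a hc h3 h1)
      · exact absurd h3 hbc
      · exact Conn.congr' (by intro x; tauto) (fun _ => Iff.rfl) (key b c a hb h3 h2)
    · exact absurd h2 hac
    · exact Conn.congr' (by intro x; tauto) (fun _ => Iff.rfl) (key b a c hb h1 h2)
  · exact absurd h1 hab
  · rcases Nat.lt_trichotomy a c with h2 | h2 | h2
    · exact Conn.congr' (by intro x; tauto) (fun _ => Iff.rfl) (key c a b hc h2 h1)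
    · exact absurd h2 hac
    · rcases Nat.lt_trichotomy b c with h3 | h3 | h3
      · exact Conn.congr' (by intro x; tauto) (fun _ => Iff.rfl) (key a c b ha h2 h3)
      · exact absurd h3 hbc
      · exact Conn.congr' (by intro x; tauto) (fun _ => Iff.rfl) (key a b c ha h1 h3)

theorem nbM_none_iff {c : ℕ} (hc : c < n) (v : Fin (2^k)) :
    nbM k n M c v = none ↔ (mis k M c).testBit v.1 = true := by
  rw [mis_testBit]
  simp only [v.2, true_and]
  constructor
  · intro h1; exact nbM_none hc h1
  · intro h1
    cases hx : nbM k n M c v with
    | none => rfl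
    | some w =>
      obtain ⟨_, i, hi, h4, _⟩ := nbM_some hx
      rw [h1 i hi] at h4; simp at h4

theorem exists_vertex {a b : ℕ} (hb : Nat.beq (Nat.land (mis k M a) (mis k M b)) 0 = false) :
    ∃ v : Fin (2^k), (mis k M a).testBit v.1 = true ∧ (mis k M b).testBit v.1 = true := by
  have h1 : (mis k M a) &&& (mis k M b) ≠ 0 := by
    intro h
    have h2 : Nat.beq ((mis k M a) &&& (mis k M b)) 0 = true := by rw [h]; rfl
    have h3 : Nat.beq (Nat.land (mis k M a) (mis k M b)) 0 = true := h2
    rw [h3] at hb
    simp at hb
  obtain ⟨v, hv⟩ := Nat.exists_testBit_of_ne_zero h1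
  rw [Nat.testBit_and, Bool.and_eq_true] at hv
  have hv1 := (mis_testBit.1 hv.1).1
  exact ⟨⟨v, hv1⟩, hv⟩

theorem not_allB {p : ℕ → Bool} {n : ℕ} (h : allB p n = false) : ∃ j < n, p j = false := by
  by_contra hne
  push Not at hne
  have : allB p n = true := (allB_iff p n).2 (fun j hj => by simpa using hne j hj)
  rw [this] at h
  simp at h

theorem loA_spec {x : ℕ} (h : loA n (mis k M) x = true) :
    ∃ (v : Fin (2^k)) (y : ℕ), x < y ∧ y < n ∧ (mis k M x).testBit v.1 = true ∧
      (mis k M y).testBit v.1 = true := by
  unfold loA at h
  simp only [Bool.not_eq_true'] at h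
  obtain ⟨y, hy, h1⟩ := not_allB h
  simp only [Bool.or_eq_false_iff] at h1
  have h2 : x < y := by
    have := h1.1
    by_contra hne
    have h3 : Nat.ble y x = true := Nat.ble_eq_true_of_le (by omega)
    rw [h3] at this; simp at this
  obtain ⟨v, hv⟩ := exists_vertex h1.2
  exact ⟨v, y, h2, hy, hv.1, hv.2⟩

theorem hiA_spec {y : ℕ} (h : hiA (mis k M) y = true) :
    ∃ (v : Fin (2^k)) (x : ℕ), x < y ∧ (mis k M x).testBit v.1 = true ∧
      (mis k M y).testBit v.1 = true := by
  unfold hiA at h
  simp only [Bool.not_eq_true'] at h
  obtain ⟨x, hx, h1⟩ := not_allB h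
  obtain ⟨v, hv⟩ := exists_vertex h1
  exact ⟨v, x, hx, hv.1, hv.2⟩

theorem avail_of_check (hp : avOk n (mis k M) = true) : Avail n (nbM k n M) := by
  have key : ∀ a b c, a < n → b < a → c < b →
      (∃ v x y, x < y ∧ y < n ∧ nbM k n M x v = none ∧ nbM k n M y v = none ∧
        (x = a ∨ x = b ∨ x = c)) ∧
      (∃ v x y, x < y ∧ y < n ∧ nbM k n M x v = none ∧ nbM k n M y v = none ∧
        (y = a ∨ y = b ∨ y = c)) := by
    intro a b c ha hb hc
    have h1 := (allB_iff _ _).1 ((allB_iff _ _).1 ((allB_iff _ _).1 hp a ha) b hb) c hc
    simp only [Bool.and_eq_true, Bool.or_eq_true] at h1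
    constructor
    · have : ∃ x, (x = a ∨ x = b ∨ x = c) ∧ loA n (mis k M) x = true := by
        rcases h1.1 with (h | h) | h
        · exact ⟨a, by simp, h⟩
        · exact ⟨b, by simp, h⟩
        · exact ⟨c, by simp, h⟩
      obtain ⟨x, hx, h2⟩ := this
      obtain ⟨v, y, h3, h4, h5, h6⟩ := loA_spec h2
      exact ⟨v, x, y, h3, h4, (nbM_none_iff (by omega) v).2 h5, (nbM_none_iff h4 v).2 h6, hx⟩
    · have : ∃ x, (x = a ∨ x = b ∨ x = c) ∧ hiA (mis k M) x = true := by
        rcases h1.2 with (h | h) | h
        · exact ⟨a, by simp, h⟩
        · exact ⟨b, by simp, h⟩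
        · exact ⟨c, by simp, h⟩
      obtain ⟨y, hy, h2⟩ := this
      obtain ⟨v, x, h3, h5, h6⟩ := hiA_spec h2
      have hyn : y < n := by omega
      exact ⟨v, x, y, h3, hyn, (nbM_none_iff (by omega) v).2 h5, (nbM_none_iff hyn v).2 h6, hy⟩
  intro a b c ha hb hc hab hac hbc
  have fix : ∀ a' b' c', (∀ x, (x = a' ∨ x = b' ∨ x = c') → (x = a ∨ x = b ∨ x = c)) →
      ((∃ v x y, x < y ∧ y < n ∧ nbM k n M x v = none ∧ nbM k n M y v = none ∧
        (x = a' ∨ x = b' ∨ x = c')) ∧
      (∃ v x y, x < y ∧ y < n ∧ nbM k n M x v = none ∧ nbM k n M y v = none ∧
        (y = a' ∨ y = b' ∨ y = c'))) →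
      ((∃ v x y, x < y ∧ y < n ∧ nbM k n M x v = none ∧ nbM k n M y v = none ∧
        (x = a ∨ x = b ∨ x = c)) ∧
      (∃ v x y, x < y ∧ y < n ∧ nbM k n M x v = none ∧ nbM k n M y v = none ∧
        (y = a ∨ y = b ∨ y = c))) := by
    rintro a' b' c' hx ⟨⟨v, x, y, h1, h2, h3, h4, h5⟩, ⟨v', x', y', h1', h2', h3', h4', h5'⟩⟩
    exact ⟨⟨v, x, y, h1, h2, h3, h4, hx x h5⟩, ⟨v', x', y', h1', h2', h3', h4', hx y' h5'⟩⟩
  rcases Nat.lt_trichotomy a b with h1 | h1 | h1
  · rcases Nat.lt_trichotomy a c with h2 | h2 | h2
    · rcases Nat.lt_trichotomy b c with h3 | h3 | h3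
      · exact fix _ _ _ (by intro x; tauto) (key c b a hc h3 h1)
      · exact absurd h3 hbc
      · exact fix _ _ _ (by intro x; tauto) (key b c a hb h3 h2)
    · exact absurd h2 hac
    · exact fix _ _ _ (by intro x; tauto) (key b a c hb h1 h2)
  · exact absurd h1 hab
  · rcases Nat.lt_trichotomy a c with h2 | h2 | h2
    · exact fix _ _ _ (by intro x; tauto) (key c a b hc h2 h1)
    · exact absurd h2 hac
    · rcases Nat.lt_trichotomy b c with h3 | h3 | h3
      · exact fix _ _ _ (by intro x; tauto) (key a c b ha h2 h3)
      · exact absurd h3 hbc
      · exact fix _ _ _ (by intro x; tauto) (key a b c ha h1 h3)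

end

/-! ### the isomorphism with the standard hypercube -/

/-- the coordinates of a vertex -/
def bits (k : ℕ) (v : Fin (2^k)) : Fin k → Bool := fun i => v.1.testBit i

theorem bits_injective (k : ℕ) : Function.Injective (bits k) := by
  intro v w h
  apply Fin.ext
  apply Nat.eq_of_testBit_eq
  intro i
  by_cases hi : i < k
  · exact congrFun h ⟨i, hi⟩
  · have h1 : ∀ u : Fin (2^k), u.1.testBit i = false := fun u =>
      Nat.testBit_lt_two_pow (lt_of_lt_of_le u.2 (Nat.pow_le_pow_right (by norm_num) (by omega)))
    rw [h1, h1]

noncomputable def bitsEquiv (k : ℕ) : Fin (2^k) ≃ (Fin k → Bool) :=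
  Equiv.ofBijective (bits k) ((Fintype.bijective_iff_injective_and_card _).2
    ⟨bits_injective k, by simp⟩)

theorem bitsEquiv_apply (k : ℕ) (v : Fin (2^k)) (i : Fin k) :
    bitsEquiv k v i = v.1.testBit i := rfl

/-- the coded cube is isomorphic to the standard one -/
noncomputable def maskIso (k : ℕ) : maskG k ≃g cube k where
  toEquiv := bitsEquiv k
  map_rel_iff' := by
    intro v w
    show (∃! i, bitsEquiv k v i ≠ bitsEquiv k w i) ↔ (∃ i < k, w.1 = v.1 ^^^ 2^i)
    constructor
    · rintro ⟨i, hi, hu⟩
      refine ⟨i.1, i.2, ?_⟩
      apply Nat.eq_of_testBit_eq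
      intro j
      rw [Nat.testBit_xor, Nat.testBit_two_pow]
      by_cases hj : j < k
      · by_cases hij : i.1 = j
        · subst hij
          simp only [bitsEquiv_apply] at hi
          simp only [decide_true, Bool.xor_true]
          revert hi
          cases v.1.testBit i.1 <;> cases w.1.testBit i.1 <;> simp
        · have h2 : ¬ (bitsEquiv k v ⟨j, hj⟩ ≠ bitsEquiv k w ⟨j, hj⟩) := by
            intro h3
            have := hu ⟨j, hj⟩ h3
            apply hij
            rw [← this]
          push Not at h2
          simp only [bitsEquiv_apply] at h2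
          simp only [hij, decide_false, Bool.xor_false]
          exact h2.symm
      · have h1 : ∀ u : Fin (2^k), u.1.testBit j = false := fun u =>
          Nat.testBit_lt_two_pow (lt_of_lt_of_le u.2 (Nat.pow_le_pow_right (by norm_num) (by omega)))
        have h2 : i.1 ≠ j := by have := i.2; omega
        rw [h1, h1]
        simp [h2]
    · rintro ⟨i, hi, h⟩
      refine ⟨⟨i, hi⟩, ?_, ?_⟩
      · simp only [bitsEquiv_apply]
        rw [h, Nat.testBit_xor, Nat.testBit_two_pow_self]
        cases v.1.testBit i <;> simp
      · intro j hj
        by_contra hne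
        apply hj
        simp only [bitsEquiv_apply]
        have h2 : i ≠ j.1 := fun h3 => hne (Fin.ext h3.symm)
        rw [h, Nat.testBit_xor, Nat.testBit_two_pow]
        simp [h2]

end Pool.Agent.Lib.MP_84d915_co.Check
end

section

/-!
Colour tables of small hypercubes, checked in the kernel.
-/

namespace Pool.Agent.Lib.MP_84d915_co.Small

open Check

set_option maxRecDepth 100000

/-- entry of a table -/
def tab (D : List (List ℕ)) (c i : ℕ) : ℕ := (D.getD c []).getD i 0

def low (D : List ℕ) (i : ℕ) : ℕ := D.getD i 0

def L_1_3 : List ℕ := [0x1]

def M_1_3 : List (List ℕ) :=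
  [[0x0],
   [0x3],
   [0x0]]

theorem str_1_3 : strOk 1 3 (tab M_1_3) (low L_1_3) = true := by decide +kernel
theorem p1_1_3 : p1Ok 1 3 (low L_1_3) (tab M_1_3) 40 = true := by decide +kernel
theorem m2_1_3 : mis2Ok 1 3 (mis 1 (tab M_1_3)) = true := by decide +kernel
theorem m3_1_3 : mis3Ok 3 (mis 1 (tab M_1_3)) = true := by decide +kernel
theorem av_1_3 : avOk 3 (mis 1 (tab M_1_3)) = true := by decide +kernel

def L_2_4 : List ℕ := [0x5, 0x3]

def M_2_4 : List (List ℕ) :=
  [[0x0, 0x5],
   [0xc, 0x0],
   [0x0, 0xa],
   [0x3, 0x0]]

theorem str_2_4 : strOk 2 4 (tab M_2_4) (low L_2_4) = true := by decide +kernel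
theorem p1_2_4 : p1Ok 2 4 (low L_2_4) (tab M_2_4) 40 = true := by decide +kernel
theorem m2_2_4 : mis2Ok 2 4 (mis 2 (tab M_2_4)) = true := by decide +kernel
theorem m3_2_4 : mis3Ok 4 (mis 2 (tab M_2_4)) = true := by decide +kernel
theorem av_2_4 : avOk 4 (mis 2 (tab M_2_4)) = true := by decide +kernel

def L_4_6 : List ℕ := [0x5555, 0x3333, 0xf0f, 0xff]

def M_4_6 : List (List ℕ) :=
  [[0x30, 0x5000, 0xaa00, 0x404],
   [0x3000, 0xa, 0x4411, 0x8080],
   [0xc0cc, 0xa00, 0x1122, 0x0],
   [0x0, 0xa000, 0x44, 0x1919],
   [0x0, 0x555, 0x88, 0x2222],
   [0xf03, 0xa0, 0x0, 0x4040]]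

theorem str_4_6 : strOk 4 6 (tab M_4_6) (low L_4_6) = true := by decide +kernel
theorem p1_4_6 : p1Ok 4 6 (low L_4_6) (tab M_4_6) 40 = true := by decide +kernel
theorem m2_4_6 : mis2Ok 4 6 (mis 4 (tab M_4_6)) = true := by decide +kernel
theorem m3_4_6 : mis3Ok 6 (mis 4 (tab M_4_6)) = true := by decide +kernel
theorem av_4_6 : avOk 6 (mis 4 (tab M_4_6)) = true := by decide +kernel

def L_5_7 : List ℕ := [0x55555555, 0x33333333, 0xf0f0f0f, 0xff00ff, 0xffff]

def M_5_7 : List (List ℕ) :=
  [[0xc0000, 0xa0a0, 0x22220000, 0xc0c00606, 0x9100910],
   [0x300c000, 0xa0000500, 0x110088, 0x0, 0x10661066],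
   [0x300c00, 0x5000000, 0x443300, 0xa0a4040, 0x80818081],
   [0xc0000300, 0xa50000f, 0x11884400, 0x4041010, 0x20002000],
   [0xc000c0, 0x500a5000, 0x88000011, 0x1012828, 0x4000400],
   [0x3c03000c, 0xa00050, 0x8822, 0x101, 0x42004200],
   [0x3033, 0x50a00, 0x44000044, 0x30308080, 0x80008]]

theorem str_5_7 : strOk 5 7 (tab M_5_7) (low L_5_7) = true := by decide +kernel
theorem p1_5_7 : p1Ok 5 7 (low L_5_7) (tab M_5_7) 40 = true := by decide +kernel
theorem m2_5_7 : mis2Ok 5 7 (mis 5 (tab M_5_7)) = true := by decide +kernel
theorem m3_5_7 : mis3Ok 7 (mis 5 (tab M_5_7)) = true := by decide +kernel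
theorem av_5_7 : avOk 7 (mis 5 (tab M_5_7)) = true := by decide +kernel

def L_6_8 : List ℕ := [0x5555555555555555, 0x3333333333333333, 0xf0f0f0f0f0f0f0f, 0xff00ff00ff00ff, 0xffff0000ffff, 0xffffffff]

def M_6_8 : List (List ℕ) :=
  [[0x330300f0f000003, 0x5000005000aa50f0, 0x440000002200, 0x404000050500000, 0x80008000040004, 0x2001880020018800],
   [0xc0000000030, 0x50000a000500000, 0x8800000000008888, 0x101000000d0d0404, 0x2040204032003200, 0x4082410140824101],
   [0x3003c000000c0c00, 0x50000550000000, 0x110088001100, 0x8888202000008080, 0x600060000310031, 0xa0000000a],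
   [0xc00c000c00000, 0xa50a0a050505, 0x3300000011220000, 0x4040101000006060, 0x820082080008000, 0x410020004100200],
   [0x3000c0c0, 0xa00a0000000a00, 0x4400002200000000, 0x202c0c000000101, 0xd000d000a000a, 0x8940101089401010],
   [0x30300, 0xaa0000000500a00a, 0xcc220022000011, 0x101010180800000, 0x12001240404040, 0x2004a4002004a4],
   [0xc00000000300000, 0xa0000000, 0x33005544004466, 0xa0a00001818, 0xd100d10000800080, 0x20c2000020c2000],
   [0xc0c00330c000300c, 0xf500000000000, 0x888800dd0000, 0x2020040422220202, 0xd000d00, 0x1000004010000040]]

theorem str_6_8 : strOk 6 8 (tab M_6_8) (low L_6_8) = true := by decide +kernel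
theorem p1_6_8 : p1Ok 6 8 (low L_6_8) (tab M_6_8) 40 = true := by decide +kernel
theorem m2_6_8 : mis2Ok 6 8 (mis 6 (tab M_6_8)) = true := by decide +kernel
theorem m3_6_8 : mis3Ok 8 (mis 6 (tab M_6_8)) = true := by decide +kernel
theorem av_6_8 : avOk 8 (mis 6 (tab M_6_8)) = true := by decide +kernel

def L_7_9 : List ℕ := [0x55555555555555555555555555555555, 0x33333333333333333333333333333333, 0xf0f0f0f0f0f0f0f0f0f0f0f0f0f0f0f, 0xff00ff00ff00ff00ff00ff00ff00ff, 0xffff0000ffff0000ffff0000ffff, 0xffffffff00000000ffffffff, 0xffffffffffffffff]

def M_7_9 : List (List ℕ) :=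
  [[0x30000000003000000c0003000000000, 0xf000000000000a00000a005005, 0x880022440000000000002200, 0x202303080800000080845450808, 0x28082808000000000304030480108010, 0x4444401044444012000004220000042, 0x50118000008001205011800000800120],
   [0xc0000330330000003000c000c000000c, 0xa0000000a0005a00000000, 0x444400110088cc00000000000011, 0x11110808404041410000040410100000, 0x820082000000000000000020002000, 0x800100008001000024208a0024208a0, 0xc2001040c8602000c2001040c8602],
   [0xc00c00c0c00033c0000000000, 0xa00a0005a0a000000000005a00a0000, 0xaa11220000111100cc0088440000aa, 0x40400000050520200000000000001010, 0x1000100000000c000c00001440144, 0x20000240200002401820020018200200, 0x1000010001000000100001000100000],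
   [0xc3000c0330c00c00c3000c00c3, 0x50a00000000a0000a00500, 0xaa00000000000000000011000000, 0x82821414808008082121202002022020, 0x200020040204020000000048004800, 0x51000000510000000010900400109004, 0xc404108000100000c40410800010000],
   [0xf0000c0000000330000c00003c00, 0x50a00000a00500005005550000550000, 0x4400000000cc000000002288000000, 0x20200000000000000004040, 0x700070010a010a00000000002a202a2, 0x180012001800120400001004000010, 0xa00208c001000005a00208c001000005],
   [0xccc0000000030000000000000300000, 0x500050005050000000005000a00, 0x6600222200ee0000884400, 0x20202020080800004c4c000000008080, 0x401040104000400000b200b210001000, 0x82010880820108808001010180010101, 0x1004200000580000100420000058],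
   [0xc00c000c0c00000000000c0c000, 0xa00000000000aa0000000500000f0, 0x66110099008800001111111122110000, 0x4040000004040202c0c008080303, 0x90049004231123110c000c0004000400, 0x20000000200004200800042008, 0xa002020022180000a0020200221800],
   [0x30000000000000030c00030000030330, 0x555000f00005a50005000000000a000, 0x88000000000000000000004400000000, 0x20200404, 0xc000c3009300900080008, 0x22a1000022a1000180400001804000, 0x2000420da40008002000420da400080],
   [0x33000000300000000000003f000000, 0xa0005a00000000a00f00a0a00000000a, 0x11000000770000000022000000669944, 0xc0c8181000012129090131380800000, 0x400040884088400040004000010001, 0x80000c0080000c4008040040080400, 0x60000000000000006000]]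

theorem str_7_9 : strOk 7 9 (tab M_7_9) (low L_7_9) = true := by decide +kernel
theorem p1_7_9 : p1Ok 7 9 (low L_7_9) (tab M_7_9) 40 = true := by decide +kernel
theorem m2_7_9 : mis2Ok 7 9 (mis 7 (tab M_7_9)) = true := by decide +kernel
theorem m3_7_9 : mis3Ok 9 (mis 7 (tab M_7_9)) = true := by decide +kernel
theorem av_7_9 : avOk 9 (mis 7 (tab M_7_9)) = true := by decide +kernel

def L_8_10 : List ℕ := [0x5555555555555555555555555555555555555555555555555555555555555555, 0x3333333333333333333333333333333333333333333333333333333333333333, 0xf0f0f0f0f0f0f0f0f0f0f0f0f0f0f0f0f0f0f0f0f0f0f0f0f0f0f0f0f0f0f0f, 0xff00ff00ff00ff00ff00ff00ff00ff00ff00ff00ff00ff00ff00ff00ff00ff, 0xffff0000ffff0000ffff0000ffff0000ffff0000ffff0000ffff0000ffff, 0xffffffff00000000ffffffff00000000ffffffff00000000ffffffff, 0xffffffffffffffff0000000000000000ffffffffffffffff, 0xffffffffffffffffffffffffffffffff]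

def M_8_10 : List (List ℕ) :=
  [[0x333030000000333303000f0000000c30000f00000300000c0003000000000cf, 0x50000000a000050000000a0a00000000000aa0000000000000000, 0x88aa00008888004400000000000044110022220044002200880088000000, 0x808000000000000010101010000202008080808010100000404020200000000, 0x2000200000400040000000000818081801000100100010000070007020102010, 0x14804000148040008200c2008200c20000000000000000000188000001880000, 0x4000100401201004400010040120100410020004004489001002000400448900, 0x40441c8082000080004080003040000040441c80820000800040800030400],
   [0xc00000cc000cc000000300000cc00000000030000000000000300c000000000, 0xa0000050a000a0000005a05000a0a0000000500000a000000a0000000a0a5, 0x44110000440000000000000000000000004400000011995500002200440000, 0x2020020230300000383800000000848450500000101000000000010108080808, 0x810081010401042001200100800080440444040000000000000000, 0x20000000200000020000000200002228a0022228a0020200440002004400, 0x820044a008000110820044a00800011008041008008300000804100800830000, 0x10100100000004000c00800d0101040010100100000004000c00800d0101040],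
   [0xc0000c00030000000c0000000300c00000000003000000000000030000000030, 0x5050000005a00000000000005aaaa000500000050000a055055500, 0x2200000000110088000000aa000088000044000000000066000000000000, 0x404515188880000000006060000101021210000000000000000040480808080, 0x800080000000000000000004000400000000008a098a098009800902000200, 0x2021800020218000200009802000098044000500440005000010000000100000, 0x1152000040040248115200004004024802804010202000400280401020200040, 0x8100200a4400010000840200200000008100200a44000100008402002],
   [0x30c0000000003000000000300000c0000030000000000000000000000, 0xa00000000000000a00000000000a0000000050050005005aa0000000a000000, 0x110000003300000000000044aa00000022000000002222000000441111000000, 0x2828040498980101000000005050848400000000080800005252, 0x8004800480008000000000005020502000200020001000100084008480808080, 0x4040115040401150004004030040040300400088004000884062010040620100, 0x80200000920080008020000092008005118002000800200511800200080020, 0x2080000010402100802200404000c0002080000010402100802200404000c],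
   [0xc00000000000c3030003000000000000000c0003c00300fc00000, 0x5000000000a000000000000000000000005a0500000000005000000a0000, 0x44110011cc002200110000004400000000000000880000000000000000118800, 0x424240400202020202028080000020200303000020202121, 0x86008600012001208a008a00040004000040004000000002800280000000000, 0x100040c0100040c000810000008100010104001101040011000004410000044, 0x40100000108010004010000010801400007000000061a400007000000061a, 0xa088200022a091008400800300004080a088200022a091008400800300004080],
   [0x300000000003000000000003cc00000030f00030300c030000000000c000cf00, 0x500005f0000a0555000000000050000a0000000a000000500f0f0000000000, 0x22000000880000002233880000004400001188000000000000000000000000, 0x8080202000004040808000001010090900000000404054548080000000000000, 0x4508450800200020004000400200020004000400008000800000000000470047, 0x204008202040082000400200004002080030800800308002c0010882c001088, 0x801080000408400080108000040840000002041000020000000204100002000, 0x8200051000000210401401a8001000008200051000000210401401a80010],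
   [0xcc0000c0000003000c0f00000cc0c0003f30000000003c0000, 0x55000f5000000500000005050af005a0000500000005a50000f0000500000000, 0x220022cc0000000000221100aa8811110000000000000000000099, 0x202808041411010000020200404000000000000020200000808404043430000, 0x22002200121812188000800050005000000000000400040014001400, 0x818000008180000010000400100004000000240000002400000222200002222, 0x2020000200000000202000020000000080000000080000008000000008000000, 0x40002000004800000500802000080000400020000048000005008020000800],
   [0xc000f00000c00000000000000000000cc0000330000000cc0300000000, 0xaa05a00000500505500500000000000000000000000000a, 0x888844000000000000000000110011000000000044880022000033cc66227700, 0x4040000004040505000000006868000000000101202089892020000010100000, 0x12031203180018002401240100820082a202a202004000400000000008000800, 0x2000000020001000040010000408040010080400100004001000040010, 0x801882006000000080188200600000480020810000040048002081000004, 0x30000400000200010200000000002100300004000002000102000000000021],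
   [0x300030000300030000000000c00300000c0000000000000c00000000, 0xa5a0aa0000005000500000a00a000000000000a00a005000000000a0a00a50, 0x22000044000000000000cc220000cc0000440000004488008888000000000022, 0x2028080000000000000000000002222000002025050303004040404, 0x100010450c450c000000000004000400000000002000200302030200080008, 0x80000a0080000a00548120185481201801800004018000040001800100018001, 0x8000100000022000800010000002200000880501050000000088050105000, 0x1c0051000000000120200040020001001c005100000000012020004002000100],
   [0xccf0300000000000cc0c0000003c00000000000000cc000fc0000030033000, 0xa00000000aa0a000000000a0000000050000000000a000000000005a00500000, 0x11554422110011005500aa11002200001100440011000000880044, 0x11110c0c00000202000000008080404084840404080800000000808000000000, 0xc002c0020100010008590859210221025000500041204120, 0x2000100020001082000000820000000001020000010208000080080000800, 0x400024034080000040002403408000020200000060000812020000006000081, 0x4200008200440018000021000000820042000082004400180000210000008200]]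

theorem str_8_10 : strOk 8 10 (tab M_8_10) (low L_8_10) = true := by decide +kernel
theorem p1_8_10 : p1Ok 8 10 (low L_8_10) (tab M_8_10) 40 = true := by decide +kernel
theorem m2_8_10 : mis2Ok 8 10 (mis 8 (tab M_8_10)) = true := by decide +kernel
theorem m3_8_10 : mis3Ok 10 (mis 8 (tab M_8_10)) = true := by decide +kernel
theorem av_8_10 : avOk 10 (mis 8 (tab M_8_10)) = true := by decide +kernel

def L_9_11 : List ℕ := [0x55555555555555555555555555555555555555555555555555555555555555555555555555555555555555555555555555555555555555555555555555555555, 0x33333333333333333333333333333333333333333333333333333333333333333333333333333333333333333333333333333333333333333333333333333333, 0xf0f0f0f0f0f0f0f0f0f0f0f0f0f0f0f0f0f0f0f0f0f0f0f0f0f0f0f0f0f0f0f0f0f0f0f0f0f0f0f0f0f0f0f0f0f0f0f0f0f0f0f0f0f0f0f0f0f0f0f0f0f0f0f, 0xff00ff00ff00ff00ff00ff00ff00ff00ff00ff00ff00ff00ff00ff00ff00ff00ff00ff00ff00ff00ff00ff00ff00ff00ff00ff00ff00ff00ff00ff00ff00ff, 0xffff0000ffff0000ffff0000ffff0000ffff0000ffff0000ffff0000ffff0000ffff0000ffff0000ffff0000ffff0000ffff0000ffff0000ffff0000ffff, 0xffffffff00000000ffffffff00000000ffffffff00000000ffffffff00000000ffffffff00000000ffffffff00000000ffffffff00000000ffffffff,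 0xffffffffffffffff0000000000000000ffffffffffffffff0000000000000000ffffffffffffffff0000000000000000ffffffffffffffff, 0xffffffffffffffffffffffffffffffff00000000000000000000000000000000ffffffffffffffffffffffffffffffff, 0xffffffffffffffffffffffffffffffffffffffffffffffffffffffffffffffff]

def M_9_11 : List (List ℕ) :=
  [[0x3c0000c0000000000000030000300030000000000000000c000000000000000000c0c0003003c0000300000000003000300000c0000300000000030f30c000c3, 0x500000000a005a00000000050000a000000a000a0a000000500a0005000000000000000050000000000a0a000000a05500000505005000000000a0a5a00, 0x880000001100110000440044cc000000003311008844000000001100440044aa00000000cc0000000000000000000000000000000000000022000044000000, 0x1010000000004041212808000000404040400000202000002028282000000000101000000000808606002024040c0c000000202202022220000404000000000, 0x20002021082108000c000c80008000808080800011001100240024000300030020002000100010000000000c040c0485208520890889088400840000040004, 0x28000000280000801080208010802010000000100000008880808088808080000208000002080000201380002013800800000008000000000000000000000, 0x40002010020000404000201002000040501100004000010050110000400001001400044400000201140004440000020100000010000000000000001000000000,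 0x40480008441000a0400040110002000040480008441000a0400040110002004018000142000000089928800111000040180001420000000899288001110000, 0x4120a8400000200001001000000000002000414000040000010000000a0300004120a8400000200001001000000000002000414000040000010000000a030],
   [0xc000c0000f00000000330000030000000330000000c0000000000000000030000030330000000c0000c0300000cc000000000000000cc00c000c0000000c3000, 0x500000050a000a00000000000005050000f50000a000000f5000500000005000500a00500a0a00005050000000a000000000000a000005000a00a000005a0, 0x11000000008800440000000000000000000000000000002200000000888800000000001100001100110000004400000011001100000033000000000000000011, 0x808141400000202000000003434040400001010646400000202000080800000000080800101000084840000010100008080101001010202, 0x24002404000400000400040100110010004000409000900020002000210021004480448404440440a200a201000100040084008001000100100010000000000, 0x20201400202014000080002800800028000050010000500100000100000001000000000000000000001000010010000100020402000204020040000000400000, 0x4000903800408000400090380040800a000000200010080a000000200010080800040020a00001a800040020a00001a023002a596000800023002a596000800,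 0x8200a8000002181100200000020400008200a80000021811002000000204002000080000000000000200000022804420000800000000000002000000228044, 0x400020001400000002000210008400000000000000c000800000040080000000400020001400000002000210008400000000000000c00080000004008],
   [0xc000000000c000000000c0003000c000f00030000c0000c00000000000000033003003c03000c000000000c0000000000000003000000000c0000000, 0xa000000505050000f0aa00000000050000000000500f0000000000f0000f0000000000a00000a0000050000000a000a000a00000a000000000005f00000, 0xcc0000440044aa2200000011001100338822000000000088004400004400441100220088bb008822441100220088000022114400880044002288994400000022, 0x202022220000000000004444000000002222000002020000040480800a0a0000040400000000000018180000242400009191000000004444000000000d0d, 0x10901090000000008000800000000000000000000000000000030003316031600000000000000000000000008111811108000800008000800022002202000200, 0x1000000010120204001202040000400440004004400008000000080000481100004811000002002000020020010440000104400001801401018014010, 0x22060000180805802206000018080580010011100200000001001110020000000040210040004000004021004000400000002000200010400000200020001040,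 0x90400018100000008400000000004000904000181000000084000000000040100020000002004010004000004000001000200000020040100040000040000, 0xc00000000008000000800002180044800000002a000100100200000000800000c00000000008000000800002180044800000002a00010010020000000080],
   [0x300003003f00f0c00cc003c000000c0c00000000000000030cc00c0000fc000000c0003000033000000f003030c000030000030003000f303c00003000c00, 0x5a00000000000000000000000f00505000000a500000000000a000000a0a00000a0000000055000f000000a000050a0f50000000000000a00a0000000000000, 0x882200000000224400660000000000000000aa44005599002200111100004444000000000088000055000000001100000000000000110000008800990000, 0x5050545448480000000000000000a0a031311010000000000000000008080000000000000000000003030000101000000000202002020000000003032020a0a0, 0x20082008001000101110111002080208040204021020102000000000000000002310231080008000000000002000200002810281002400240810081010021002, 0x401800004018000020000000200000008220800082208020010000200100018020004180200040c8400000c84000000004000000040000000000000000000, 0x80000000010000008000000001000000000400400002400200040040000240020008800000280000000880000028000000441400480000000044140048000000,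 0x8000000040004000080008900040000080000000400040000800089000400000000004a0450064000000004800003080000004a045006400000000480000308, 0x1008008000020000040000042000088000100888000000020044000040000000100800800002000004000004200008800010088800000002004400004],
   [0xc0000f00000030000000cc000f000c00030000000000003000000c000300000c000000000000000000000c0000030c00c00c0000000c000000000000000000, 0xf000000a0a000000000000aa00000000000a00000a00000a0055000000000a000000000a05000a00000000005000000000a50a00000a00000000000000, 0x110000000000000000000000cc881122110000000022000000000000002200110000000000009900000000000000000000005500440022000000, 0x1010000000000009090101000000000000000004949000000003030000000000000000010104040040400000101000010100000202000000c0c4040, 0x48004800008400844800480040004000204020400084008484008400800c800c500150010400040000000000002000202006200640014001000d000d00010001, 0x8000000080000000040005010400050184000010840000100000408000004080030001400300014002000000020000000a0001480a0001488000080080000800, 0x100912000020000010091200002000000000000100000c000000000100000c0000a0080020c0800000a0080020c0800000000000000080260000000000008026,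 0x22001006010c041022000002a000042022001006010c041022000002a0000428000809000240080000002004000140080008090002400800000020040001400, 0x100400100820008044a0300000008010181220004002000002214000b0010000100400100820008044a0300000008010181220004002000002214000b00100],
   [0x300300000000000330000000000000300000030000c03c00000000000000000000300000000000cc00c0c03003000300f03300c033000030000000000300000, 0xa000000055000500000000a000000000a000000a00000000000000000a0000000a50005f000000000000500000000500000000000000000000000a0000000000, 0x3300000022008800880000220000cc000000440011000022220088000000880088440044004400002200440044000000000033000000000011000000006600, 0x4040b0b00000000000000000808000002020000c0c0101000002121000041410404000010101010000000000000000020204040404040400202000040400000, 0x800180010402040205000500480048000400040000500050000000008000800002020202018001800002000200000000140014002000200081008100, 0x80405000804050800400008004000000000000000000000400000404000004002008000020080000012000000120000000088000000880008010e4008010e4, 0x8008004000012200800800400001220008880001020802000888000102080202000022081000000200002208100000040080100000500184008010000050018,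 0x10000000020008024001120040502810100000000200080240011200405028101000000000880120044080183e0800011000000000880120044080183e080001, 0x284000000010000000004000000404000800200491044402000200000000000028400000001000000000400000040400080020049104440200020000],
   [0xc0000003000c0c0003030c0c003c000000000030000000303300000ccc00c000000000c0c0000003000000c00000000000000000003000000000000000000, 0xa00a000000f0005005a00050a0a00000000a00000f050000000005a00000a0000000500005000000000aaa0005a0005000000000a0000a00000050000050055, 0x4488000000000000008800000000000000004400aa0000004400002200000011220000220000008800000000000000220000448800440000003388000000, 0x2020000000000000000c0c000000000000004040000010100000000c0c000002626000004042020000048480000000010100000000000000000, 0x1c001c000200020000200020012801280000000000800080040004000800080000000000400040004280428000000000000000001080108040084008, 0x4000000040000000100040001000400010030480100304806010002060100020600000106000001080000002800000020010a0000010a0002220a2002220a200, 0xa000002000200000a0000020002000080008000800004008000800080000400202100910001040020210091000104080010848014204008001084801420400,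 0x4101244800000200000810000001001041012448000002000008100000010010084002480010801000400000000082000840024800108010004000000000820, 0x814000000300c1002d01004001018018220040132004000a0040000410000002814000000300c1002d01004001018018220040132004000a0040000410000002],
   [0xc00000c0c000000000000003000000c0c0000000000c000003000000000c30000cc00000000000000000000c00300000003c00000000c0000000000c000, 0x500000000a000000000000000000000005000000550000000a000000005000aa00000000a0000000055000505f0000000000a0a000000050005f505050000000, 0x220000001100000000002200880088002200000000000000008899000000220000008800000000118800aa000022114444cc0044222288880000000000661188, 0x808000080802121a0a0080821210101000000000000080820200000000004041818111102020000000000000000080802020000040400000000808000000000, 0x1050105000000000001000100840084000100012200220000000000080008000000000000a800a8100410040000000000100010000000000000000008000800, 0x500200005002004208000042080000005080000050800011010000110100000044020200440202000804800008048001000200010002000100040001000400, 0xe00402401a000000e00402401a000060840088101100006084008810110001000000002000000100000000200010000000009020011000000000902001,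 0x12002000000414040000000000000000120020000004140400000000000000440018001000620000210000001000004400180010006200002100000010, 0x4222000400100440000410200500020802001080001452000000008a200004004222000400100440000410200500020802001080001452000000008a2000040],
   [0x300000000000030000c330033000000000f0000300000000000c000000c030300f0000000000000300cc000c00000303000030000, 0xaa00000000a0550005500000000a5000000000a000500f000000005000000aa0050000000000000000000000000a000005005050005000000a000000a, 0x330044000000440000000000110055000022000000000000000000008800110000440000224400000011000000000000aa00000000008800000000008800, 0x8282808000004040000000000000404008080808000080801010080810100000000000002c2c0000808000000a0a0202101000000000000010100c0c10101010, 0x4000400022202222000200028022802000000004040404000000000000000000082008201000100200020000000000000000000220022000240024004600460, 0x8000800080008000000820000008200020001000200010000000042000000428000440180004401004080400040804080080004800800040000010000000100, 0x150000000d000010150000000d0000100400600a004000000400600a00400000014000000110820001400000011082000024002000000000002400200000000,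 0x1100820040002003400210088000000011008200400020034002100880e4111000000801a00000000008060800e4111000000801a0000000000806080, 0x60080030000010801008080800040404000000c00000000060a900814008020160080030000010801008080800040404000000c00000000060a9008140080201],
   [0x330000000000000000000000c000000030300000000000c03000000000030000000c000000000000000000000000000c30000000000003000000c000000, 0x50000500a0000000000050000500aa000a00000005000500000000000000500500000000a0005000a0000000050000005000500000a000a00000a500000000, 0xaa0044009933990011222200000000000000000000110044220011220000110000000000004400000000aaaa88000000005500220044220011000044, 0x202000000000101044442020000000000000c4c40000606080800000000080804040202000008080000001018080000000000c0c808004040909000082820000, 0x8002800200400040008000800050005010101010800a800a58005800000000000004000438013801841a841a0040004010001000000000004000400020102010, 0x1509200815092008000000000000000068a0080068a0080000622401006224010008000800080008710050007100500060000001600000010000000a0000000a, 0x4400000080040000440000008004060000280510020006000028051002000800008000000504080000800000050404800000002803800480000000280380,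 0x40000000001800000000280804000000400000000018000000002808040000022000001024000000000400000000000220000010240000000004000000000, 0x2800800001402200200020406080001010120000000101000008010000408000280080000140220020002040608000101012000000010100000801000040800],
   [0x30000000c00300000c0000000000000c0000cc0000cc0000c0000330300003000c0000000030000000000000000000c00c00000000000000c00cc00000033c, 0xa5000000000000000a000000000000000500000000050000000a000000000000050000a00000a000000000000a00000000f0500000000000000000000a000, 0x44001100000000000000000000440000dd00000000000044000000000000000000000000000000220000882211440000000088110000000000000000000000, 0x14148888010143430202080800000101090901010000404002020000a0a00a0a414141410c0c20200000111100000000080889890000202000000000, 0x20002000000000020002000000000021082108408040800000000000000000004100410008000800400040004200420000000000800080, 0x200002602000026205010942050109400000022000000228004021080040210001080200010802000000804000008040421103004211030441e0001441e0001, 0x8400100000000000840010000002200000040200c002200000040200c4100001004060080410000100406008029008000000040002900800000004000,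 0xe100a000000200000800080004088120e100a0000002000008000800040881200000200020000000902051020040000200002000200000009020510200400002, 0x180101c0002004100082040098a0020000000000c29000000200000009011400180101c0002004100082040098a0020000000000c29000000200000009011400]]

theorem str_9_11 : strOk 9 11 (tab M_9_11) (low L_9_11) = true := by decide +kernel
theorem p1_9_11 : p1Ok 9 11 (low L_9_11) (tab M_9_11) 40 = true := by decide +kernel
theorem m2_9_11 : mis2Ok 9 11 (mis 9 (tab M_9_11)) = true := by decide +kernel
theorem m3_9_11 : mis3Ok 11 (mis 9 (tab M_9_11)) = true := by decide +kernel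
theorem av_9_11 : avOk 11 (mis 9 (tab M_9_11)) = true := by decide +kernel

def L_5_5 : List ℕ := [0x55555555, 0x33333333, 0xf0f0f0f, 0xff00ff, 0xffff]

def M_5_5 : List (List ℕ) :=
  [[0x3030, 0x50aa0005, 0xaa11cc88, 0x4040202, 0x1400140],
   [0x300c000, 0xa0000f0a, 0x44660044, 0x8082020, 0x10911091],
   [0x30ff0c0f, 0xf0000f0, 0x3300, 0x0, 0xc000c000],
   [0xcc0003c0, 0x55f000, 0x11880033, 0x22220c0c, 0x0],
   [0x0, 0x0, 0x0, 0xd1d1d1d1, 0x2e2e2e2e]]

theorem str_5_5 : strOk 5 5 (tab M_5_5) (low L_5_5) = true := by decide +kernel
theorem p1_5_5 : p1Ok 5 5 (low L_5_5) (tab M_5_5) 40 = true := by decide +kernel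
theorem tot_5_5 : allB (fun c => Nat.beq (orB (tab M_5_5 c) 5) (full 5)) 5 = true := by decide +kernel

end Pool.Agent.Lib.MP_84d915_co.Small
end
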