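import Pool.Agent.Lib.MP_84d915_co.Defs
import Pool.Agent.Lib.MP_84d915_co.Col
import Pool.Agent.Lib.MP_84d915_co.LabInv
import Pool.Agent.Lib.MP_84d915_co.SmallData
import Pool.Agent.Lib.MP_84d915_co.Base12

section

section

/-!
Lower bound `3 ≤ k` (Laufer): the union of two perfect matchings cannot always be connected.
-/

namespace Pool.Agent.Lib.MP_84d915_co

open Equiv

/-- Partner function of a 1-factor. -/
theorem exists_partner {d : ℕ} {M : Set (Sym2 (Fin d → Bool))} (h : IsOneFactor d M) :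
    ∃ s : (Fin d → Bool) → (Fin d → Bool), (∀ v, s(v, s v) ∈ M) ∧
      ∀ v w, s(v, w) ∈ M → w = s v := by
  have h1 : ∀ v, ∃ w, s(v, w) ∈ M ∧ ∀ w', s(v, w') ∈ M → w' = w := by
    intro v
    obtain ⟨e, ⟨he, hv⟩, hu⟩ := h.2 v
    obtain ⟨w, rfl⟩ := Sym2.mem_iff_exists.1 hv
    refine ⟨w, he, fun w' hw' => ?_⟩
    have := hu s(v, w') ⟨hw', Sym2.mem_mk_left v w'⟩
    rw [Sym2.eq_iff] at this
    rcases this with ⟨_, h⟩ | ⟨h1, h2⟩
    · exact h
    · rw [h2, h1]
  choose s hs hs' using h1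
  exact ⟨s, hs, hs'⟩

/-- Parity of a vertex. -/
def par {d : ℕ} (v : Fin d → Bool) : ZMod 2 := ∑ i, if v i then 1 else 0

theorem par_adj {d : ℕ} {v w : Fin d → Bool} (h : (cube d).Adj v w) : par w = par v + 1 := by
  obtain ⟨i, hi, hu⟩ := h
  have h1 : par v + par w = 1 := by
    unfold par
    rw [← Finset.sum_add_distrib, Finset.sum_eq_single i]
    · revert hi
      cases v i <;> cases w i <;> simp
    · intro j _ hj
      have : v j = w j := by
        by_contra h
        exact hj (hu j h)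
      rw [this]
      cases w j <;> decide
    · intro h
      exact absurd (Finset.mem_univ i) h
  have h2 : par v + par v = 0 := CharTwo.add_self_eq_zero _
  calc par w = (par v + par w) + par v + (- (par v + par v)) := by ring
    _ = par v + 1 := by rw [h1, h2]; ring

/-- Bijection between the vertices of even and of odd parity given by a 1-factor. -/
def matchEquiv {d : ℕ} {M : Set (Sym2 (Fin d → Bool))} (h : IsOneFactor d M)
    (s : (Fin d → Bool) → (Fin d → Bool)) (hs : ∀ v, s(v, s v) ∈ M)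
    (hs' : ∀ v w, s(v, w) ∈ M → w = s v) :
    {v : Fin d → Bool // par v = 0} ≃ {v : Fin d → Bool // par v = 1} where
  toFun v := ⟨s v.1, by
    have := par_adj (h.1 (hs v.1))
    rw [this, v.2, zero_add]⟩
  invFun v := ⟨s v.1, by
    have := par_adj (h.1 (hs v.1))
    rw [this, v.2]
    decide⟩
  left_inv v := by
    apply Subtype.ext
    have : s(s v.1, v.1) ∈ M := by
      rw [Sym2.eq_swap]
      exact hs v.1
    exact (hs' _ _ this).symm
  right_inv v := by
    apply Subtype.ext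
    have : s(s v.1, v.1) ∈ M := by
      rw [Sym2.eq_swap]
      exact hs v.1
    exact (hs' _ _ this).symm


theorem sign_of_sameCycle {E : Type*} [Fintype E] [DecidableEq E] (f : Perm E)
    (h : ∀ u w, f.SameCycle u w) (hE : 2 ≤ Fintype.card E) (he : Even (Fintype.card E)) :
    Perm.sign f = -1 := by
  have hne : ∀ x, f x ≠ x := by
    intro x hx
    have : Nontrivial E := Fintype.one_lt_card_iff_nontrivial.1 hE
    obtain ⟨y, hy⟩ := exists_ne x
    obtain ⟨i, hi⟩ := h x y
    rw [Perm.zpow_apply_eq_self_of_apply_eq_self hx] at hi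
    exact hy hi.symm
  have hsupp : f.support = Finset.univ := by
    ext x
    simp [hne x]
  obtain ⟨x⟩ : Nonempty E := Fintype.card_pos_iff.1 (by omega)
  have hc : f.IsCycle := ⟨x, hne x, fun y _ => h x y⟩
  rw [hc.sign, hsupp, Finset.card_univ, he.neg_one_pow]

theorem sameCycle_of_connected {d : ℕ} {M N : Set (Sym2 (Fin d → Bool))}
    (hM : IsOneFactor d M) (hN : IsOneFactor d N)
    {s t : (Fin d → Bool) → (Fin d → Bool)} (hs : ∀ v, s(v, s v) ∈ M)
    (hs' : ∀ v w, s(v, w) ∈ M → w = s v) (ht : ∀ v, s(v, t v) ∈ N)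
    (ht' : ∀ v w, s(v, w) ∈ N → w = t v)
    (hc : (SimpleGraph.fromEdgeSet (M ∪ N)).Connected)
    (u w : {v : Fin d → Bool // par v = 0}) :
    Perm.SameCycle ((matchEquiv hM s hs hs').trans (matchEquiv hN t ht ht').symm) u w := by
  set e := matchEquiv hM s hs hs' with he
  set f := matchEquiv hN t ht ht' with hf
  have key : ∀ x y : Fin d → Bool, (SimpleGraph.fromEdgeSet (M ∪ N)).Reachable x y →
      ∀ hx : x = u.1, (∀ hy : par y = 0, Perm.SameCycle (e.trans f.symm) u ⟨y, hy⟩) ∧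
        (∀ hy : par y = 1, Perm.SameCycle (e.trans f.symm) u (f.symm ⟨y, hy⟩)) := by
    intro x y hxy hx
    rw [SimpleGraph.reachable_iff_reflTransGen] at hxy
    induction hxy with
    | refl =>
      subst hx
      refine ⟨fun hy => ?_, fun hy => ?_⟩
      · exact Perm.SameCycle.refl _ _
      · rw [u.2] at hy
        exact absurd hy (by decide)
    | @tail y z _ hyz ih =>
      rw [SimpleGraph.fromEdgeSet_adj] at hyz
      obtain ⟨hyz, _⟩ := hyz
      have hadj : (cube d).Adj y z := by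
        rcases hyz with h | h
        · exact hM.1 h
        · exact hN.1 h
      have hp := par_adj hadj
      refine ⟨fun hz => ?_, fun hz => ?_⟩
      · -- y odd
        have hy : par y = 1 := by
          rw [hz] at hp
          have : par y = 0 - 1 := by rw [hp]; ring
          rw [this]; decide
        have ih2 := ih.2 hy
        rcases hyz with h | h
        · -- y = s z
          have h2 : y = s z := hs' _ _ (by rw [Sym2.eq_swap]; exact h)
          have h3 : f.symm ⟨y, hy⟩ = (e.trans f.symm) ⟨z, hz⟩ := by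
            rw [Equiv.trans_apply]
            congr 1
            exact Subtype.ext h2
          rw [h3] at ih2
          exact Perm.sameCycle_apply_right.1 ih2
        · have h2 : y = t z := ht' _ _ (by rw [Sym2.eq_swap]; exact h)
          have h3 : f.symm ⟨y, hy⟩ = ⟨z, hz⟩ := by
            rw [Equiv.symm_apply_eq]
            exact Subtype.ext h2
          rw [h3] at ih2
          exact ih2
      · have hy : par y = 0 := by
          rw [hz] at hp
          have : par y = 1 - 1 := by rw [eq_sub_iff_add_eq]; exact hp.symm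
          rw [this]; decide
        have ih1 := ih.1 hy
        rcases hyz with h | h
        · have h2 : z = s y := hs' _ _ h
          have h3 : f.symm ⟨z, hz⟩ = (e.trans f.symm) ⟨y, hy⟩ := by
            rw [Equiv.trans_apply]
            congr 1
            exact Subtype.ext h2
          rw [h3]
          exact Perm.sameCycle_apply_right.2 ih1
        · have h2 : z = t y := ht' _ _ h
          have h3 : f.symm ⟨z, hz⟩ = ⟨y, hy⟩ := by
            rw [Equiv.symm_apply_eq]
            exact Subtype.ext h2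
          rw [h3]
          exact ih1
  exact (key u.1 w.1 (hc.preconnected _ _) rfl).1 w.2

theorem card_even {d : ℕ} {M : Set (Sym2 (Fin d → Bool))} (h : IsOneFactor d M) :
    2 * Fintype.card {v : Fin d → Bool // par v = 0} = 2 ^ d := by
  obtain ⟨s, hs, hs'⟩ := exists_partner h
  have h1 := Fintype.card_congr (matchEquiv h s hs hs')
  have h2 : Fintype.card {v : Fin d → Bool // ¬ par v = 0} =
      Fintype.card {v : Fin d → Bool // par v = 1} := by
    apply Fintype.card_congr
    apply Equiv.subtypeEquivRight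
    intro v
    generalize par v = a
    revert a
    decide
  have h3 := Fintype.card_subtype_compl (fun v : Fin d → Bool => par v = 0)
  have h4 := Fintype.card_subtype_le (fun v : Fin d → Bool => par v = 0)
  have h5 : Fintype.card (Fin d → Bool) = 2 ^ d := by simp
  omega

theorem no_three {d : ℕ} (hd : 2 ≤ d) {M N K : Set (Sym2 (Fin d → Bool))}
    (hM : IsOneFactor d M) (hN : IsOneFactor d N) (hK : IsOneFactor d K)
    (h1 : (SimpleGraph.fromEdgeSet (M ∪ N)).Connected)
    (h2 : (SimpleGraph.fromEdgeSet (N ∪ K)).Connected)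
    (h3 : (SimpleGraph.fromEdgeSet (K ∪ M)).Connected) : False := by
  obtain ⟨s, hs, hs'⟩ := exists_partner hM
  obtain ⟨t, ht, ht'⟩ := exists_partner hN
  obtain ⟨u, hu, hu'⟩ := exists_partner hK
  have hcard := card_even hM
  have hE : 2 ≤ Fintype.card {v : Fin d → Bool // par v = 0} := by
    have : 2 ^ 2 ≤ 2 ^ d := Nat.pow_le_pow_right (by norm_num) hd
    omega
  have he : Even (Fintype.card {v : Fin d → Bool // par v = 0}) := by
    obtain ⟨k, rfl⟩ : ∃ k, d = k + 2 := ⟨d - 2, by omega⟩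
    refine ⟨2 ^ k, ?_⟩
    have : 2 ^ (k + 2) = 4 * 2 ^ k := by ring
    omega
  have a := sign_of_sameCycle _ (sameCycle_of_connected hM hN hs hs' ht ht' h1) hE he
  have b := sign_of_sameCycle _ (sameCycle_of_connected hN hK ht ht' hu hu' h2) hE he
  have c := sign_of_sameCycle _ (sameCycle_of_connected hK hM hu hu' hs hs' h3) hE he
  have hprod : ((matchEquiv hK u hu hu').trans (matchEquiv hM s hs hs').symm : Perm _) *
      ((matchEquiv hN t ht ht').trans (matchEquiv hK u hu hu').symm : Perm _) *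
      ((matchEquiv hM s hs hs').trans (matchEquiv hN t ht ht').symm : Perm _) = 1 := by
    ext x : 1
    simp [Perm.mul_apply]
  have := congrArg Perm.sign hprod
  rw [map_mul, map_mul, a, b, c, map_one] at this
  exact absurd this (by decide)


theorem three_members {d : ℕ} (hd : 3 ≤ d) {F : Set (Set (Sym2 (Fin d → Bool)))}
    (hF : IsOneFactorization d F) : ∃ M ∈ F, ∃ N ∈ F, ∃ K ∈ F, M ≠ N ∧ N ≠ K ∧ K ≠ M := by
  classical
  obtain ⟨h1, h2, h3⟩ := hF
  -- the vertex 0 and its neighbours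
  let z : Fin d → Bool := fun _ => false
  let b : Fin d → (Fin d → Bool) := fun i => Function.update z i true
  have hadj : ∀ i, (cube d).Adj z (b i) := by
    intro i
    refine ⟨i, by simp [z, b], fun j hj => ?_⟩
    by_contra hne
    simp [z, b, Function.update_of_ne hne] at hj
  have hbne : ∀ i j, i ≠ j → b i ≠ b j := by
    intro i j hij h
    have := congrFun h i
    simp [b, z, Function.update_of_ne hij] at this
  have hmem : ∀ i, ∃ M ∈ F, s(z, b i) ∈ M := by
    intro i
    have : s(z, b i) ∈ ⋃₀ F := by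
      rw [h3]
      exact hadj i
    exact this
  choose m hm hm' using hmem
  have hne : ∀ i j, i ≠ j → m i ≠ m j := by
    intro i j hij h
    have hj := hm' j
    rw [← h] at hj
    have hu := ((h1 _ (hm i)).2 z).unique ⟨hm' i, Sym2.mem_mk_left _ _⟩
      ⟨hj, Sym2.mem_mk_left _ _⟩
    rw [Sym2.eq_iff] at hu
    rcases hu with ⟨_, h⟩ | ⟨h, h'⟩
    · exact hbne i j hij h
    · have := congrFun h j
      simp [b, z] at this
  exact ⟨m ⟨0, by omega⟩, hm _, m ⟨1, by omega⟩, hm _, m ⟨2, by omega⟩, hm _,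
    hne _ _ (by simp), hne _ _ (by simp), hne _ _ (by simp)⟩

/-- A perfect matching of `Q_d`, `d ≥ 2`, is not connected. -/
theorem not_connected_one {d : ℕ} (hd : 2 ≤ d) {M : Set (Sym2 (Fin d → Bool))}
    (hM : IsOneFactor d M) : ¬ (SimpleGraph.fromEdgeSet M).Connected := by
  intro hc
  have hc' : (SimpleGraph.fromEdgeSet (M ∪ M)).Connected := by rwa [Set.union_self]
  exact no_three hd hM hM hM hc' hc' hc'

theorem lower_bound {d k : ℕ} (hd : 3 ≤ d) (hk : 0 < k)
    (h : ∃ F, IsOneFactorization d F ∧ UnionsConnected d k F) : 3 ≤ k := by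
  obtain ⟨F, hF, hc⟩ := h
  obtain ⟨M, hM, N, hN, K, hK, hMN, hNK, hKM⟩ := three_members hd hF
  by_contra hlt
  have hk2 : k = 1 ∨ k = 2 := by omega
  rcases hk2 with rfl | rfl
  · have h1 := hc {M} (by simpa using hM) (Set.ncard_singleton M)
    rw [Set.sUnion_singleton] at h1
    exact not_connected_one (by omega) (hF.1 M hM) h1
  · have key : ∀ A ∈ F, ∀ B ∈ F, A ≠ B → (SimpleGraph.fromEdgeSet (A ∪ B)).Connected := by
      intro A hA B hB hAB
      have h1 := hc {A, B} (by
        intro x hx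
        rcases hx with rfl | rfl
        · exact hA
        · exact hB) (Set.ncard_pair hAB)
      rwa [Set.sUnion_pair] at h1
    exact no_three (by omega) (hF.1 M hM) (hF.1 N hN) (hF.1 K hK) (key M hM N hN hMN)
      (key N hN K hK hNK) (key K hK M hM hKM)

end Pool.Agent.Lib.MP_84d915_co
end

section

/-!
A proper colouring of a graph isomorphic to the hypercube `Q_N` with `N` colours, all present at
every vertex, gives a 1-factorization.
-/

namespace Pool.Agent.Lib.MP_84d915_co

section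
variable {V : Type} {N : ℕ} {G : SimpleGraph V} {nb : ℕ → V → Option V}

/-- the edges of colour `c`, transported to the standard hypercube -/
def colClass (e : G ≃g cube N) (nb : ℕ → V → Option V) (c : ℕ) : Set (Sym2 (Fin N → Bool)) :=
  {E | ∃ v w, nb c v = some w ∧ E = s(e v, e w)}

theorem colClass_eq_of_mem (e : G ≃g cube N) (hsymm : ∀ c, c < N → ∀ v w, nb c v = some w → nb c w = some v)
    {c : ℕ} (hc : c < N) {v w : V} (h : s(e v, e w) ∈ colClass e nb c) : nb c v = some w := by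
  obtain ⟨v', w', h1, h2⟩ := h
  rw [Sym2.eq_iff] at h2
  rcases h2 with ⟨h3, h4⟩ | ⟨h3, h4⟩
  · rw [e.injective h3, e.injective h4]; exact h1
  · rw [e.injective h3, e.injective h4]; exact hsymm c hc _ _ h1

theorem direct (e : G ≃g cube N) (hsymm : ∀ c, c < N → ∀ v w, nb c v = some w → nb c w = some v)
    (hadj : ∀ v w, G.Adj v w ↔ ∃ c, c < N ∧ nb c v = some w)
    (huniq : ∀ c c', c < N → c' < N → ∀ v w, nb c v = some w → nb c' v = some w → c = c')
    (htot : ∀ c, c < N → ∀ v, ∃ w, nb c v = some w) (h1 : P1 N nb) :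
    ∃ F, IsOneFactorization N F ∧ UnionsConnected N 3 F := by
  classical
  have hadj' : ∀ c, c < N → ∀ v w, nb c v = some w → (cube N).Adj (e v) (e w) := by
    intro c hc v w h
    exact e.map_adj_iff.2 ((hadj v w).2 ⟨c, hc, h⟩)
  refine ⟨{M | ∃ c, c < N ∧ M = colClass e nb c}, ⟨?_, ?_, ?_⟩, ?_⟩
  · rintro M ⟨c, hc, rfl⟩
    refine ⟨?_, ?_⟩
    · rintro E ⟨v, w, h, rfl⟩
      exact hadj' c hc v w h
    · intro x
      obtain ⟨v, rfl⟩ := e.surjective x
      obtain ⟨w, hw⟩ := htot c hc v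
      refine ⟨s(e v, e w), ⟨⟨v, w, hw, rfl⟩, Sym2.mem_mk_left _ _⟩, ?_⟩
      rintro E ⟨⟨v', w', h, rfl⟩, hm⟩
      rw [Sym2.mem_iff] at hm
      rcases hm with hm | hm
      · have := e.injective hm
        subst this
        rw [hw] at h
        rw [Option.some.inj h]
      · have := e.injective hm
        subst this
        have h' := hsymm c hc _ _ h
        rw [hw] at h'
        rw [Option.some.inj h']
        exact Sym2.eq_swap
  · rintro A ⟨c, hc, rfl⟩ B ⟨c', hc', rfl⟩ hne
    rw [Function.onFun, Set.disjoint_left]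
    rintro E ⟨v, w, h, rfl⟩ h'
    apply hne
    have h2 := colClass_eq_of_mem e hsymm hc' h'
    rw [huniq c c' hc hc' v w h h2]
  · apply Set.Subset.antisymm
    · rintro E ⟨M, ⟨c, hc, rfl⟩, ⟨v, w, h, rfl⟩⟩
      exact hadj' c hc v w h
    · intro E
      refine Sym2.ind ?_ E
      intro x y hxy
      obtain ⟨v, rfl⟩ := e.surjective x
      obtain ⟨w, rfl⟩ := e.surjective y
      have h2 : G.Adj v w := e.map_adj_iff.1 hxy
      obtain ⟨c, hc, h3⟩ := (hadj v w).1 h2
      exact ⟨colClass e nb c, ⟨c, hc, rfl⟩, ⟨v, w, h3, rfl⟩⟩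
  · intro S hS hcard
    obtain ⟨A, B, C, hAB, hAC, hBC, rfl⟩ := Set.ncard_eq_three.1 hcard
    obtain ⟨a, ha, rfl⟩ := hS (by simp : A ∈ ({A, B, C} : Set _))
    obtain ⟨b, hb, rfl⟩ := hS (by simp : B ∈ ({_, B, C} : Set _))
    obtain ⟨c, hc, rfl⟩ := hS (by simp : C ∈ ({_, _, C} : Set _))
    have hab : a ≠ b := fun h => hAB (by rw [h])
    have hac : a ≠ c := fun h => hAC (by rw [h])
    have hbc : b ≠ c := fun h => hBC (by rw [h])
    have hconn := h1 a b c ha hb hc hab hac hbc
    set H := SimpleGraph.fromEdgeSet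
      (⋃₀ ({colClass e nb a, colClass e nb b, colClass e nb c} : Set (Set (Sym2 (Fin N → Bool))))) with hH
    have hstep : ∀ v w, Step nb (fun x => x = a ∨ x = b ∨ x = c) (fun _ => False) v w →
        H.Adj (e v) (e w) := by
      rintro v w ⟨⟨x, hx, hnb⟩, _, _⟩
      have hxN : x < N := by rcases hx with rfl | rfl | rfl <;> assumption
      rw [hH, SimpleGraph.fromEdgeSet_adj]
      refine ⟨⟨colClass e nb x, ?_, ⟨v, w, hnb, rfl⟩⟩, ?_⟩
      · rcases hx with rfl | rfl | rfl <;> simp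
      · exact (hadj' x hxN v w hnb).ne
    have hreach : ∀ v w, H.Reachable (e v) (e w) := by
      intro v w
      have h := hconn v w (by simp) (by simp)
      induction h with
      | refl => exact SimpleGraph.Reachable.refl _
      | tail _ h2 ih => exact ih.trans (hstep _ _ h2).reachable
    have : Nonempty (Fin N → Bool) := ⟨fun _ => false⟩
    refine SimpleGraph.Connected.mk ?_
    intro x y
    obtain ⟨v, rfl⟩ := e.surjective x
    obtain ⟨w, rfl⟩ := e.surjective y
    exact hreach v w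

end

end Pool.Agent.Lib.MP_84d915_co
end
end

section

section

/-!
From a partial colouring of `Q_b` with `b + 2` colours to a 1-factorization of `Q_{b+2}`.
-/

namespace Pool.Agent.Lib.MP_84d915_co

open Relation

/-- The edges of colour `c`. -/
def factor {W : Type} {d : ℕ} (φ : W → (Fin d → Bool)) (f : ℕ → W → W) (c : ℕ) :
    Set (Sym2 (Fin d → Bool)) := {e | ∃ w, e = s(φ w, φ (f c w))}

theorem of_total {W : Type} {d N : ℕ} (H : SimpleGraph W) (φ : H ≃g cube d) (f : ℕ → W → W)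
    (hinv : ∀ c, c < N → ∀ w, f c (f c w) = w)
    (hadj : ∀ w w', H.Adj w w' ↔ ∃ c, c < N ∧ f c w = w')
    (huniq : ∀ c c', c < N → c' < N → ∀ w, f c w = f c' w → c = c')
    (hconn : ∀ c₁ c₂ c₃, c₁ < N → c₂ < N → c₃ < N → c₁ ≠ c₂ → c₁ ≠ c₃ → c₂ ≠ c₃ →
      ∀ u v, ReflTransGen (fun x y => f c₁ x = y ∨ f c₂ x = y ∨ f c₃ x = y) u v) :
    ∃ F, IsOneFactorization d F ∧ UnionsConnected d 3 F := by
  have hsw : ∀ c, c < N → ∀ w, s(φ w, φ (f c w)) ∈ (cube d).edgeSet := by
    intro c hc w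
    rw [SimpleGraph.mem_edgeSet, φ.map_adj_iff, hadj]
    exact ⟨c, hc, rfl⟩
  refine ⟨{M | ∃ c, c < N ∧ M = factor φ f c}, ⟨?_, ?_, ?_⟩, ?_⟩
  · rintro M ⟨c, hc, rfl⟩
    refine ⟨?_, fun v => ?_⟩
    · rintro e ⟨w, rfl⟩
      exact hsw c hc w
    · obtain ⟨w, rfl⟩ := φ.surjective v
      refine ⟨s(φ w, φ (f c w)), ⟨⟨w, rfl⟩, Sym2.mem_mk_left _ _⟩, ?_⟩
      rintro e ⟨⟨w', rfl⟩, hv⟩
      rw [Sym2.mem_iff] at hv
      rcases hv with h | h
      · rw [φ.injective h]
      · have : w = f c w' := φ.injective h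
        subst this
        rw [hinv c hc, Sym2.eq_swap]
  · rintro M ⟨c, hc, rfl⟩ M' ⟨c', hc', rfl⟩ hne
    rw [Function.onFun, Set.disjoint_left]
    rintro e ⟨w, rfl⟩ ⟨w', h⟩
    apply hne
    have : c = c' := by
      rw [Sym2.eq_iff] at h
      rcases h with ⟨h1, h2⟩ | ⟨h1, h2⟩
      · have := φ.injective h1
        subst this
        exact huniq c c' hc hc' w (φ.injective h2)
      · have h3 : w = f c' w' := φ.injective h1
        have h4 : f c w = w' := φ.injective h2
        apply huniq c c' hc hc' w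
        rw [h4, h3, hinv c' hc']
    rw [this]
  · ext e
    constructor
    · rintro ⟨M, ⟨c, hc, rfl⟩, ⟨w, rfl⟩⟩
      exact hsw c hc w
    · refine Sym2.ind (fun x y h => ?_) e
      obtain ⟨w, rfl⟩ := φ.surjective x
      obtain ⟨w', rfl⟩ := φ.surjective y
      rw [SimpleGraph.mem_edgeSet, φ.map_adj_iff, hadj] at h
      obtain ⟨c, hc, rfl⟩ := h
      exact ⟨_, ⟨c, hc, rfl⟩, ⟨w, rfl⟩⟩
  · intro S hS hcard
    obtain ⟨A, B, C, hAB, hAC, hBC, rfl⟩ := Set.ncard_eq_three.1 hcard
    obtain ⟨a, ha, rfl⟩ := hS (show A ∈ ({A, B, C} : Set _) by simp)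
    obtain ⟨b, hb, rfl⟩ := hS (show B ∈ ({factor φ f a, B, C} : Set _) by simp)
    obtain ⟨c, hc, rfl⟩ := hS (show C ∈ ({factor φ f a, factor φ f b, C} : Set _) by simp)
    have hab : a ≠ b := fun h => hAB (by rw [h])
    have hac : a ≠ c := fun h => hAC (by rw [h])
    have hbc : b ≠ c := fun h => hBC (by rw [h])
    rw [SimpleGraph.connected_iff]
    refine ⟨fun x y => ?_, ⟨fun _ => false⟩⟩
    obtain ⟨u, rfl⟩ := φ.surjective x
    obtain ⟨v, rfl⟩ := φ.surjective y
    have h := hconn a b c ha hb hc hab hac hbc u v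
    induction h with
    | refl => exact SimpleGraph.Reachable.refl _
    | @tail y z _ hyz ih =>
      refine ih.trans (SimpleGraph.Adj.reachable ?_)
      rw [SimpleGraph.fromEdgeSet_adj]
      have hH : H.Adj y z := by
        rw [hadj]
        rcases hyz with h | h | h
        · exact ⟨a, ha, h⟩
        · exact ⟨b, hb, h⟩
        · exact ⟨c, hc, h⟩
      refine ⟨?_, fun h => hH.ne (φ.injective h)⟩
      rcases hyz with h | h | h
      · exact ⟨factor φ f a, by simp, ⟨y, by rw [h]⟩⟩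
      · exact ⟨factor φ f b, by simp, ⟨y, by rw [h]⟩⟩
      · exact ⟨factor φ f c, by simp, ⟨y, by rw [h]⟩⟩

theorem assemble {V : Type} {b : ℕ} (G : SimpleGraph V) (e : G ≃g cube b)
    (nb : ℕ → V → Option V) (hc : IsCol G (b + 2) nb) (h1 : P1 (b + 2) nb)
    (ha : Avail (b + 2) nb) :
    ∃ F, IsOneFactorization (b + 2) F ∧ UnionsConnected (b + 2) 3 F := by
  classical
  obtain ⟨e1⟩ := prod_iso G e
  obtain ⟨e2⟩ := prod_iso (prodG G) e1
  choose lo hi hlt hlt' hmis using hc.mis
  let f : ℕ → (V × Bool) × Bool → (V × Bool) × Bool := fun c w =>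
    match nb c w.1.1 with
    | some v => ((v, w.1.2), w.2)
    | none => if c = lo w.1.1 then ((w.1.1, !w.1.2), w.2) else ((w.1.1, w.1.2), !w.2)
  have fsome : ∀ c v v' i j, nb c v = some v' → f c ((v, i), j) = ((v', i), j) := by
    intro c v v' i j h
    simp only [f, h]
  have fnone : ∀ c v i j, nb c v = none →
      f c ((v, i), j) = if c = lo v then ((v, !i), j) else ((v, i), !j) := by
    intro c v i j h
    simp only [f, h]
  have hlo : ∀ v, nb (lo v) v = none := fun v =>
    (hmis v (lo v) (lt_trans (hlt v) (hlt' v))).2 (Or.inl rfl)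
  have hhi : ∀ v, nb (hi v) v = none := fun v => (hmis v (hi v) (hlt' v)).2 (Or.inr rfl)
  have flo : ∀ v i j, f (lo v) ((v, i), j) = ((v, !i), j) := by
    intro v i j
    rw [fnone _ _ _ _ (hlo v), if_pos rfl]
  have fhi : ∀ v i j, f (hi v) ((v, i), j) = ((v, i), !j) := by
    intro v i j
    rw [fnone _ _ _ _ (hhi v), if_neg (ne_of_gt (hlt v))]
  refine of_total (N := b + 2) (prodG (prodG G)) e2 f ?_ ?_ ?_ ?_
  · rintro c hcN ⟨⟨v, i⟩, j⟩
    rcases h : nb c v with _ | v'
    · rcases (hmis v c hcN).1 h with rfl | rfl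
      · rw [flo, flo, Bool.not_not]
      · rw [fhi, fhi, Bool.not_not]
    · rw [fsome c v v' i j h, fsome c v' v i j (hc.symm c hcN v v' h)]
  · rintro ⟨⟨v, i⟩, j⟩ ⟨⟨v', i'⟩, j'⟩
    rw [prodG_adj, prodG_adj]
    constructor
    · rintro (⟨⟨h, h2⟩ | ⟨h, h2⟩, h3⟩ | ⟨h, h2⟩)
      · simp only at h h2 h3
        subst h2 h3
        obtain ⟨c, hcN, hcv⟩ := (hc.adj v v').1 h
        exact ⟨c, hcN, fsome c v v' i j hcv⟩
      · simp only at h h2 h3
        subst h h3
        refine ⟨lo v, lt_trans (hlt v) (hlt' v), ?_⟩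
        rw [flo]
        have : (!i) = i' := by
          revert h2
          cases i <;> cases i' <;> simp
        rw [this]
      · simp only [Prod.mk.injEq] at h h2
        obtain ⟨rfl, rfl⟩ := h
        refine ⟨hi v, hlt' v, ?_⟩
        rw [fhi]
        have : (!j) = j' := by
          revert h2
          cases j <;> cases j' <;> simp
        rw [this]
    · rintro ⟨c, hcN, hf⟩
      rcases h : nb c v with _ | u
      · rcases (hmis v c hcN).1 h with rfl | rfl
        · rw [flo] at hf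
          simp only [Prod.mk.injEq] at hf
          obtain ⟨⟨rfl, rfl⟩, rfl⟩ := hf
          left
          refine ⟨Or.inr ⟨rfl, ?_⟩, rfl⟩
          cases i <;> simp
        · rw [fhi] at hf
          simp only [Prod.mk.injEq] at hf
          obtain ⟨⟨rfl, rfl⟩, rfl⟩ := hf
          right
          refine ⟨rfl, ?_⟩
          cases j <;> simp
      · rw [fsome c v u i j h] at hf
        simp only [Prod.mk.injEq] at hf
        obtain ⟨⟨rfl, rfl⟩, rfl⟩ := hf
        exact Or.inl ⟨Or.inl ⟨(hc.adj v u).2 ⟨c, hcN, h⟩, rfl⟩, rfl⟩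
  · rintro c c' hcN hcN' ⟨⟨v, i⟩, j⟩ hf
    rcases h : nb c v with _ | u
    · rcases h' : nb c' v with _ | u'
      · rcases (hmis v c hcN).1 h with rfl | rfl <;> rcases (hmis v c' hcN').1 h' with rfl | rfl
        · rfl
        · rw [flo, fhi] at hf
          simp only [Prod.mk.injEq] at hf
          obtain ⟨⟨_, h3⟩, _⟩ := hf
          cases i <;> simp at h3
        · rw [flo, fhi] at hf
          simp only [Prod.mk.injEq] at hf
          obtain ⟨⟨_, h3⟩, _⟩ := hf
          cases i <;> simp at h3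
        · rfl
      · exfalso
        rw [fsome c' v u' i j h'] at hf
        have hadj : G.Adj v u' := (hc.adj v u').2 ⟨c', hcN', h'⟩
        rcases (hmis v c hcN).1 h with rfl | rfl
        · rw [flo] at hf
          simp only [Prod.mk.injEq] at hf
          exact hadj.ne hf.1.1
        · rw [fhi] at hf
          simp only [Prod.mk.injEq] at hf
          exact hadj.ne hf.1.1
    · rcases h' : nb c' v with _ | u'
      · exfalso
        rw [fsome c v u i j h] at hf
        have hadj : G.Adj v u := (hc.adj v u).2 ⟨c, hcN, h⟩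
        rcases (hmis v c' hcN').1 h' with rfl | rfl
        · rw [flo] at hf
          simp only [Prod.mk.injEq] at hf
          exact hadj.ne hf.1.1.symm
        · rw [fhi] at hf
          simp only [Prod.mk.injEq] at hf
          exact hadj.ne hf.1.1.symm
      · rw [fsome c v u i j h, fsome c' v u' i j h'] at hf
        simp only [Prod.mk.injEq] at hf
        obtain ⟨⟨rfl, _⟩, _⟩ := hf
        exact hc.uniq c c' hcN hcN' v u h h'
  · intro c₁ c₂ c₃ l1 l2 l3 n12 n13 n23
    set R : (V × Bool) × Bool → (V × Bool) × Bool → Prop :=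
      fun x y => f c₁ x = y ∨ f c₂ x = y ∨ f c₃ x = y with hR
    -- inside a copy
    have hcopy : ∀ u v i j, ReflTransGen R ((u, i), j) ((v, i), j) := by
      intro u v i j
      have h := h1 c₁ c₂ c₃ l1 l2 l3 n12 n13 n23 u v (fun h => h) (fun h => h)
      refine ReflTransGen.lift (p := R) (fun x => ((x, i), j)) ?_ _ _ h
      rintro x y ⟨⟨c, hcT, hxy⟩, _, _⟩
      rcases hcT with rfl | rfl | rfl
      · exact Or.inl (fsome _ _ _ _ _ hxy)
      · exact Or.inr (Or.inl (fsome _ _ _ _ _ hxy))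
      · exact Or.inr (Or.inr (fsome _ _ _ _ _ hxy))
    obtain ⟨⟨v, x, y, hxy, hyN, hx, hy, hxc⟩, ⟨v', x', y', hxy', hyN', hx', hy', hyc⟩⟩ :=
      ha c₁ c₂ c₃ l1 l2 l3 n12 n13 n23
    have hlox : x = lo v := by
      rcases (hmis v x (lt_trans hxy hyN)).1 hx with h | h
      · exact h
      · rcases (hmis v y hyN).1 hy with h' | h'
        · have := hlt v
          omega
        · omega
    have hhiy : y' = hi v' := by
      rcases (hmis v' y' hyN').1 hy' with h | h
      · rcases (hmis v' x' (lt_trans hxy' hyN')).1 hx' with h' | h'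
        · omega
        · have := hlt v'
          omega
      · exact h
    have hflip1 : ∀ i j, ReflTransGen R ((v, i), j) ((v, !i), j) := by
      intro i j
      refine ReflTransGen.single ?_
      have h := flo v i j
      rw [← hlox] at h
      rcases hxc with rfl | rfl | rfl
      · exact Or.inl h
      · exact Or.inr (Or.inl h)
      · exact Or.inr (Or.inr h)
    have hflip2 : ∀ i j, ReflTransGen R ((v', i), j) ((v', i), !j) := by
      intro i j
      refine ReflTransGen.single ?_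
      have h := fhi v' i j
      rw [← hhiy] at h
      rcases hyc with rfl | rfl | rfl
      · exact Or.inl h
      · exact Or.inr (Or.inl h)
      · exact Or.inr (Or.inr h)
    have step1 : ∀ u i i' j, ReflTransGen R ((u, i), j) ((u, i'), j) := by
      intro u i i' j
      by_cases h : i = i'
      · rw [h]
      · have : i' = !i := by
          revert h
          cases i <;> cases i' <;> simp
        subst this
        exact ((hcopy u v i j).trans (hflip1 i j)).trans (hcopy v u _ j)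
    have step2 : ∀ u i j j', ReflTransGen R ((u, i), j) ((u, i), j') := by
      intro u i j j'
      by_cases h : j = j'
      · rw [h]
      · have : j' = !j := by
          revert h
          cases j <;> cases j' <;> simp
        subst this
        exact ((hcopy u v' i j).trans (hflip2 i j)).trans (hcopy v' u i _)
    rintro ⟨⟨u, i⟩, j⟩ ⟨⟨w, i'⟩, j'⟩
    exact ((hcopy u w i j).trans (step1 w i i' j)).trans (step2 w i' j j')

end Pool.Agent.Lib.MP_84d915_co
end

section

/-!
Every unreserved copy of a reserved vertex is attached to the core.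
-/

namespace Pool.Agent.Lib.MP_84d915_co

open Relation

variable {V : Type} {N : ℕ} {nb : ℕ → V → Option V} {lab : V → Lab} {G : SimpleGraph V}
  {T : ℕ → Prop}

theorem good_colour {M : ℕ} (hT : WF M T) (B : ℕ → Prop) (i0 : ℕ)
    (hB : ∀ i, i < M → B i → B (sc M i) → i = i0) : ∃ c, T c ∧ c < M ∧ ¬ B c := by
  by_contra hcon
  have hall : ∀ c, T c → B c := by
    intro c hc
    by_contra h
    exact hcon ⟨c, hc, hT.1 c hc, h⟩
  obtain ⟨_, i, j, hi, hj, hij, h1, h2, h3, h4⟩ := hT
  have e1 := hB i hi (hall _ h1) (hall _ h2)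
  have e2 := hB j hj (hall _ h3) (hall _ h4)
  omega

theorem sc_cases (M i : ℕ) : (sc M i = 0 ∧ i + 1 = M) ∨ (sc M i = i + 1 ∧ i + 1 ≠ M) := by
  unfold sc
  by_cases h : i + 1 = M
  · exact Or.inl ⟨if_pos h, h⟩
  · exact Or.inr ⟨if_neg h, h⟩

theorem bet_ne {N c k : ℕ} (hk : c + 1 ≠ k) (hk0 : k ≠ 0) : bet N c ≠ k := by
  unfold bet; split_ifs <;> omega

theorem tau_ne {N c k : ℕ} (hk : c + 2 ≠ k) (hk0 : k ≠ 0) (hk1 : k ≠ 1) : tau N c ≠ k := by
  unfold tau; split_ifs <;> omega

/-- the labelled vertices of the new structure -/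
abbrev newS (N : ℕ) (lab : V → Lab) : V × Bool → Prop := fun p => labS N lab p ≠ Lab.none

theorem reach_bot (hv : VcOk N nb (fun v => vcl N (lab v))) {v w : V} {c : ℕ}
    {S' : V × Bool → Prop} (h : T c)
    (h1 : c + 1 ≠ N) (h2 : nb (bet N c) v = some w) (h3 : ¬ S' (v, false))
    (h4 : ¬ S' (w, false)) :
    Reach (newNb N nb lab) T S' (v, false) (w, false) :=
  ReflTransGen.single (bot_step hv h h1 h2 h3 h4)

theorem reach_top (hv : VcOk N nb (fun v => vcl N (lab v))) {v w : V} {c : ℕ}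
    {S' : V × Bool → Prop} (h : T c)
    (h1 : c + 1 ≠ N) (h2 : nb (tau N c) v = some w) (h3 : ¬ S' (v, true))
    (h4 : ¬ S' (w, true)) :
    Reach (newNb N nb lab) T S' (v, true) (w, true) :=
  ReflTransGen.single (top_step hv h h1 h2 h3 h4)

theorem newS_none {w : V} {ε : Bool} (h : lab w = Lab.none) : ¬ newS N lab (w, ε) := by
  simp only [newS, labS_none h, ne_eq, not_true, not_false_eq_true]

/-- exit at the bottom from `A` -/
theorem State.exbA (st : State G N nb lab) {v : V} {r j : ℕ} (h : lab v = Lab.A r j)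
    (hT : WF (N + 1) T) (hj1 : 2 ≤ j) (hj : j + 2 ≤ N) (hS : ¬ newS N lab (v, false)) :
    ∃ w, lab w = Lab.none ∧ Reach (newNb N nb lab) T (newS N lab) (v, false) (w, false) := by
  have hN := st.hN
  obtain ⟨c, hc, hcN, hcB⟩ := good_colour hT (fun c => c + 1 = N ∨ c + 2 = j ∨ c + 1 = j) (j - 2)
    (by intro i hi h1 h2; beta_reduce at h1 h2; have h3 := sc_cases (N + 1) i; omega)
  simp only [not_or] at hcB
  have hc1 : c + 1 ≠ N := hcB.1
  obtain ⟨w, hw, hw2⟩ := st.exitA h (k := bet N c) (bet_lt (by omega) hc1 (by omega))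
    (by have := @bet_ne N c (j - 1) (by omega) (by omega); omega) (bet_ne (by omega) (by omega))
  exact ⟨w, hw2, reach_bot st.vcOk hc hc1 hw hS (newS_none hw2)⟩

/-- exit at the top from `A` -/
theorem State.extA (st : State G N nb lab) {v : V} {r j : ℕ} (h : lab v = Lab.A r j)
    (hT : WF (N + 1) T) (hj1 : 3 ≤ j) (hj : j + 1 ≤ N) (hS : ¬ newS N lab (v, true)) :
    ∃ w, lab w = Lab.none ∧ Reach (newNb N nb lab) T (newS N lab) (v, true) (w, true) := by
  have hN := st.hN
  obtain ⟨c, hc, hcN, hcB⟩ := good_colour hT (fun c => c + 1 = N ∨ c + 3 = j ∨ c + 2 = j) (j - 3)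
    (by intro i hi h1 h2; beta_reduce at h1 h2; have h3 := sc_cases (N + 1) i; omega)
  simp only [not_or] at hcB
  have hc1 : c + 1 ≠ N := hcB.1
  obtain ⟨w, hw, hw2⟩ := st.exitA h (k := tau N c) (tau_lt (by omega) hc1 (by omega))
    (by have := @tau_ne N c (j - 1) (by omega) (by omega) (by omega); omega)
    (tau_ne (by omega) (by omega) (by omega))
  exact ⟨w, hw2, reach_top st.vcOk hc hc1 hw hS (newS_none hw2)⟩

/-- exit at the top from `Bz` -/
theorem State.extZ (st : State G N nb lab) {v : V} {r j : ℕ} (h : lab v = Lab.Bz r j)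
    (hT : WF (N + 1) T) (hj : j + 4 ≤ N) (hS : ¬ newS N lab (v, true)) :
    ∃ w, lab w = Lab.none ∧ Reach (newNb N nb lab) T (newS N lab) (v, true) (w, true) := by
  have hN := st.hN
  have hj3 : 3 ≤ j := by have := (st.lZ v r j h).1; unfold vB at this; omega
  obtain ⟨c, hc, hcN, hcB⟩ := good_colour hT
    (fun c => c + 1 = N ∨ c + 3 = j ∨ c + 2 = j ∨ c + 4 = N) (j - 3)
    (by intro i hi h1 h2; beta_reduce at h1 h2; have h3 := sc_cases (N + 1) i; omega)
  simp only [not_or] at hcB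
  have hc1 : c + 1 ≠ N := hcB.1
  obtain ⟨w, hw, hw2⟩ := st.exitZ h (k := tau N c) (tau_lt (by omega) hc1 (by omega))
    (by have := @tau_ne N c (j - 1) (by omega) (by omega) (by omega); omega)
    (tau_ne (by omega) (by omega) (by omega))
    (by have := @tau_ne N c (N - 2) (by omega) (by omega) (by omega); omega)
  exact ⟨w, hw2, reach_top st.vcOk hc hc1 hw hS (newS_none hw2)⟩

/-- exit at the bottom from `Bw` -/
theorem State.exbW (st : State G N nb lab) {v : V} {r j : ℕ} (h : lab v = Lab.Bw r j)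
    (hT : WF (N + 1) T) (hS : ¬ newS N lab (v, false)) :
    ∃ w, lab w = Lab.none ∧ Reach (newNb N nb lab) T (newS N lab) (v, false) (w, false) := by
  have hN := st.hN
  have hj3 : 3 ≤ j ∧ j + 3 ≤ N := by have := (st.lW v r j h).1; unfold vB at this; omega
  obtain ⟨c, hc, hcN, hcB⟩ := good_colour hT
    (fun c => c + 1 = N ∨ c + 3 = j ∨ c + 2 = j ∨ c + 3 = N) (j - 3)
    (by intro i hi h1 h2; beta_reduce at h1 h2; have h3 := sc_cases (N + 1) i; omega)
  simp only [not_or] at hcB
  have hc1 : c + 1 ≠ N := hcB.1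
  obtain ⟨w, hw, hw2⟩ := st.exitW h (k := bet N c) (bet_lt (by omega) hc1 (by omega))
    (by have := @bet_ne N c (j - 2) (by omega) (by omega); omega)
    (by have := @bet_ne N c (j - 1) (by omega) (by omega); omega)
    (by have := @bet_ne N c (N - 2) (by omega) (by omega); omega)
  exact ⟨w, hw2, reach_bot st.vcOk hc hc1 hw hS (newS_none hw2)⟩

/-- exit at the top from `Bw` -/
theorem State.extW (st : State G N nb lab) {v : V} {r j : ℕ} (h : lab v = Lab.Bw r j)
    (hT : WF (N + 1) T) (hj4 : 4 ≤ j) (hS : ¬ newS N lab (v, true)) :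
    ∃ w, lab w = Lab.none ∧ Reach (newNb N nb lab) T (newS N lab) (v, true) (w, true) := by
  have hN := st.hN
  have hj3 : 3 ≤ j ∧ j + 3 ≤ N := by have := (st.lW v r j h).1; unfold vB at this; omega
  obtain ⟨c, hc, hcN, hcB⟩ := good_colour hT
    (fun c => c + 1 = N ∨ c + 4 = j ∨ c + 3 = j ∨ c + 4 = N) (j - 4)
    (by intro i hi h1 h2; beta_reduce at h1 h2; have h3 := sc_cases (N + 1) i; omega)
  simp only [not_or] at hcB
  have hc1 : c + 1 ≠ N := hcB.1
  obtain ⟨w, hw, hw2⟩ := st.exitW h (k := tau N c) (tau_lt (by omega) hc1 (by omega))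
    (by have := @tau_ne N c (j - 2) (by omega) (by omega) (by omega); omega)
    (by have := @tau_ne N c (j - 1) (by omega) (by omega) (by omega); omega)
    (by have := @tau_ne N c (N - 2) (by omega) (by omega) (by omega); omega)
  exact ⟨w, hw2, reach_top st.vcOk hc hc1 hw hS (newS_none hw2)⟩

/-- If `T` contains nothing but the colours of `B`, then it contains `0` and `N`. -/
theorem special {B : ℕ → Prop} (hN : 12 ≤ N) (hT : WF (N + 1) T) (hB : ∀ c, T c → B c)
    (hB2 : ∀ i, i < N + 1 → B i → B (sc (N + 1) i) → i + 1 = N ∨ i = N) : T 0 ∧ T N := by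
  obtain ⟨_, i, j, hi, hj, hij, h1, h2, h3, h4⟩ := hT
  have e1 := hB2 i hi (hB _ h1) (hB _ h2)
  have e2 := hB2 j hj (hB _ h3) (hB _ h4)
  have hs : sc (N + 1) N = 0 := by unfold sc; rw [if_pos rfl]
  rcases e1 with e1 | e1
  · have hj' : j = N := by omega
    subst hj'
    rw [hs] at h4
    exact ⟨h4, h3⟩
  · subst e1
    rw [hs] at h2
    exact ⟨h2, h1⟩

/-- exit at the top from the link `A _ 2` -/
theorem State.extA2 (st : State G N nb lab) {v : V} {r : ℕ} (h : lab v = Lab.A r 2)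
    (hvc : vcl N (lab v) = 0) (hT : WF (N + 1) T) (hS0 : ¬ newS N lab (v, false))
    (hS : ¬ newS N lab (v, true)) :
    ∃ w ε, lab w = Lab.none ∧ Reach (newNb N nb lab) T (newS N lab) (v, true) (w, ε) := by
  have hN := st.hN
  by_cases hex : ∃ c, T c ∧ ¬ (c + 1 = N ∨ c = N ∨ c = 0)
  · obtain ⟨c, hc, hcB⟩ := hex
    have hcN := hT.1 c hc
    simp only [not_or] at hcB
    have hc1 : c + 1 ≠ N := hcB.1
    obtain ⟨w, hw, hw2⟩ := st.exitA h (k := tau N c) (tau_lt (by omega) hc1 (by omega))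
      (by unfold tau; split_ifs <;> omega) (by unfold tau; split_ifs <;> omega)
    exact ⟨w, true, hw2, reach_top st.vcOk hc hc1 hw hS (newS_none hw2)⟩
  · have hall : ∀ c, T c → (c + 1 = N ∨ c = N ∨ c = 0) := by
      intro c hc
      by_contra h'
      exact hex ⟨c, hc, h'⟩
    obtain ⟨h0, hNN⟩ := special hN hT hall
      (by intro i hi h1 h2; beta_reduce at h1 h2; have h3 := sc_cases (N + 1) i; omega)
    obtain ⟨w, hw, hw2⟩ := st.exitA h (k := bet N N) (bet_lt (by omega) (by omega) (by omega))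
      (by rw [bet, if_pos rfl]; omega) (by rw [bet, if_pos rfl]; omega)
    refine ⟨w, false, hw2, ReflTransGen.trans (ReflTransGen.single ?_)
      (reach_bot st.vcOk hNN (by omega) hw hS0 (newS_none hw2))⟩
    have := vert_step (nb := nb) (N := N) (vc := fun v => vcl N (lab v)) (T := T)
      (S' := newS N lab) (v := v) (ε := true) (by show T (vcl N (lab v)); rw [hvc]; exact h0)
      hS (by simpa using hS0)
    simpa using this

/-- exit at the top from the link `Bw _ 3` -/
theorem State.extW3 (st : State G N nb lab) {v : V} {r : ℕ} (h : lab v = Lab.Bw r 3)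
    (hvc : vcl N (lab v) = 0) (hT : WF (N + 1) T) (hS0 : ¬ newS N lab (v, false))
    (hS : ¬ newS N lab (v, true)) :
    ∃ w ε, lab w = Lab.none ∧ Reach (newNb N nb lab) T (newS N lab) (v, true) (w, ε) := by
  have hN := st.hN
  by_cases hex : ∃ c, T c ∧ ¬ (c + 1 = N ∨ c = N ∨ c = 0 ∨ c + 4 = N)
  · obtain ⟨c, hc, hcB⟩ := hex
    have hcN := hT.1 c hc
    simp only [not_or] at hcB
    have hc1 : c + 1 ≠ N := hcB.1
    obtain ⟨w, hw, hw2⟩ := st.exitW h (k := tau N c) (tau_lt (by omega) hc1 (by omega))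
      (by unfold tau; split_ifs <;> omega) (by unfold tau; split_ifs <;> omega)
      (by unfold tau; split_ifs <;> omega)
    exact ⟨w, true, hw2, reach_top st.vcOk hc hc1 hw hS (newS_none hw2)⟩
  · have hall : ∀ c, T c → (c + 1 = N ∨ c = N ∨ c = 0 ∨ c + 4 = N) := by
      intro c hc
      by_contra h'
      exact hex ⟨c, hc, h'⟩
    obtain ⟨h0, hNN⟩ := special hN hT hall
      (by intro i hi h1 h2; beta_reduce at h1 h2; have h3 := sc_cases (N + 1) i; omega)
    obtain ⟨w, hw, hw2⟩ := st.exitW h (k := bet N N) (bet_lt (by omega) (by omega) (by omega))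
      (by rw [bet, if_pos rfl]; omega) (by rw [bet, if_pos rfl]; omega)
      (by rw [bet, if_pos rfl]; omega)
    refine ⟨w, false, hw2, ReflTransGen.trans (ReflTransGen.single ?_)
      (reach_bot st.vcOk hNN (by omega) hw hS0 (newS_none hw2))⟩
    have := vert_step (nb := nb) (N := N) (vc := fun v => vcl N (lab v)) (T := T)
      (S' := newS N lab) (v := v) (ε := true) (by show T (vcl N (lab v)); rw [hvc]; exact h0)
      hS (by simpa using hS0)
    simpa using this

/-- Attachment needed for `P2`. -/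
theorem State.att2 (st : State G N nb lab) (hT : WF (N + 1) T) (v : V) (ε : Bool)
    (hl : lab v ≠ Lab.none) (hS : ¬ newS N lab (v, ε)) :
    ∃ u δ, ¬ (lab u ≠ Lab.none) ∧ Reach (newNb N nb lab) T (newS N lab) (v, ε) (u, δ) := by
  have hN := st.hN
  have fin : ∀ {δ : Bool}, (∃ w, lab w = Lab.none ∧
      Reach (newNb N nb lab) T (newS N lab) (v, ε) (w, δ)) →
      ∃ u δ, ¬ (lab u ≠ Lab.none) ∧ Reach (newNb N nb lab) T (newS N lab) (v, ε) (u, δ) := by
    rintro δ ⟨w, h1, h2⟩
    exact ⟨w, δ, not_not.2 h1, h2⟩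
  have fin2 : (∃ w δ, lab w = Lab.none ∧
      Reach (newNb N nb lab) T (newS N lab) (v, ε) (w, δ)) →
      ∃ u δ, ¬ (lab u ≠ Lab.none) ∧ Reach (newNb N nb lab) T (newS N lab) (v, ε) (u, δ) := by
    rintro ⟨w, δ, h1, h2⟩
    exact ⟨w, δ, not_not.2 h1, h2⟩
  have hS' := hS
  simp only [newS, not_not] at hS'
  rcases h : lab v with _ | ⟨r, j⟩ | ⟨r, j⟩ | ⟨r, j⟩
  · exact absurd h hl
  · have hv := (st.lA v r j h).1
    rcases actA_cases hN hv with ⟨r', e, h3, h4, h5⟩ | ⟨r', e, h4, h5⟩ | ⟨r', e, h4, h5⟩ |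
      ⟨r', e, h3, h4, h5⟩ | ⟨e, h3, h4⟩
    · cases ε
      · simp [labS, h, d0, e] at hS'
      · exact fin (st.extA h hT h3 h4 hS)
    · cases ε
      · simp [labS, h, d0, e] at hS'
      · exact fin (st.extA h hT (by omega) (by omega) hS)
    · cases ε
      · exact fin (st.exbA h hT (by omega) (by omega) hS)
      · simp [labS, h, d1, e] at hS'
    · cases ε
      · simp [labS, h, d0, e] at hS'
      · simp [labS, h, d1, e] at hS'
    · cases ε
      · exact fin (st.exbA h hT h3 h4 hS)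
      · by_cases hj : j = 2
        · subst hj
          refine fin2 (st.extA2 h ?_ hT ?_ hS)
          · simp [h, vcl, e]
          · simp [newS, labS, h, d0, e]
        · exact fin (st.extA h hT (by omega) (by omega) hS)
  · have hv := (st.lZ v r j h).1
    cases ε
    · exfalso
      simp only [labS, h, d0, Bool.false_eq_true, if_false] at hS'
      split_ifs at hS'
    · refine fin (st.extZ h hT ?_ hS)
      have h1 : ¬ (r = 13 ∧ j ≠ 3) := by
        intro h2
        simp only [labS, h, d1, if_true] at hS'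
        rw [if_pos h2] at hS'
        simp at hS'
      unfold vB at hv
      omega
  · have hv := (st.lW v r j h).1
    cases ε
    · exact fin (st.exbW h hT hS)
    · have h1 : r = 13 := by
        by_contra h2
        simp only [labS, h, d1, if_true, h2, if_false] at hS'
        simp at hS'
      subst h1
      by_cases hj : j = 3
      · subst hj
        refine fin2 (st.extW3 h ?_ hT ?_ hS)
        · simp [h, vcl]
        · simp [newS, labS, h, d0]
      · exact fin (st.extW h hT (by unfold vB at hv; omega) hS)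

/-- the links -/
def Links (N : ℕ) (lab : V → Lab) : Prop :=
  (∀ c, c + 4 ≤ N → ∃ x, lab x = Lab.A 7 (c + 2) ∨ lab x = Lab.Bw 13 (c + 3)) ∧
  ∃ x, lab x = Lab.A 1 (N - 1)

theorem State.link1 (st : State G N nb lab) (hl : Links N lab) (c : ℕ) (hc : c + 3 ≤ N) :
    ∃ v, (fun v => vcl N (lab v)) v = c := by
  have hN := st.hN
  by_cases h : c + 4 ≤ N
  · obtain ⟨x, hx | hx⟩ := hl.1 c h
    · exact ⟨x, by simp [hx, vcl, actA]⟩
    · exact ⟨x, by simp [hx, vcl]⟩
  · obtain ⟨x, hx⟩ := hl.2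
    refine ⟨x, ?_⟩
    have h1 : N - 1 ≠ 2 := by omega
    have h2 : N - 1 + 1 = N := by omega
    simp only [hx, vcl, actA, h1, h2, if_true, if_false]
    norm_num
    omega

/-- the link needed for `P2` -/
theorem State.link2 (st : State G N nb lab) (hl : Links N lab) (hT : WF (N + 1) T)
    (hTN : ¬ T (N - 1)) : ∃ u v, ¬ (lab u ≠ Lab.none) ∧ ¬ (lab v ≠ Lab.none) ∧
      Reach (newNb N nb lab) T (newS N lab) (u, false) (v, true) := by
  have hN := st.hN
  have hne : ∀ c, T c → c + 1 ≠ N := by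
    intro c hc h
    apply hTN
    have : N - 1 = c := by omega
    rw [this]; exact hc
  obtain ⟨c, hc, hcN, hcB⟩ := good_colour (T := T) hT
    (fun c => T c ∧ (c + 3 = N ∨ c + 2 = N ∨ c = N)) (N - 3)
    (by
      rintro i hi ⟨_, h1⟩ ⟨h3, h2⟩
      have := hne _ h3
      have h4 := sc_cases (N + 1) i
      omega)
  have hcB' : ¬ (c + 3 = N ∨ c + 2 = N ∨ c = N) := fun h => hcB ⟨hc, h⟩
  have hc1 := hne c hc
  obtain ⟨x, hx⟩ := hl.1 c (by omega)
  have hsymm : ∀ {p q : V × Bool}, Reach (newNb N nb lab) T (newS N lab) p q →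
      Reach (newNb N nb lab) T (newS N lab) q p := fun h =>
    reachS_symm (by omega) st.col st.vcOk (fun c hc => Nat.lt_succ_iff.1 (hT.1 c hc)) h
  have hboth : (∃ r j, lab x = Lab.A r j ∨ lab x = Lab.Bw r j) ∧ vcl N (lab x) = c ∧
      ¬ newS N lab (x, false) ∧ ¬ newS N lab (x, true) := by
    rcases hx with hx | hx
    · exact ⟨⟨_, _, Or.inl hx⟩, by simp [hx, vcl, actA], by simp [newS, labS, hx, d0, actA],
        by simp [newS, labS, hx, d1, actA]⟩
    · exact ⟨⟨_, _, Or.inr hx⟩, by simp [hx, vcl], by simp [newS, labS, hx, d0],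
        by simp [newS, labS, hx, d1]⟩
  obtain ⟨_, hvc, hS0, hS1⟩ := hboth
  have hvert : Reach (newNb N nb lab) T (newS N lab) (x, false) (x, true) := by
    have := vert_step (nb := nb) (N := N) (vc := fun v => vcl N (lab v)) (T := T)
      (S' := newS N lab) (v := x) (ε := false) (by show T (vcl N (lab x)); rw [hvc]; exact hc)
      hS0 (by simpa using hS1)
    exact ReflTransGen.single (by simpa using this)
  -- exits on both sides
  have hbot : ∃ w, lab w = Lab.none ∧
      Reach (newNb N nb lab) T (newS N lab) (x, false) (w, false) := by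
    rcases hx with hx | hx
    · have := (st.lA x _ _ hx).1
      exact st.exbA hx hT (by omega) (by unfold vA at this; omega) hS0
    · exact st.exbW hx hT hS0
  have htop : ∃ w, lab w = Lab.none ∧
      Reach (newNb N nb lab) T (newS N lab) (x, true) (w, true) := by
    rcases hx with hx | hx
    · have hv := (st.lA x _ _ hx).1
      by_cases hc0 : c = 0
      · subst hc0
        obtain ⟨c', hc', hcN', hcB''⟩ := good_colour (T := T) hT
          (fun c => T c ∧ (c = 0 ∨ c = N)) N
          (by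
            rintro i hi ⟨_, h1⟩ ⟨_, h2⟩
            have h3 := sc_cases (N + 1) i
            omega)
        have hcB3 : ¬ (c' = 0 ∨ c' = N) := fun h => hcB'' ⟨hc', h⟩
        have hc1' := hne c' hc'
        obtain ⟨w, hw, hw2⟩ := st.exitA hx (k := tau N c') (tau_lt (by omega) hc1' (by omega))
          (by unfold tau; split_ifs <;> omega) (by unfold tau; split_ifs <;> omega)
        exact ⟨w, hw2, reach_top st.vcOk hc' hc1' hw hS1 (newS_none hw2)⟩
      · exact st.extA hx hT (by omega) (by unfold vA at hv; omega) hS1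
    · by_cases hc0 : c = 0
      · subst hc0
        obtain ⟨c', hc', hcN', hcB''⟩ := good_colour (T := T) hT
          (fun c => T c ∧ (c = 0 ∨ c = N ∨ c + 4 = N)) N
          (by
            rintro i hi ⟨_, h1⟩ ⟨_, h2⟩
            have h3 := sc_cases (N + 1) i
            omega)
        have hcB3 : ¬ (c' = 0 ∨ c' = N ∨ c' + 4 = N) := fun h => hcB'' ⟨hc', h⟩
        have hc1' := hne c' hc'
        obtain ⟨w, hw, hw2⟩ := st.exitW hx (k := tau N c') (tau_lt (by omega) hc1' (by omega))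
          (by unfold tau; split_ifs <;> omega) (by unfold tau; split_ifs <;> omega)
          (by unfold tau; split_ifs <;> omega)
        exact ⟨w, hw2, reach_top st.vcOk hc' hc1' hw hS1 (newS_none hw2)⟩
      · exact st.extW hx hT (by omega) hS1
  obtain ⟨a, ha, ha'⟩ := hbot
  obtain ⟨b, hb, hb'⟩ := htop
  exact ⟨a, b, not_not.2 ha, not_not.2 hb, ((hsymm ha').trans hvert).trans hb'⟩

end Pool.Agent.Lib.MP_84d915_co
end

section

/-!
The small cases: 1-factorizations of `Q_N`, `3 ≤ N ≤ 11`, all of whose triples of factors have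
connected union.
-/

namespace Pool.Agent.Lib.MP_84d915_co.Small

open Check

theorem of_tables {k : ℕ} {M : ℕ → ℕ → ℕ} {L : ℕ → ℕ} {fuel : ℕ}
    (h : strOk k (k + 2) M L = true) (hp : p1Ok k (k + 2) L M fuel = true)
    (h2 : mis2Ok k (k + 2) (mis k M) = true) (h3 : mis3Ok (k + 2) (mis k M) = true)
    (ha : avOk (k + 2) (mis k M) = true) :
    ∃ F, IsOneFactorization (k + 2) F ∧ UnionsConnected (k + 2) 3 F :=
  assemble (maskG k) (maskIso k) (nbM k (k + 2) M) (isCol_of_check h h2 h3) (p1_of_check h hp)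
    (avail_of_check ha)

theorem of_total {k : ℕ} {M : ℕ → ℕ → ℕ} {L : ℕ → ℕ} {fuel : ℕ}
    (h : strOk k k M L = true) (hp : p1Ok k k L M fuel = true)
    (ht : allB (fun c => Nat.beq (orB (M c) k) (full k)) k = true) :
    ∃ F, IsOneFactorization k F ∧ UnionsConnected k 3 F := by
  have hadj : ∀ v w, (maskG k).Adj v w ↔ ∃ c, c < k ∧ nbM k k M c v = some w := by
    intro v w
    constructor
    · rintro ⟨i, hi, h1⟩
      obtain ⟨c, hc, hM⟩ := strOk_cov h hi v.2
      refine ⟨c, hc, ?_⟩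
      rw [nbM_eq_some h hc hi hM]
      congr 1
      exact Fin.ext h1.symm
    · rintro ⟨c, hc, hx⟩
      obtain ⟨_, i, hi, _, h1⟩ := nbM_some hx
      exact ⟨i, hi, h1⟩
  refine direct (maskIso k) (nb := nbM k k M) (fun c _ v w hx => nbM_symm h hx) hadj ?_ ?_
    (p1_of_check h hp)
  · intro c c' hc hc' v w h1 h2
    obtain ⟨_, i, hi, h3, h4⟩ := nbM_some h1
    obtain ⟨_, j, hj, h5, h6⟩ := nbM_some h2
    have := two_pow_xor_inj (h4.symm.trans h6)
    subst this
    exact strOk_col h hc hc' hi h3 h5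
  · intro c hc v
    have h1 : orB (M c) k = full k := Nat.eq_of_beq_eq_true ((allB_iff _ _).1 ht c hc)
    have h2 : (orB (M c) k).testBit v.1 = true := by
      rw [h1, full_testBit]; simpa using v.2
    obtain ⟨i, hi, h3⟩ := (testBit_orB _ _ _).1 h2
    exact ⟨_, nbM_eq_some h hc hi h3⟩

/-- the small cases -/
theorem small (N : ℕ) (h3 : 3 ≤ N) (h11 : N ≤ 11) :
    ∃ F, IsOneFactorization N F ∧ UnionsConnected N 3 F := by
  interval_cases N
  · exact of_tables str_1_3 p1_1_3 m2_1_3 m3_1_3 av_1_3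
  · exact of_tables str_2_4 p1_2_4 m2_2_4 m3_2_4 av_2_4
  · exact of_total str_5_5 p1_5_5 tot_5_5
  · exact of_tables str_4_6 p1_4_6 m2_4_6 m3_4_6 av_4_6
  · exact of_tables str_5_7 p1_5_7 m2_5_7 m3_5_7 av_5_7
  · exact of_tables str_6_8 p1_6_8 m2_6_8 m3_6_8 av_6_8
  · exact of_tables str_7_9 p1_7_9 m2_7_9 m3_7_9 av_7_9
  · exact of_tables str_8_10 p1_8_10 m2_8_10 m3_8_10 av_8_10
  · exact of_tables str_9_11 p1_9_11 m2_9_11 m3_9_11 av_9_11

end Pool.Agent.Lib.MP_84d915_co.Small
end

section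

/-!
Attachment of the reserved vertices for three colours one of which is new.
-/

namespace Pool.Agent.Lib.MP_84d915_co

open Relation

variable {V : Type} {N : ℕ} {nb : ℕ → V → Option V} {lab : V → Lab} {G : SimpleGraph V}
  {c₁ c₂ : ℕ}

theorem bet_cases (N c : ℕ) : (c = N ∧ bet N c = 0) ∨ (c ≠ N ∧ bet N c = c + 1) := by
  unfold bet
  by_cases h : c = N
  · exact Or.inl ⟨h, if_pos h⟩
  · exact Or.inr ⟨h, if_neg h⟩

theorem tau_cases (N c : ℕ) : (c = N ∧ tau N c = 1) ∨ (c ≠ N ∧ c + 2 = N ∧ tau N c = 0) ∨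
    (c ≠ N ∧ c + 2 ≠ N ∧ tau N c = c + 2) := by
  unfold tau
  by_cases h : c = N
  · exact Or.inl ⟨h, if_pos h⟩
  · by_cases h2 : c + 2 = N
    · exact Or.inr (Or.inl ⟨h, h2, by rw [if_neg h, if_pos h2]⟩)
    · exact Or.inr (Or.inr ⟨h, h2, by rw [if_neg h, if_neg h2]⟩)

/-- the colour set -/
abbrev T1 (N c₁ c₂ : ℕ) : ℕ → Prop := fun c => c = c₁ ∨ c = c₂ ∨ c + 1 = N

/-- reachability of an unlabelled vertex -/
def Out (N : ℕ) (nb : ℕ → V → Option V) (lab : V → Lab) (c₁ c₂ : ℕ) (p : V × Bool) : Prop :=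
  ∃ u δ, ¬ (lab u ≠ Lab.none) ∧
    Reach (newNb N nb lab) (T1 N c₁ c₂) (fun _ => False) p (u, δ)

theorem Out.step {p q : V × Bool} (h : Out N nb lab c₁ c₂ q)
    (hs : Step (newNb N nb lab) (T1 N c₁ c₂) (fun _ => False) p q) :
    Out N nb lab c₁ c₂ p := by
  obtain ⟨u, δ, h1, h2⟩ := h
  exact ⟨u, δ, h1, ReflTransGen.head hs h2⟩

theorem Out.bot (hv : VcOk N nb (fun v => vcl N (lab v))) {v w : V} {c : ℕ}
    (h : T1 N c₁ c₂ c) (h1 : c + 1 ≠ N) (h2 : nb (bet N c) v = some w)
    (h3 : Out N nb lab c₁ c₂ (w, false)) : Out N nb lab c₁ c₂ (v, false) :=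
  h3.step (bot_step hv h h1 h2 (fun h => h) (fun h => h))

theorem Out.top (hv : VcOk N nb (fun v => vcl N (lab v))) {v w : V} {c : ℕ}
    (h : T1 N c₁ c₂ c) (h1 : c + 1 ≠ N) (h2 : nb (tau N c) v = some w)
    (h3 : Out N nb lab c₁ c₂ (w, true)) : Out N nb lab c₁ c₂ (v, true) :=
  h3.step (top_step hv h h1 h2 (fun h => h) (fun h => h))

theorem Out.of_none {w : V} {ε : Bool} (h : lab w = Lab.none) : Out N nb lab c₁ c₂ (w, ε) :=
  ⟨w, ε, not_not.2 h, ReflTransGen.refl⟩

theorem Out.vert {v : V} (h : T1 N c₁ c₂ (vcl N (lab v))) {ε : Bool}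
    (h3 : Out N nb lab c₁ c₂ (v, ε)) (δ : Bool) : Out N nb lab c₁ c₂ (v, δ) := by
  by_cases hε : δ = ε
  · rw [hε]; exact h3
  · have hδ : ε = !δ := by cases ε <;> cases δ <;> simp at hε ⊢
    rw [hδ] at h3
    refine h3.step ?_
    exact vert_step (vc := fun v => vcl N (lab v)) (v := v) (ε := δ) h (fun h => h) (fun h => h)

variable (h1 : c₁ ≤ N) (h2 : c₂ ≤ N) (h3 : c₁ + 1 ≠ N) (h4 : c₂ + 1 ≠ N) (h5 : c₁ ≠ c₂)

include h1 h2 h3 h4 h5

theorem State.outA_bot (st : State G N nb lab) {v : V} {r j : ℕ} (h : lab v = Lab.A r j)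
    (hj1 : 2 ≤ j) (h6 : c₁ + 2 ≠ j) (h7 : c₂ + 2 ≠ j) :
    Out N nb lab c₁ c₂ (v, false) := by
  have hN := st.hN
  have e1 := bet_cases N c₁
  have e2 := bet_cases N c₂
  have f1 := bet_lt h1 h3 (by omega)
  have f2 := bet_lt h2 h4 (by omega)
  by_cases h8 : bet N c₁ + 1 ≠ j ∧ bet N c₁ ≠ j
  · obtain ⟨w, hw, hw2⟩ := st.exitA h f1 h8.1 h8.2
    exact Out.bot st.vcOk (Or.inl rfl) h3 hw (Out.of_none hw2)
  · obtain ⟨w, hw, hw2⟩ := st.exitA h f2 (by omega) (by omega)
    exact Out.bot st.vcOk (Or.inr (Or.inl rfl)) h4 hw (Out.of_none hw2)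

theorem State.outA_top (st : State G N nb lab) {v : V} {r j : ℕ} (h : lab v = Lab.A r j)
    (hj1 : 2 ≤ j) (hj2 : j + 1 ≤ N) (h6 : c₁ + 2 ≠ j) (h7 : c₂ + 2 ≠ j) :
    Out N nb lab c₁ c₂ (v, true) := by
  have hN := st.hN
  have e1 := tau_cases N c₁
  have e2 := tau_cases N c₂
  have f1 := tau_lt h1 h3 (by omega)
  have f2 := tau_lt h2 h4 (by omega)
  by_cases h8 : tau N c₁ + 1 ≠ j ∧ tau N c₁ ≠ j
  · obtain ⟨w, hw, hw2⟩ := st.exitA h f1 h8.1 h8.2
    exact Out.top st.vcOk (Or.inl rfl) h3 hw (Out.of_none hw2)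
  · obtain ⟨w, hw, hw2⟩ := st.exitA h f2 (by omega) (by omega)
    exact Out.top st.vcOk (Or.inr (Or.inl rfl)) h4 hw (Out.of_none hw2)

theorem State.outA_some (st : State G N nb lab) {v : V} {r j : ℕ} (h : lab v = Lab.A r j)
    (hj1 : 2 ≤ j) (hj2 : j + 1 ≤ N) : ∃ ε, Out N nb lab c₁ c₂ (v, ε) := by
  have hN := st.hN
  have e1 := bet_cases N c₁
  have e2 := bet_cases N c₂
  have f1 := bet_lt h1 h3 (by omega)
  have f2 := bet_lt h2 h4 (by omega)
  have e1' := tau_cases N c₁
  have e2' := tau_cases N c₂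
  have f1' := tau_lt h1 h3 (by omega)
  have f2' := tau_lt h2 h4 (by omega)
  by_cases h8 : bet N c₁ + 1 ≠ j ∧ bet N c₁ ≠ j
  · obtain ⟨w, hw, hw2⟩ := st.exitA h f1 h8.1 h8.2
    exact ⟨false, Out.bot st.vcOk (Or.inl rfl) h3 hw (Out.of_none hw2)⟩
  by_cases h9 : bet N c₂ + 1 ≠ j ∧ bet N c₂ ≠ j
  · obtain ⟨w, hw, hw2⟩ := st.exitA h f2 h9.1 h9.2
    exact ⟨false, Out.bot st.vcOk (Or.inr (Or.inl rfl)) h4 hw (Out.of_none hw2)⟩
  by_cases h10 : tau N c₁ + 1 ≠ j ∧ tau N c₁ ≠ j
  · obtain ⟨w, hw, hw2⟩ := st.exitA h f1' h10.1 h10.2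
    exact ⟨true, Out.top st.vcOk (Or.inl rfl) h3 hw (Out.of_none hw2)⟩
  · obtain ⟨w, hw, hw2⟩ := st.exitA h f2' (by omega) (by omega)
    exact ⟨true, Out.top st.vcOk (Or.inr (Or.inl rfl)) h4 hw (Out.of_none hw2)⟩

theorem State.outA (st : State G N nb lab) {v : V} {r j : ℕ} (h : lab v = Lab.A r j)
    (ε : Bool) : Out N nb lab c₁ c₂ (v, ε) := by
  have hN := st.hN
  have hv := (st.lA v r j h).1
  have hj : 2 ≤ j ∧ j + 1 ≤ N := by unfold vA at hv; omega
  have joined : T1 N c₁ c₂ (vcl N (lab v)) → Out N nb lab c₁ c₂ (v, ε) := by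
    intro hT
    obtain ⟨ε', h6⟩ := st.outA_some h1 h2 h3 h4 h5 h hj.1 hj.2
    exact Out.vert hT h6 ε
  have spent : vcl N (lab v) = j - 2 → Out N nb lab c₁ c₂ (v, ε) := by
    intro hvc
    by_cases h6 : c₁ + 2 = j
    · exact joined (by rw [hvc]; left; omega)
    by_cases h7 : c₂ + 2 = j
    · exact joined (by rw [hvc]; right; left; omega)
    cases ε
    · exact st.outA_bot h1 h2 h3 h4 h5 h hj.1 h6 h7
    · exact st.outA_top h1 h2 h3 h4 h5 h hj.1 hj.2 h6 h7
  rcases actA_cases hN hv with ⟨r', e, _⟩ | ⟨r', e, _⟩ | ⟨r', e, _⟩ | ⟨r', e, _⟩ | ⟨e, _⟩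
  · exact joined (by simp only [h, vcl, e]; right; right; omega)
  · exact spent (by simp only [h, vcl, e])
  · exact spent (by simp only [h, vcl, e])
  · exact joined (by simp only [h, vcl, e]; right; right; omega)
  · exact spent (by simp only [h, vcl, e])

theorem State.outZ (st : State G N nb lab) {v : V} {r j : ℕ} (h : lab v = Lab.Bz r j)
    (ε : Bool) : Out N nb lab c₁ c₂ (v, ε) := by
  have hN := st.hN
  have hv := (st.lZ v r j h).1
  have hj : 3 ≤ j ∧ j + 3 ≤ N := by unfold vB at hv; omega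
  have hT : T1 N c₁ c₂ (vcl N (lab v)) := by simp only [h, vcl]; right; right; omega
  have e1 := bet_cases N c₁
  have e2 := bet_cases N c₂
  have f1 := bet_lt h1 h3 (by omega)
  have f2 := bet_lt h2 h4 (by omega)
  have e1' := tau_cases N c₁
  have e2' := tau_cases N c₂
  have f1' := tau_lt h1 h3 (by omega)
  have f2' := tau_lt h2 h4 (by omega)
  by_cases h8 : bet N c₁ + 1 ≠ j ∧ bet N c₁ ≠ j ∧ bet N c₁ + 2 ≠ N
  · obtain ⟨w, hw, hw2⟩ := st.exitZ h f1 h8.1 h8.2.1 h8.2.2
    exact Out.vert hT (Out.bot st.vcOk (Or.inl rfl) h3 hw (Out.of_none hw2)) ε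
  by_cases h9 : bet N c₂ + 1 ≠ j ∧ bet N c₂ ≠ j ∧ bet N c₂ + 2 ≠ N
  · obtain ⟨w, hw, hw2⟩ := st.exitZ h f2 h9.1 h9.2.1 h9.2.2
    exact Out.vert hT (Out.bot st.vcOk (Or.inr (Or.inl rfl)) h4 hw (Out.of_none hw2)) ε
  by_cases h10 : tau N c₁ + 1 ≠ j ∧ tau N c₁ ≠ j ∧ tau N c₁ + 2 ≠ N
  · obtain ⟨w, hw, hw2⟩ := st.exitZ h f1' h10.1 h10.2.1 h10.2.2
    exact Out.vert hT (Out.top st.vcOk (Or.inl rfl) h3 hw (Out.of_none hw2)) ε
  by_cases h11 : tau N c₂ + 1 ≠ j ∧ tau N c₂ ≠ j ∧ tau N c₂ + 2 ≠ N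
  · obtain ⟨w, hw, hw2⟩ := st.exitZ h f2' h11.1 h11.2.1 h11.2.2
    exact Out.vert hT (Out.top st.vcOk (Or.inr (Or.inl rfl)) h4 hw (Out.of_none hw2)) ε
  -- the exceptional case
  obtain ⟨w, hw, hw2⟩ := (st.lZ v r j h).2.2.2.1
  have hj' : j + 3 = N := by omega
  have hcc : (c₁ + 5 = N ∧ c₂ + 4 = N) ∨ (c₂ + 5 = N ∧ c₁ + 4 = N) := by omega
  have tN : tau N (N - 4) = N - 2 := by have := tau_cases N (N - 4); omega
  have tN' : tau N (N - 5) = N - 3 := by have := tau_cases N (N - 5); omega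
  obtain ⟨u, hu, hu2⟩ := st.exitW hw2 (k := N - 3) (by omega) (by omega) (by omega) (by omega)
  have hT4 : T1 N c₁ c₂ (N - 4) := by
    rcases hcc with h | h
    · right; left; omega
    · left; omega
  have hT5 : T1 N c₁ c₂ (N - 5) := by
    rcases hcc with h | h
    · left; omega
    · right; left; omega
  have hw3 : Out N nb lab c₁ c₂ (w, true) :=
    Out.top st.vcOk hT5 (by omega) (by rw [tN']; exact hu) (Out.of_none hu2)
  exact Out.vert hT (Out.top st.vcOk hT4 (by omega) (by rw [tN]; exact hw) hw3) ε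

theorem State.outW (st : State G N nb lab) {v : V} {r j : ℕ} (h : lab v = Lab.Bw r j)
    (ε : Bool) : Out N nb lab c₁ c₂ (v, ε) := by
  have hN := st.hN
  have hv := (st.lW v r j h).1
  have hj : 3 ≤ j ∧ j + 3 ≤ N := by unfold vB at hv; omega
  have e1 := bet_cases N c₁
  have e2 := bet_cases N c₂
  have f1 := bet_lt h1 h3 (by omega)
  have f2 := bet_lt h2 h4 (by omega)
  have e1' := tau_cases N c₁
  have e2' := tau_cases N c₂
  have f1' := tau_lt h1 h3 (by omega)
  have f2' := tau_lt h2 h4 (by omega)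
  obtain ⟨z, hz, hz2⟩ := (st.lW v r j h).2.2.2.1
  have hzo : ∀ ε, Out N nb lab c₁ c₂ (z, ε) := fun ε => st.outZ h1 h2 h3 h4 h5 hz2 ε
  have joined : T1 N c₁ c₂ (vcl N (lab v)) →
      (j + 4 ≤ N ∨ c₁ + 3 = j ∨ c₂ + 3 = j) → Out N nb lab c₁ c₂ (v, ε) := by
    intro hT hjj
    by_cases h8 : bet N c₁ + 2 ≠ j ∧ bet N c₁ + 1 ≠ j ∧ bet N c₁ + 2 ≠ N
    · obtain ⟨w, hw, hw2⟩ := st.exitW h f1 h8.1 h8.2.1 h8.2.2
      exact Out.vert hT (Out.bot st.vcOk (Or.inl rfl) h3 hw (Out.of_none hw2)) ε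
    by_cases h9 : bet N c₂ + 2 ≠ j ∧ bet N c₂ + 1 ≠ j ∧ bet N c₂ + 2 ≠ N
    · obtain ⟨w, hw, hw2⟩ := st.exitW h f2 h9.1 h9.2.1 h9.2.2
      exact Out.vert hT (Out.bot st.vcOk (Or.inr (Or.inl rfl)) h4 hw (Out.of_none hw2)) ε
    by_cases h10 : tau N c₁ + 2 ≠ j ∧ tau N c₁ + 1 ≠ j ∧ tau N c₁ + 2 ≠ N
    · obtain ⟨w, hw, hw2⟩ := st.exitW h f1' h10.1 h10.2.1 h10.2.2
      exact Out.vert hT (Out.top st.vcOk (Or.inl rfl) h3 hw (Out.of_none hw2)) ε
    · obtain ⟨w, hw, hw2⟩ := st.exitW h f2' (by omega) (by omega) (by omega)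
      exact Out.vert hT (Out.top st.vcOk (Or.inr (Or.inl rfl)) h4 hw (Out.of_none hw2)) ε
  by_cases hr : r = 13
  · have hvc : vcl N (lab v) = j - 3 := by simp [h, vcl, hr]
    by_cases h6 : c₁ + 3 = j
    · exact joined (by rw [hvc]; left; omega) (Or.inr (Or.inl h6))
    by_cases h7 : c₂ + 3 = j
    · exact joined (by rw [hvc]; right; left; omega) (Or.inr (Or.inr h7))
    cases ε
    · by_cases h8 : bet N c₁ + 2 ≠ j ∧ bet N c₁ + 1 ≠ j
      · by_cases h9 : bet N c₁ + 2 = N
        · exact Out.bot st.vcOk (Or.inl rfl) h3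
            (by rw [show bet N c₁ = N - 2 by omega]; exact hz) (hzo false)
        · obtain ⟨w, hw, hw2⟩ := st.exitW h f1 h8.1 h8.2 h9
          exact Out.bot st.vcOk (Or.inl rfl) h3 hw (Out.of_none hw2)
      · by_cases h9 : bet N c₂ + 2 = N
        · exact Out.bot st.vcOk (Or.inr (Or.inl rfl)) h4
            (by rw [show bet N c₂ = N - 2 by omega]; exact hz) (hzo false)
        · obtain ⟨w, hw, hw2⟩ := st.exitW h f2 (by omega) (by omega) h9
          exact Out.bot st.vcOk (Or.inr (Or.inl rfl)) h4 hw (Out.of_none hw2)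
    · by_cases h8 : tau N c₁ + 2 ≠ j ∧ tau N c₁ + 1 ≠ j
      · by_cases h9 : tau N c₁ + 2 = N
        · exact Out.top st.vcOk (Or.inl rfl) h3
            (by rw [show tau N c₁ = N - 2 by omega]; exact hz) (hzo true)
        · obtain ⟨w, hw, hw2⟩ := st.exitW h f1' h8.1 h8.2 h9
          exact Out.top st.vcOk (Or.inl rfl) h3 hw (Out.of_none hw2)
      · by_cases h9 : tau N c₂ + 2 = N
        · exact Out.top st.vcOk (Or.inr (Or.inl rfl)) h4
            (by rw [show tau N c₂ = N - 2 by omega]; exact hz) (hzo true)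
        · obtain ⟨w, hw, hw2⟩ := st.exitW h f2' (by omega) (by omega) h9
          exact Out.top st.vcOk (Or.inr (Or.inl rfl)) h4 hw (Out.of_none hw2)
  · refine joined ?_ (Or.inl ?_)
    · simp only [h, vcl, hr, if_false]; right; right; omega
    · unfold vB at hv; omega

theorem State.att1 (st : State G N nb lab) (v : V) (ε : Bool) (hl : lab v ≠ Lab.none) :
    Out N nb lab c₁ c₂ (v, ε) := by
  rcases h : lab v with _ | ⟨r, j⟩ | ⟨r, j⟩ | ⟨r, j⟩
  · exact absurd h hl
  · exact st.outA h1 h2 h3 h4 h5 h ε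
  · exact st.outZ h1 h2 h3 h4 h5 h ε
  · exact st.outW h1 h2 h3 h4 h5 h ε

end Pool.Agent.Lib.MP_84d915_co
end

section

/-!
The induction on the number of colours.
-/

namespace Pool.Agent.Lib.MP_84d915_co

open Relation

variable {V : Type} {N : ℕ} {nb : ℕ → V → Option V} {lab : V → Lab} {G : SimpleGraph V}

theorem State.step (st : State G N nb lab) (hl : Links N lab) :
    State (prodG G) (N + 1) (newNb N nb lab) (labS N lab) := by
  have hN := st.hN
  have hS' : ∀ v ε, ¬ (lab v ≠ Lab.none) → ¬ newS N lab (v, ε) :=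
    fun v ε h => newS_none (not_not.1 h)
  refine ⟨by omega, isCol_step (by omega) st.col st.vcOk, ?_, ?_, st.lA_step, st.lZ_step,
    st.lW_step⟩
  · refine p1_step (by omega) st.col st.vcOk st.p2 st.p1 (fun v h => st.vc_none h)
      (fun c hc => st.link1 hl c hc) ?_
    intro c₁ c₂ h1 h2 h3 h4 h5 v ε hv
    exact st.att1 h1 h2 h3 h4 h5 v ε hv
  · exact p2_step (by omega) st.col st.vcOk st.p2 (fun v h => st.vc_none h) hS'
      (fun T hT hTN => st.link2 hl hT hTN) (fun T hT v ε hv hS => st.att2 hT v ε hv hS)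

/-- The labels present at every stage `N ≥ 13`. -/
structure Full (N : ℕ) (lab : V → Lab) : Prop where
  top : ∀ r, 1 ≤ r → r ≤ 6 → ∃ v, lab v = Lab.A r (N - 1)
  l1 : ∃ v, lab v = Lab.A 7 (N - 2)
  l2 : ∃ v, lab v = Lab.A 7 (N - 3)
  lam : ∃ v, lab v = Lab.A 8 (N - 2)
  g : ∀ j, 10 ≤ j → j + 2 ≤ N → ∃ v, lab v = Lab.A 9 j
  l : ∀ j, 3 ≤ j → j + 3 ≤ N → ∃ v, lab v = Lab.Bz 13 j
  z9 : ∃ v, lab v = Lab.Bz 9 9
  a10 : ∃ v, lab v = Lab.A 10 8
  z10 : ∃ v, lab v = Lab.Bz 10 7
  a11 : ∃ v, lab v = Lab.A 11 6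
  a12 : ∃ v, lab v = Lab.A 12 6
  z11 : ∃ v, lab v = Lab.Bz 11 5
  z12 : ∃ v, lab v = Lab.Bz 12 5
  f4 : ∀ r, 1 ≤ r → r ≤ 3 → ∃ v, lab v = Lab.A r 4
  f3 : ∀ r, 1 ≤ r → r ≤ 3 → ∃ v, lab v = Lab.A r 3
  f2 : ∀ r, 1 ≤ r → r ≤ 6 → ∃ v, lab v = Lab.A r 2

theorem State.partner (st : State G N nb lab) {v : V} {r j : ℕ} (h : lab v = Lab.Bz r j) :
    ∃ w, lab w = Lab.Bw r j := by
  obtain ⟨_, _, _, ⟨w, _, h2⟩, _⟩ := st.lZ v r j h
  exact ⟨w, h2⟩

theorem full_links (st : State G N nb lab) (hN : 13 ≤ N) (hf : Full N lab) : Links N lab := by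
  refine ⟨fun c hc => ?_, hf.top 1 (by omega) (by omega)⟩
  by_cases h1 : c + 4 = N
  · obtain ⟨v, hv⟩ := hf.l1
    exact ⟨v, Or.inl (by rw [hv, show c + 2 = N - 2 by omega])⟩
  by_cases h2 : c + 5 = N
  · obtain ⟨v, hv⟩ := hf.l2
    exact ⟨v, Or.inl (by rw [hv, show c + 2 = N - 3 by omega])⟩
  · obtain ⟨v, hv⟩ := hf.l (c + 3) (by omega) (by omega)
    obtain ⟨w, hw⟩ := st.partner hv
    exact ⟨w, Or.inr hw⟩

/-- pairs of consecutive missing colours -/
def Pairs (N : ℕ) (nb : ℕ → V → Option V) : Prop :=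
  ∀ j, 2 ≤ j → j + 1 ≤ N → ∃ v, nb (j - 1) v = none ∧ nb j v = none

theorem full_pairs (st : State G N nb lab) (hN : 13 ≤ N) (hf : Full N lab) : Pairs N nb := by
  intro j hj hjN
  have fromA : ∀ {r : ℕ}, (∃ v, lab v = Lab.A r j) → ∃ v, nb (j - 1) v = none ∧ nb j v = none := by
    rintro r ⟨v, hv⟩
    have := st.lA v r j hv
    exact ⟨v, this.2.1, this.2.2.1⟩
  by_cases h1 : j + 1 = N
  · have := hf.top 1 (by omega) (by omega)
    rw [show N - 1 = j by omega] at this
    exact fromA this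
  by_cases h2 : j + 2 = N
  · have := hf.l1
    rw [show N - 2 = j by omega] at this
    exact fromA this
  by_cases h3 : j = 2
  · subst h3
    exact fromA (hf.f2 1 (by omega) (by omega))
  · obtain ⟨v, hv⟩ := hf.l j (by omega) (by omega)
    have := st.lZ v 13 j hv
    exact ⟨v, this.2.1, this.2.2.1⟩

theorem Pairs.avail (h : Pairs N nb) : Avail N nb := by
  intro c₁ c₂ c₃ h1 h2 h3 h12 h13 h23
  constructor
  · have key : ∀ c, 1 ≤ c → c + 2 ≤ N → (c = c₁ ∨ c = c₂ ∨ c = c₃) →
        ∃ v x y, x < y ∧ y < N ∧ nb x v = none ∧ nb y v = none ∧ (x = c₁ ∨ x = c₂ ∨ x = c₃) := by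
      intro c hc1 hc2 hc3
      obtain ⟨v, hv1, hv2⟩ := h (c + 1) (by omega) (by omega)
      exact ⟨v, c, c + 1, by omega, by omega, hv1, hv2, hc3⟩
    by_cases g1 : 1 ≤ c₁ ∧ c₁ + 2 ≤ N
    · exact key c₁ g1.1 g1.2 (Or.inl rfl)
    by_cases g2 : 1 ≤ c₂ ∧ c₂ + 2 ≤ N
    · exact key c₂ g2.1 g2.2 (Or.inr (Or.inl rfl))
    by_cases g3 : 1 ≤ c₃ ∧ c₃ + 2 ≤ N
    · exact key c₃ g3.1 g3.2 (Or.inr (Or.inr rfl))
    exfalso
    omega
  · have key : ∀ c, 2 ≤ c → c + 1 ≤ N → (c = c₁ ∨ c = c₂ ∨ c = c₃) →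
        ∃ v x y, x < y ∧ y < N ∧ nb x v = none ∧ nb y v = none ∧ (y = c₁ ∨ y = c₂ ∨ y = c₃) := by
      intro c hc1 hc2 hc3
      obtain ⟨v, hv1, hv2⟩ := h c (by omega) (by omega)
      exact ⟨v, c - 1, c, by omega, by omega, hv1, hv2, hc3⟩
    by_cases g1 : 2 ≤ c₁
    · exact key c₁ g1 (by omega) (Or.inl rfl)
    by_cases g2 : 2 ≤ c₂
    · exact key c₂ g2 (by omega) (Or.inr (Or.inl rfl))
    by_cases g3 : 2 ≤ c₃
    · exact key c₃ g3 (by omega) (Or.inr (Or.inr rfl))
    exfalso
    omega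

/-! ### Development of single labels -/

section dev

theorem dev_keep {r j r' : ℕ} (h : ∃ v, lab v = Lab.A r j) (e : actA N r j = Act.keep r') :
    ∃ p, labS N lab p = Lab.A r' (j - 1) := by
  obtain ⟨v, hv⟩ := h
  exact ⟨(v, false), by simp [labS, hv, d0, e]⟩

theorem dev_spKeep {r j r' : ℕ} (h : ∃ v, lab v = Lab.A r j) (e : actA N r j = Act.spKeep r') :
    ∃ p, labS N lab p = Lab.A r' (N - 1) := by
  obtain ⟨v, hv⟩ := h
  exact ⟨(v, false), by simp [labS, hv, d0, e]⟩

theorem dev_spShift {r j r' : ℕ} (h : ∃ v, lab v = Lab.A r j) (e : actA N r j = Act.spShift r') :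
    ∃ p, labS N lab p = Lab.A r' N := by
  obtain ⟨v, hv⟩ := h
  exact ⟨(v, true), by simp [labS, hv, d1, e]⟩

theorem dev_both {r j r' : ℕ} (h : ∃ v, lab v = Lab.A r j) (e : actA N r j = Act.both r') :
    ∃ p, labS N lab p = Lab.Bz r' (j - 1) := by
  obtain ⟨v, hv⟩ := h
  exact ⟨(v, false), by simp [labS, hv, d0, e]⟩

theorem dev_z {r j : ℕ} (h : ∃ v, lab v = Lab.Bz r j) (hr : r ≠ 13) :
    ∃ p, labS N lab p = Lab.A (zr r) (j - 1) := by
  obtain ⟨v, hv⟩ := h
  exact ⟨(v, false), by simp [labS, hv, d0, hr]⟩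

theorem dev_w {r j : ℕ} (h : ∃ v, lab v = Lab.Bw r j) (hr : r ≠ 13) :
    ∃ p, labS N lab p = Lab.A (wr r) (j - 3) := by
  obtain ⟨v, hv⟩ := h
  exact ⟨(v, true), by simp [labS, hv, d1, hr]⟩

theorem dev_l {j : ℕ} (h : ∃ v, lab v = Lab.Bz 13 j) (hj : j ≠ 3) :
    ∃ p, labS N lab p = Lab.Bz 13 (j - 1) := by
  obtain ⟨v, hv⟩ := h
  exact ⟨(v, false), by simp [labS, hv, d0, hj]⟩

theorem dev_l3 (h : ∃ v, lab v = Lab.Bz 13 3) :
    ∃ p, labS N lab p = Lab.A 6 2 := by
  obtain ⟨v, hv⟩ := h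
  exact ⟨(v, false), by simp [labS, hv, d0]⟩

theorem act_top {r : ℕ} (hN : 12 ≤ N) (h2 : r ≤ 6) :
    actA N r (N - 1) = if r = 1 then Act.spKeep 7
      else if r = 2 then Act.keep 7
      else if r = 3 then Act.spKeep 8
      else if r = 4 then Act.both 13
      else if r = 5 then Act.spKeep 9
      else Act.keep 9 := by
  unfold actA
  rw [if_pos h2, if_neg (by omega), if_pos (by omega)]

theorem act_fin {r j : ℕ} (h2 : r ≤ 6) (hj : j ≠ 2) (hjN : j + 1 ≠ N) :
    actA N r j = Act.keep r := by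
  unfold actA
  rw [if_pos h2, if_neg hj, if_neg hjN]

theorem act_two {r : ℕ} (h2 : r ≤ 6) : actA N r 2 = Act.spShift r := by
  unfold actA
  rw [if_pos h2, if_pos rfl]

end dev

theorem Full.step (st : State G N nb lab) (hN : 13 ≤ N) (hf : Full N lab) :
    Full (N + 1) (labS N lab) := by
  have hN' : 12 ≤ N := by omega
  refine ⟨?_, ?_, ?_, ?_, ?_, ?_, ?_, ?_, ?_, ?_, ?_, ?_, ?_, ?_, ?_, ?_⟩
  · intro r h1 h2
    have := dev_spShift (N := N) (hf.f2 r h1 h2) (act_two h2)
    simpa using this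
  · have := dev_spKeep (N := N) (hf.top 1 (by omega) (by omega)) (act_top hN' (by omega))
    rw [show N + 1 - 2 = N - 1 by omega]; exact this
  · have := dev_keep (N := N) (hf.top 2 (by omega) (by omega)) (act_top hN' (by omega))
    rw [show N - 1 - 1 = N + 1 - 3 by omega] at this; exact this
  · have := dev_spKeep (N := N) (hf.top 3 (by omega) (by omega)) (act_top hN' (by omega))
    rw [show N + 1 - 2 = N - 1 by omega]; exact this
  · intro j hj hjN
    by_cases h1 : j = N - 1
    · have := dev_spKeep (N := N) (hf.top 5 (by omega) (by omega)) (act_top hN' (by omega))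
      rw [h1]; exact this
    by_cases h2 : j = N - 2
    · have := dev_keep (N := N) (hf.top 6 (by omega) (by omega)) (act_top hN' (by omega))
      rw [show N - 1 - 1 = j by omega] at this; exact this
    · have e : actA N 9 (j + 1) = Act.keep 9 := by
        unfold actA
        rw [if_neg (by omega), if_neg (by omega), if_neg (by omega), if_pos rfl,
          if_neg (by omega)]
      have := dev_keep (N := N) (hf.g (j + 1) (by omega) (by omega)) e
      simpa using this
  · intro j hj hjN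
    by_cases h1 : j = N - 2
    · have := dev_both (N := N) (hf.top 4 (by omega) (by omega)) (act_top hN' (by omega))
      rw [show N - 1 - 1 = j by omega] at this; exact this
    by_cases h2 : j = N - 3
    · have e : actA N 8 (N - 2) = Act.both 13 := by simp [actA]
      have := dev_both (N := N) hf.lam e
      rw [show N - 2 - 1 = j by omega] at this; exact this
    · have := dev_l (N := N) (hf.l (j + 1) (by omega) (by omega)) (by omega)
      simpa using this
  · have e : actA N 9 10 = Act.both 9 := by simp [actA]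
    exact dev_both (N := N) (hf.g 10 (by omega) (by omega)) e
  · exact dev_z (N := N) hf.z9 (by omega)
  · have e : actA N 10 8 = Act.both 10 := by simp [actA]
    exact dev_both (N := N) hf.a10 e
  · exact dev_z (N := N) hf.z10 (by omega)
  · obtain ⟨v, hv⟩ := hf.z9
    exact dev_w (N := N) (st.partner hv) (by omega)
  · have e : actA N 11 6 = Act.both 11 := by simp [actA]
    exact dev_both (N := N) hf.a11 e
  · have e : actA N 12 6 = Act.both 12 := by simp [actA]
    exact dev_both (N := N) hf.a12 e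
  · intro r h1 h2
    have hr : r = 1 ∨ r = 2 ∨ r = 3 := by omega
    rcases hr with rfl | rfl | rfl
    · exact dev_z (N := N) hf.z11 (by omega)
    · exact dev_z (N := N) hf.z12 (by omega)
    · obtain ⟨v, hv⟩ := hf.z10
      exact dev_w (N := N) (st.partner hv) (by omega)
  · intro r h1 h2
    exact dev_keep (N := N) (hf.f4 r h1 h2) (act_fin (by omega) (by omega) (by omega))
  · intro r h1 h2
    by_cases h3 : r ≤ 3
    · exact dev_keep (N := N) (hf.f3 r h1 h3) (act_fin (by omega) (by omega) (by omega))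
    have hr : r = 4 ∨ r = 5 ∨ r = 6 := by omega
    rcases hr with rfl | rfl | rfl
    · obtain ⟨v, hv⟩ := hf.z11
      exact dev_w (N := N) (st.partner hv) (by omega)
    · obtain ⟨v, hv⟩ := hf.z12
      exact dev_w (N := N) (st.partner hv) (by omega)
    · exact dev_l3 (N := N) (hf.l 3 (by omega) (by omega))

end Pool.Agent.Lib.MP_84d915_co
end

section

/-!
The value of `r`.
-/

namespace Pool.Agent.Lib.MP_84d915_co

open Relation

theorem start_vA : ∀ p ∈ startLabels, vA 12 p.1 p.2 := by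
  intro p hp
  simp only [startLabels, List.mem_cons, List.not_mem_nil, or_false] at hp
  unfold vA
  rcases hp with rfl | rfl | rfl | rfl | rfl | rfl | rfl | rfl | rfl | rfl | rfl | rfl | rfl |
    rfl | rfl | rfl | rfl | rfl | rfl | rfl | rfl | rfl | rfl | rfl | rfl | rfl | rfl | rfl |
    rfl | rfl | rfl | rfl | rfl | rfl | rfl | rfl | rfl | rfl | rfl | rfl | rfl | rfl | rfl |
    rfl | rfl | rfl | rfl <;> omega

/-- the structure at `N = 12` together with the labels -/
theorem start : ∃ (V : Type) (G : SimpleGraph V) (_ : Nonempty (G ≃g cube 10))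
    (nb : ℕ → V → Option V) (lab : V → Lab), State G 12 nb lab ∧
    ∀ p ∈ startLabels, ∃ v, lab v = Lab.A p.1 p.2 := by
  obtain ⟨V, G, e, nb, lab, hc, h1, h2, hA, hl, hs⟩ := base12
  refine ⟨V, G, e, nb, lab, ⟨le_rfl, hc, h1, h2, ?_, ?_, ?_⟩, hs⟩
  · intro v r j h
    obtain ⟨_, _, h5, h6, h7⟩ := hA v r j h
    obtain ⟨p, hp, hp2⟩ := hl v (by rw [h]; simp)
    rw [h] at hp2
    obtain ⟨rfl, rfl⟩ := Lab.A.inj hp2
    exact ⟨start_vA p hp, h5, h6, h7⟩
  · intro v r j h
    obtain ⟨p, hp, hp2⟩ := hl v (by rw [h]; simp)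
    rw [h] at hp2
    exact absurd hp2 (by simp)
  · intro v r j h
    obtain ⟨p, hp, hp2⟩ := hl v (by rw [h]; simp)
    rw [h] at hp2
    exact absurd hp2 (by simp)

section

variable {V : Type} {lab : V → Lab}

theorem start_links (hs : ∀ p ∈ startLabels, ∃ v, lab v = Lab.A p.1 p.2) : Links 12 lab := by
  refine ⟨fun c hc => ?_, hs (1, 11) (by simp [startLabels])⟩
  have : c ≤ 8 := by omega
  interval_cases c
  · obtain ⟨v, hv⟩ := hs (7, 2) (by simp [startLabels]); exact ⟨v, Or.inl hv⟩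
  · obtain ⟨v, hv⟩ := hs (7, 3) (by simp [startLabels]); exact ⟨v, Or.inl hv⟩
  · obtain ⟨v, hv⟩ := hs (7, 4) (by simp [startLabels]); exact ⟨v, Or.inl hv⟩
  · obtain ⟨v, hv⟩ := hs (7, 5) (by simp [startLabels]); exact ⟨v, Or.inl hv⟩
  · obtain ⟨v, hv⟩ := hs (7, 6) (by simp [startLabels]); exact ⟨v, Or.inl hv⟩
  · obtain ⟨v, hv⟩ := hs (7, 7) (by simp [startLabels]); exact ⟨v, Or.inl hv⟩
  · obtain ⟨v, hv⟩ := hs (7, 8) (by simp [startLabels]); exact ⟨v, Or.inl hv⟩
  · obtain ⟨v, hv⟩ := hs (7, 9) (by simp [startLabels]); exact ⟨v, Or.inl hv⟩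
  · obtain ⟨v, hv⟩ := hs (7, 10) (by simp [startLabels]); exact ⟨v, Or.inl hv⟩

theorem start_pairs {G : SimpleGraph V} {nb : ℕ → V → Option V} (st : State G 12 nb lab)
    (hs : ∀ p ∈ startLabels, ∃ v, lab v = Lab.A p.1 p.2) : Pairs 12 nb := by
  intro j h1 h2
  have key : ∀ r, (r, j) ∈ startLabels → ∃ v, nb (j - 1) v = none ∧ nb j v = none := by
    intro r hr
    obtain ⟨v, hv⟩ := hs _ hr
    have := st.lA v r j hv
    exact ⟨v, this.2.1, this.2.2.1⟩
  have : j ≤ 11 := by omega
  interval_cases j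
  · exact key 7 (by simp [startLabels])
  · exact key 7 (by simp [startLabels])
  · exact key 7 (by simp [startLabels])
  · exact key 7 (by simp [startLabels])
  · exact key 7 (by simp [startLabels])
  · exact key 7 (by simp [startLabels])
  · exact key 7 (by simp [startLabels])
  · exact key 7 (by simp [startLabels])
  · exact key 7 (by simp [startLabels])
  · exact key 1 (by simp [startLabels])

theorem start_full (hs : ∀ p ∈ startLabels, ∃ v, lab v = Lab.A p.1 p.2) :
    Full 13 (labS 12 lab) := by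
  have has : ∀ r j, (r, j) ∈ startLabels → ∃ v, lab v = Lab.A r j := fun r j h => hs (r, j) h
  refine ⟨?_, ?_, ?_, ?_, ?_, ?_, ?_, ?_, ?_, ?_, ?_, ?_, ?_, ?_, ?_, ?_⟩
  · intro r h1 h2
    refine dev_spShift (N := 12) (has r 2 ?_) (act_two h2)
    interval_cases r <;> simp [startLabels]
  · exact dev_spKeep (N := 12) (r := 1) (j := 11) (has 1 11 (by simp [startLabels]))
      (by simp [actA])
  · exact dev_keep (N := 12) (r := 2) (j := 11) (has 2 11 (by simp [startLabels]))
      (by simp [actA])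
  · exact dev_spKeep (N := 12) (r := 3) (j := 11) (has 3 11 (by simp [startLabels]))
      (by simp [actA])
  · intro j hj hjN
    have : j ≤ 11 := by omega
    interval_cases j
    · exact dev_keep (N := 12) (r := 6) (j := 11) (has 6 11 (by simp [startLabels]))
        (by simp [actA])
    · exact dev_spKeep (N := 12) (r := 5) (j := 11) (has 5 11 (by simp [startLabels]))
        (by simp [actA])
  · intro j hj hjN
    have : j ≤ 10 := by omega
    by_cases h : j = 10
    · subst h
      exact dev_both (N := 12) (r := 4) (j := 11) (has 4 11 (by simp [startLabels]))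
        (by simp [actA])
    · refine dev_both (N := 12) (r := 8) (j := j + 1) (has 8 (j + 1) ?_) (by simp [actA])
      have : j ≤ 9 := by omega
      interval_cases j <;> simp [startLabels]
  · exact dev_both (N := 12) (r := 9) (j := 10) (has 9 10 (by simp [startLabels]))
      (by simp [actA])
  · exact dev_keep (N := 12) (r := 10) (j := 9) (has 10 9 (by simp [startLabels]))
      (by simp [actA])
  · exact dev_both (N := 12) (r := 10) (j := 8) (has 10 8 (by simp [startLabels]))
      (by simp [actA])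
  · exact dev_keep (N := 12) (r := 11) (j := 7) (has 11 7 (by simp [startLabels]))
      (by simp [actA])
  · exact dev_keep (N := 12) (r := 12) (j := 7) (has 12 7 (by simp [startLabels]))
      (by simp [actA])
  · exact dev_both (N := 12) (r := 11) (j := 6) (has 11 6 (by simp [startLabels]))
      (by simp [actA])
  · exact dev_both (N := 12) (r := 12) (j := 6) (has 12 6 (by simp [startLabels]))
      (by simp [actA])
  · intro r h1 h2
    refine dev_keep (N := 12) (r := r) (j := 5) (has r 5 ?_) (act_fin (by omega) (by omega)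
      (by omega))
    interval_cases r <;> simp [startLabels]
  · intro r h1 h2
    refine dev_keep (N := 12) (r := r) (j := 4) (has r 4 ?_) (act_fin (by omega) (by omega)
      (by omega))
    interval_cases r <;> simp [startLabels]
  · intro r h1 h2
    refine dev_keep (N := 12) (r := r) (j := 3) (has r 3 ?_) (act_fin (by omega) (by omega)
      (by omega))
    interval_cases r <;> simp [startLabels]

end

/-- the induction -/
theorem all_states (n : ℕ) : ∃ (V : Type) (G : SimpleGraph V)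
    (_ : Nonempty (G ≃g cube (n + 11))) (nb : ℕ → V → Option V) (lab : V → Lab),
    State G (n + 13) nb lab ∧ Full (n + 13) lab := by
  induction n with
  | zero =>
    obtain ⟨V, G, ⟨e⟩, nb, lab, st, hs⟩ := start
    exact ⟨V × Bool, prodG G, prod_iso G e, newNb 12 nb lab, labS 12 lab,
      st.step (start_links hs), start_full hs⟩
  | succ n ih =>
    obtain ⟨V, G, ⟨e⟩, nb, lab, st, hf⟩ := ih
    refine ⟨V × Bool, prodG G, ?_, newNb (n + 13) nb lab, labS (n + 13) lab, ?_, ?_⟩
    · have := prod_iso G e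
      rwa [show n + 11 + 1 = n + 1 + 11 by omega] at this
    · have := st.step (full_links st (by omega) hf)
      rwa [show n + 13 + 1 = n + 1 + 13 by omega] at this
    · have := hf.step st (by omega)
      rwa [show n + 13 + 1 = n + 1 + 13 by omega] at this

theorem upper (d : ℕ) (hd : 3 ≤ d) : ∃ F, IsOneFactorization d F ∧ UnionsConnected d 3 F := by
  by_cases h11 : d ≤ 11
  · exact Small.small d hd h11
  by_cases h12 : d = 12
  · subst h12
    obtain ⟨V, G, ⟨e⟩, nb, lab, st, hs⟩ := start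
    exact assemble (b := 10) G e nb st.col st.p1 (start_pairs st hs).avail
  · obtain ⟨V, G, ⟨e⟩, nb, lab, st, hf⟩ := all_states (d - 13)
    rw [show d - 13 + 13 = d by omega] at st hf
    rw [show d - 13 + 11 = d - 2 by omega] at e
    have hd2 : d = (d - 2) + 2 := by omega
    have h := assemble (b := d - 2) G e nb (by rw [← hd2]; exact st.col)
      (by rw [← hd2]; exact st.p1) (by rw [← hd2]; exact (full_pairs st (by omega) hf).avail)
    rw [← hd2] at h
    exact h

theorem r_eq (d : ℕ) (hd : 3 ≤ d) : r d = 3 := by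
  have h3 : 3 ∈ {k | 0 < k ∧ ∃ F, IsOneFactorization d F ∧ UnionsConnected d k F} :=
    ⟨by omega, upper d hd⟩
  apply le_antisymm
  · exact Nat.sInf_le h3
  · obtain ⟨h1, h2⟩ := Nat.sInf_mem (s := {k | 0 < k ∧ ∃ F, IsOneFactorization d F ∧
      UnionsConnected d k F}) ⟨3, h3⟩
    exact lower_bound hd h1 h2

end Pool.Agent.Lib.MP_84d915_co
end
end
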